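import Pool.Prelude.Def_H_3587d628

/-!
Definitions for the statement: counting classes and the three numerical problems.
-/

set_option autoImplicit false

namespace Pool.Agent.MP_c00c90_lc

open N68a2faeb

/-- The number of binary strings of length `n` with property `E`. -/
noncomputable def cnt (n : ℕ) (E : List Bool → Prop) : ℕ :=
  Set.ncard {w : List Bool | w.length = n ∧ E w}

/-- The length of the binary code of `x`. -/
def len {α : Type} [N487b59b3 α] (x : α) : ℕ := (N487b59b3.bitEncode x).length

/-- The answers to the first `t` counting queries on input `x`, newest first: each query asks for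
the number of strings `w` of length `m` with `R (x, earlier answers, w)`. -/
noncomputable def hist {γ : Type} (R : γ × List ℕ × List Bool → Bool) (m : ℕ) (x : γ) :
    ℕ → List ℕ
  | 0 => []
  | t + 1 => cnt m (fun w => R (x, hist R m x t, w) = true) :: hist R m x t

/-- Polynomial time with polynomially many adaptive counting (sharp P) queries. -/
def PSharp {γ : Type} [N487b59b3 γ] (V : γ → Prop) : Prop :=
  ∃ (p : Polynomial ℕ) (R : γ × List ℕ × List Bool → Bool) (out : γ × List ℕ → Bool),
    IsPolyTime R ∧ IsPolyTime out ∧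
      ∀ x, V x ↔ out (x, hist R (p.eval (len x)) x (p.eval (len x))) = true

/-- Bounded error probabilistic polynomial time with counting queries. -/
def BPPSharp {α : Type} [N487b59b3 α] (L : α → Prop) : Prop :=
  ∃ (p : Polynomial ℕ) (V : α × List Bool → Prop), PSharp V ∧
    ∀ x, 2 * 2 ^ p.eval (len x) ≤ 3 * cnt (p.eval (len x)) fun r => (V (x, r) ↔ L x)

/-- Merlin-Arthur games whose verifier has counting queries. -/
def MASharp {α : Type} [N487b59b3 α] (L : α → Prop) : Prop :=
  ∃ (p q : Polynomial ℕ) (V : α × List Bool × List Bool → Prop), PSharp V ∧ ∀ x,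
    (L x → ∃ w : List Bool, w.length = p.eval (len x) ∧
      2 * 2 ^ q.eval (len x) ≤ 3 * cnt (q.eval (len x)) fun r => V (x, w, r)) ∧
    (¬L x → ∀ w : List Bool, w.length = p.eval (len x) →
      3 * cnt (q.eval (len x)) (fun r => V (x, w, r)) ≤ 2 ^ q.eval (len x))

/-- The second level of the counting hierarchy: two majority quantifiers in front of a
polynomial-time predicate. -/
def CH2 {α : Type} [N487b59b3 α] (L : α → Prop) : Prop :=
  ∃ (p q : Polynomial ℕ) (R : α × List Bool × List Bool → Bool), IsPolyTime R ∧ ∀ x,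
    L x ↔ 2 ^ p.eval (len x) < 2 * cnt (p.eval (len x)) fun y =>
      2 ^ q.eval (len x) < 2 * cnt (q.eval (len x)) fun z => R (x, y, z) = true

/-- The Euclidean travelling salesperson problem: cities in the integer plane and a bound. -/
def ETSP (I : List (ℤ × ℤ) × ℤ) : Prop :=
  ∃ π : Equiv.Perm (Fin I.1.length),
    ∑ i, √((((I.1.get (π i)).1 - (I.1.get (π (finRotate _ i))).1 : ℤ) : ℝ) ^ 2 +
      (((I.1.get (π i)).2 - (I.1.get (π (finRotate _ i))).2 : ℤ) : ℝ) ^ 2) ≤ (I.2 : ℝ)

/-- Sum of square roots against an integer. -/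
def SSQR (I : List ℕ × ℕ) : Prop := (I.2 : ℝ) ≤ (I.1.map fun a : ℕ => √(a : ℝ)).sum

/-- Comparison of two sums of square roots. -/
def SSQR2 (I : List ℕ × List ℕ) : Prop :=
  (I.2.map fun a : ℕ => √(a : ℝ)).sum ≤ (I.1.map fun a : ℕ => √(a : ℝ)).sum

/-- One instruction `(o, i, j)` of a straight-line program appends the sum (`o = 0`), difference
(`o = 1`) or product (otherwise) of the values number `i` and `j`. -/
def slpStep (v : List ℤ) (c : ℕ × ℕ × ℕ) : List ℤ :=
  v ++ [if c.1 = 0 then v.getD c.2.1 0 + v.getD c.2.2 0
    else if c.1 = 1 then v.getD c.2.1 0 - v.getD c.2.2 0 else v.getD c.2.1 0 * v.getD c.2.2 0]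

/-- The last value of the straight-line program started from the value `1` is positive. -/
def PosSLP (P : List (ℕ × ℕ × ℕ)) : Prop := 0 < (P.foldl slpStep [1]).getD P.length 0

end Pool.Agent.MP_c00c90_lc
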