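import Mathlib
import Pool.Agent.Lib.helper82.PolyFun
import Pool.Agent.MP_c00c90_lc.Defs

-- ======== part 0: formerly Pool.Agent.MP_c00c90_lc.Sharp
section MrgPart0

/-!
Polynomial-time arithmetic, sums over binary strings and closure properties of counting functions.
-/

set_option autoImplicit false

namespace Pool.Agent.MP_c00c90_lc

open Pool.Agent.PolyT Pool.Agent.H82 N487b59b3 Finset

section poly

variable {α β γ : Type} [N487b59b3 α] [N487b59b3 β] [N487b59b3 γ]

theorem div_step (n d : ℕ) (hd : 0 < d) (b : Bool) :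
    (2 * n + b.toNat) / d =
      bif ltB (2 * n + b.toNat) ((2 * (n / d) + 1) * d) then 2 * (n / d) else 2 * (n / d) + 1 := by
  have h1 := Nat.div_add_mod n d
  have h2 := Nat.mod_lt n hd
  have h3 : b.toNat ≤ 1 := Bool.toNat_le b
  generalize n / d = q at *
  generalize n % d = r at *
  cases h : ltB (2 * n + b.toNat) ((2 * q + 1) * d)
  · rw [ltB_false_iff] at h
    rw [cond_false]
    exact Nat.div_eq_of_lt_le h (by nlinarith)
  · rw [ltB_iff] at h
    rw [cond_true]
    exact Nat.div_eq_of_lt_le (by nlinarith) h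

/-- One round of long division. -/
def divStep (d : ℕ) (b : Bool) (s : ℕ × ℕ) : ℕ × ℕ :=
  (2 * s.1 + bif b then 1 else 0,
    bif ltB (2 * s.1 + bif b then 1 else 0) ((2 * s.2 + 1) * d) then 2 * s.2 else 2 * s.2 + 1)

theorem foldr_divStep (d : ℕ) (hd : 0 < d) (l : List Bool) :
    l.foldr (divStep d) (0, 0) = (ofBits l, ofBits l / d) := by
  induction l with
  | nil => simp
  | cons b l ih =>
    rw [List.foldr_cons, ih, ofBits_cons, div_step _ _ hd]
    cases b <;> rfl

@[fun_prop] theorem p_div {f g : α → ℕ} (hf : PolyT.Poly f) (hg : PolyT.Poly g) :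
    PolyT.Poly (fun a => f a / g a) := by
  have h1 : PolyT.Poly (fun a => (f a).bits.foldr (divStep (g a - 1 + 1)) (0, 0)) := by
    refine PolyT.Poly.foldr (f := fun a => divStep (g a - 1 + 1)) (by unfold divStep; fun_prop)
      hf.bits (p_const _) (((Bd.const 3).mul hf.bd).add (Bd.const 1)) fun a n => ?_
    rw [foldr_divStep _ (Nat.add_one_pos _), length_enc_pair]
    have b1 := length_enc_nat_le (ofBits_lt ((f a).bits.drop n))
    have b2 := length_enc_nat_mono (Nat.div_le_self (ofBits ((f a).bits.drop n)) (g a - 1 + 1))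
    have b3 : ((f a).bits.drop n).length ≤ (bitEncode (f a)).length := by rw [enc_nat]; simp
    simp only at b1 b2 b3 ⊢
    omega
  refine PolyT.Poly.congr (f := fun a => bif eqB (g a) 0 then 0
    else ((f a).bits.foldr (divStep (g a - 1 + 1)) (0, 0)).2) (by fun_prop) fun a => ?_
  rw [foldr_divStep _ (Nat.add_one_pos _), ofBits_bits]
  cases h : eqB (g a) 0
  · rw [eqB_false_iff] at h
    rw [cond_false, Nat.sub_add_cancel (Nat.one_le_iff_ne_zero.2 h)]
  · rw [eqB_iff] at h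
    simp [h]

@[fun_prop] theorem p_mod {f g : α → ℕ} (hf : PolyT.Poly f) (hg : PolyT.Poly g) :
    PolyT.Poly (fun a => f a % g a) :=
  PolyT.Poly.congr (f := fun a => f a - g a * (f a / g a)) (by fun_prop) fun _ =>
    (Nat.mod_def _ _).symm

@[fun_prop] theorem p_prod {l : α → List ℕ} (hl : PolyT.Poly l) :
    PolyT.Poly (fun a => (l a).prod) := by
  have key : ∀ r : List ℕ, r.prod < 2 ^ ((bitEncode r).length + 1) := by
    intro r
    induction r with
    | nil => simp
    | cons x r ih =>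
      rw [List.prod_cons, length_enc_cons]
      refine (Nat.mul_lt_mul'' (lt_two_pow_enc x) ih).trans_le ?_
      rw [← pow_add]
      exact Nat.pow_le_pow_right (by norm_num) (by omega)
  exact PolyT.Poly.foldr (f := fun _ (x n : ℕ) => x * n)
    (PolyT.Poly.id.snd.fst.mul PolyT.Poly.id.snd.snd) hl (PolyT.Poly.const 1)
    (hl.bd.add (Bd.const 1)) fun a n => (length_enc_nat_le (key _)).trans
      (Nat.add_le_add_right (enc_sublist_le (List.drop_sublist _ _)) 1)

@[fun_prop] theorem p_ofBits {l : α → List Bool} (hl : PolyT.Poly l) :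
    PolyT.Poly (fun a => ofBits (l a)) := hl.ofBits

/-- Modular power by repeated squaring. -/
def powMod (a e m : ℕ) : ℕ := e.bits.foldr (fun b s => s * s * cond b a 1 % (m - 1 + 1)) 1

theorem powMod_cast (a e : ℕ) {m : ℕ} (hm : 0 < m) :
    ((powMod a e m : ℕ) : ZMod m) = (a : ZMod m) ^ e := by
  conv_rhs => rw [← ofBits_bits e]
  rw [powMod, Nat.sub_add_cancel hm]
  induction e.bits with
  | nil => simp
  | cons b l ih =>
    rw [List.foldr_cons, ZMod.natCast_mod, Nat.cast_mul, Nat.cast_mul, ih, ofBits_cons, pow_add,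
      two_mul, pow_add]
    cases b <;> simp

@[fun_prop] theorem p_powMod {f g h : α → ℕ} (hf : PolyT.Poly f) (hg : PolyT.Poly g)
    (hh : PolyT.Poly h) : PolyT.Poly (fun a => powMod (f a) (g a) (h a)) := by
  refine PolyT.Poly.foldr (f := fun a b s => s * s * cond b (f a) 1 % (h a - 1 + 1))
    (by fun_prop) hg.bits (p_const 1) (PolyT.Poly.bd (f := fun a => h a + 1) (by fun_prop))
    fun a n => length_enc_nat_mono ?_
  cases (g a).bits.drop n with
  | nil => simp
  | cons b l => exact (Nat.mod_lt _ (Nat.add_one_pos _)).le.trans (by omega)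

/-- Numbers available in unary. -/
@[fun_prop] def Un (n : α → ℕ) : Prop := PolyT.Poly fun a => List.range (n a)

@[fun_prop] theorem p_range {n : α → ℕ} (h : Un n) : PolyT.Poly fun a => List.range (n a) := h

theorem Un.poly {n : α → ℕ} (h : Un n) : PolyT.Poly n :=
  (PolyT.Poly.length h).congr fun _ => List.length_range

theorem Un.bd {n : α → ℕ} (h : Un n) : Bd bitEncode n :=
  (PolyT.Poly.bd h).of_le fun a => by simpa using length_le_enc (List.range (n a))

@[fun_prop] theorem Un.length {l : α → List β} (h : PolyT.Poly l) : Un fun a => (l a).length :=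
  h.rangeLength

@[fun_prop] theorem Un.const (c : ℕ) : Un fun _ : α => c := p_const _

@[fun_prop] theorem Un.comp {g : β → ℕ} {f : α → β} (hg : Un g) (hf : PolyT.Poly f) :
    Un fun a => g (f a) := PolyT.Poly.comp (g := fun b => List.range (g b)) hg hf

theorem Un.of {n : α → ℕ} {l : α → List β} (h : PolyT.Poly l) (e : ∀ a, (l a).length = n a) :
    Un n := by rw [← funext e]; exact Un.length h

@[fun_prop] theorem Un.add {n k : α → ℕ} (h : Un n) (h' : Un k) : Un fun a => n a + k a :=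
  Un.of (l := fun a => List.range (n a) ++ List.range (k a)) (by fun_prop) (by simp)

@[fun_prop] theorem Un.mul {n k : α → ℕ} (h : Un n) (h' : Un k) : Un fun a => n a * k a :=
  Un.of (l := fun a => (List.range (n a)).flatMap fun _ => List.range (k a)) (by fun_prop)
    (by simp [List.length_flatMap])

@[fun_prop] theorem Un.min {n k : α → ℕ} (h : PolyT.Poly n) (h' : Un k) :
    Un fun a => min (n a) (k a) :=
  Un.of (l := fun a => (List.range (k a)).take (n a)) (by fun_prop) (by simp)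

@[fun_prop] theorem Un.sub {n k : α → ℕ} (h : Un n) (h' : PolyT.Poly k) :
    Un fun a => n a - k a :=
  Un.of (l := fun a => (List.range (n a)).drop (k a)) (by fun_prop) (by simp)

@[fun_prop] theorem Un.len {f : α → β} (hf : PolyT.Poly f) : Un fun a => len (f a) :=
  Un.length (PolyT.Poly.bitsOf hf)

@[fun_prop] theorem Un.eval (p : Polynomial ℕ) {n : α → ℕ} (h : Un n) :
    Un fun a => p.eval (n a) := by
  obtain ⟨F, hF, e⟩ := exists_list_eval h p
  exact Un.of hF (by simpa using e)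

@[fun_prop] theorem p_pow {c n : α → ℕ} (hc : PolyT.Poly c) (hn : Un n) :
    PolyT.Poly fun a => c a ^ n a :=
  PolyT.Poly.congr (f := fun a => ((List.range (n a)).map fun _ => c a).prod) (by fun_prop)
    (by simp)

theorem len_le {f : α → β} (hf : PolyT.Poly f) :
    ∃ p : Polynomial ℕ, ∀ a, len (f a) ≤ p.eval (len a) := hf.bd

theorem len_pair (a : α) (w : List Bool) : len (a, w) = 2 * len a + 1 + 3 * w.length := by
  rw [len, length_enc_pair, PolyT.Poly.enc_bools_length, len]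

end poly

/-- The binary strings of length `n`. -/
noncomputable def strs (n : ℕ) : Finset (List Bool) := (List.finite_length_eq Bool n).toFinset

@[simp] theorem mem_strs {n : ℕ} {w : List Bool} : w ∈ strs n ↔ w.length = n := by simp [strs]

theorem cnt_eq (n : ℕ) (E : List Bool → Prop) [DecidablePred E] :
    cnt n E = ∑ w ∈ strs n, if E w then 1 else 0 := by
  rw [← card_filter, cnt, ← Set.ncard_coe_finset]
  congr 1
  ext w; simp

theorem sum_strs_add (a b : ℕ) (g : List Bool → List Bool → ℕ) :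
    ∑ w ∈ strs (a + b), g (w.take a) (w.drop a) = ∑ w ∈ strs a, ∑ v ∈ strs b, g w v := by
  rw [← sum_product']
  refine sum_nbij' (fun w => (w.take a, w.drop a)) (fun p => p.1 ++ p.2) ?_ ?_ ?_ ?_ ?_
  · intro w hw; simp at hw ⊢; omega
  · intro p hp; simp at hp ⊢; omega
  · intro w _; simp
  · intro p hp
    simp only [mem_product, mem_strs] at hp
    simp [← hp.1]
  · intro w _; rfl

theorem sum_strs_succ (n : ℕ) (g : List Bool → ℕ) :
    ∑ w ∈ strs (n + 1), g w = ∑ w ∈ strs n, g (false :: w) + ∑ w ∈ strs n, g (true :: w) := by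
  have h := sum_strs_add 1 n fun w v => g (w ++ v)
  simp only [List.take_append_drop] at h
  have h1 : strs 1 = {[false], [true]} := by
    ext w
    simp only [mem_strs, List.length_eq_one_iff, mem_insert, mem_singleton]
    exact ⟨fun ⟨b, hb⟩ => by cases b <;> simp [hb], by rintro (rfl | rfl) <;> simp⟩
  rw [add_comm, h, h1, sum_pair (by simp)]
  rfl

theorem sum_range_mul' {R : Type} [AddCommMonoid R] {B : ℕ} (M : ℕ) (g : ℕ → ℕ → R) :
    ∑ y ∈ range (B * M), g (y % B) (y / B) = ∑ x ∈ range B, ∑ y ∈ range M, g x y := by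
  induction M with
  | zero => simp
  | succ M ih =>
    rw [Nat.mul_succ, sum_range_add, ih, ← sum_add_distrib]
    refine sum_congr rfl fun x hx => ?_
    rw [mem_range] at hx
    rw [sum_range_succ, Nat.mul_add_mod, Nat.mod_eq_of_lt hx, Nat.mul_add_div (by omega),
      Nat.div_eq_of_lt hx, add_zero]

theorem sum_ofBits (n : ℕ) (f : ℕ → ℕ) :
    ∑ w ∈ strs n, f (ofBits w) = ∑ y ∈ range (2 ^ n), f y := by
  induction n generalizing f with
  | zero =>
    have : strs 0 = {[]} := by ext w; simp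
    simp [this]
  | succ n ih =>
    have h := sum_range_mul' (B := 2) (2 ^ n) fun x y => f (2 * y + x)
    simp only [Nat.div_add_mod] at h
    rw [sum_strs_succ, pow_succ', h, sum_range_succ, sum_range_one, ← ih, ← ih]
    rfl

theorem card_strs (n : ℕ) : (strs n).card = 2 ^ n := by
  simpa using sum_ofBits n fun _ => 1

theorem sum_lt {n g : ℕ} (h : g ≤ 2 ^ n) :
    ∑ v ∈ strs n, (if ofBits v < g then 1 else 0) = g := by
  rw [sum_ofBits n fun y => if y < g then 1 else 0, ← card_filter]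
  convert card_range g
  ext y; simp; omega

theorem exists_ofBits {n y : ℕ} (h : y < 2 ^ n) : ∃ w : List Bool, w.length = n ∧ ofBits w = y := by
  by_contra hc
  have h1 := sum_ofBits n fun x => if x = y then 1 else 0
  rw [sum_ite_eq', if_pos (mem_range.2 h), sum_eq_zero fun w hw =>
    if_neg fun e => hc ⟨w, mem_strs.1 hw, e⟩] at h1
  omega

theorem sum_digits {R : Type} [CommSemiring R] (B t : ℕ) (f : ℕ → ℕ → R) :
    ∑ y ∈ range (B ^ t), ∏ i ∈ range t, f i (y / B ^ i % B) =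
      ∏ i ∈ range t, ∑ x ∈ range B, f i x := by
  induction t generalizing f with
  | zero => simp
  | succ t ih =>
    rw [prod_range_succ', ← ih, sum_mul_sum, sum_comm, pow_succ',
      ← sum_range_mul' (B ^ t) fun x y => (∏ i ∈ range t, f (i + 1) (y / B ^ i % B)) * f 0 x]
    refine sum_congr rfl fun y _ => ?_
    simp only [prod_range_succ', pow_zero, Nat.div_one, Nat.div_div_eq_div_mul, pow_succ']

theorem digit_sum {H n j : ℕ} {f : ℕ → ℕ} (hf : ∀ i < n, f i < H) (hj : j < n) :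
    (∑ i ∈ range n, H ^ i * f i) / H ^ j % H = f j := by
  induction n generalizing f j with
  | zero => omega
  | succ n ih =>
    have h0 := hf 0 (by omega)
    have e : ∑ i ∈ range (n + 1), H ^ i * f i = f 0 + H * ∑ i ∈ range n, H ^ i * f (i + 1) := by
      rw [sum_range_succ', mul_sum, add_comm, pow_zero, one_mul]
      exact congrArg _ (sum_congr rfl fun i _ => by ring)
    rw [e]
    cases j with
    | zero => simp [Nat.mod_eq_of_lt h0]
    | succ j =>
      rw [pow_succ', ← Nat.div_div_eq_div_mul, Nat.add_mul_div_left _ _ (by omega),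
        Nat.div_eq_of_lt h0, zero_add]
      exact ih (f := fun i => f (i + 1)) (fun i hi => hf _ (by omega)) (by omega)

section sharp

variable {α β γ : Type} [N487b59b3 α] [N487b59b3 β] [N487b59b3 γ]

/-- Counting functions, in a form that allows every long enough witness length. -/
def Sharp (F : α → ℕ) : Prop :=
  ∃ (p : Polynomial ℕ) (R : α × List Bool → Bool), PolyT.Poly R ∧
    ∀ x n, p.eval (len x) ≤ n → F x = ∑ w ∈ strs n, if R (x, w) then 1 else 0

theorem Sharp.of {F : α → ℕ} {u : α → ℕ} {g : α × List Bool → ℕ} (hu : Un u)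
    (hg : PolyT.Poly g) (h : ∀ x, F x = ∑ w ∈ strs (u x), g (x, w)) : Sharp F := by
  obtain ⟨p, hp⟩ := len_le hg
  obtain ⟨q, hq⟩ := hu.bd.add (((((Bd.const 2).mul Bd.len).add (Bd.const 1)).add
    ((Bd.const 3).mul hu.bd)).eval p)
  have := hu.poly
  refine ⟨q, fun y => ltB (ofBits (y.2.drop (u y.1))) (g (y.1, y.2.take (u y.1))), by fun_prop,
    fun x n hn => ?_⟩
  have h1 := (hq x).trans hn
  obtain ⟨k, rfl⟩ := Nat.exists_eq_add_of_le ((Nat.le_add_right _ _).trans h1)
  simp only [ltB_iff]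
  rw [h, sum_strs_add _ _ fun w v => if ofBits v < g (x, w) then 1 else 0]
  refine sum_congr rfl fun w hw => (sum_lt ?_).symm
  have h2 := hp (x, w)
  rw [len_pair, mem_strs.1 hw] at h2
  exact (lt_two_pow_enc _).le.trans (Nat.pow_le_pow_right (by norm_num)
    (h2.trans (Nat.le_of_add_le_add_left h1)))

theorem Sharp.ex {F : α → ℕ} (h : Sharp F) : ∃ (u : α → ℕ) (g : α × List Bool → ℕ), Un u ∧
    PolyT.Poly g ∧ ∀ x, F x = ∑ w ∈ strs (u x), g (x, w) := by
  obtain ⟨p, R, hR, h⟩ := h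
  exact ⟨fun x => p.eval (len x), fun y => cond (R y) 1 0, by fun_prop, by fun_prop,
    fun x => by simpa [Bool.cond_eq_ite] using h x _ le_rfl⟩

theorem Sharp.congr {F G : α → ℕ} (h : Sharp F) (e : ∀ x, F x = G x) : Sharp G := by
  rw [← funext e]; exact h

theorem Sharp.poly {F : α → ℕ} (h : PolyT.Poly F) : Sharp F :=
  Sharp.of (u := fun _ => 0) (g := fun y => F y.1) (by fun_prop) (by fun_prop) fun x => by
    simp [card_strs]

theorem Sharp.comp {F : β → ℕ} {f : α → β} (h : Sharp F) (hf : PolyT.Poly f) :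
    Sharp fun x => F (f x) := by
  obtain ⟨u, g, hu, hg, h⟩ := h.ex
  exact Sharp.of (u := fun x => u (f x)) (g := fun y => g (f y.1, y.2)) (by fun_prop)
    (by fun_prop) fun x => h _

theorem Sharp.mul {F G : α → ℕ} (h : Sharp F) (h' : Sharp G) : Sharp fun x => F x * G x := by
  obtain ⟨u, g, hu, hg, h⟩ := h.ex
  obtain ⟨u', g', hu', hg', h'⟩ := h'.ex
  have := hu.poly
  refine Sharp.of (u := fun x => u x + u' x)
    (g := fun y => g (y.1, y.2.take (u y.1)) * g' (y.1, y.2.drop (u y.1))) (by fun_prop)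
    (by fun_prop) fun x => ?_
  rw [h, h', sum_mul_sum, ← sum_strs_add]

theorem Sharp.ssum {F : α × List Bool → ℕ} {u : α → ℕ} (h : Sharp F) (hu : Un u) :
    Sharp fun x => ∑ w ∈ strs (u x), F (x, w) := by
  obtain ⟨p, R, hR, h⟩ := h
  have := hu.poly
  refine Sharp.of (u := fun x => u x + p.eval (2 * len x + 1 + 3 * u x))
    (g := fun y => cond (R ((y.1, y.2.take (u y.1)), y.2.drop (u y.1))) 1 0) (by fun_prop)
    (by fun_prop) fun x => ?_
  rw [sum_strs_add _ _ fun w v => cond (R ((x, w), v)) 1 0]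
  refine sum_congr rfl fun w hw => ?_
  rw [h (x, w) _ le_rfl, len_pair, mem_strs.1 hw]
  simp [Bool.cond_eq_ite]

theorem Sharp.cond {F G : α → ℕ} {c : α → Bool} (hc : PolyT.Poly c) (h : Sharp F)
    (h' : Sharp G) : Sharp fun x => cond (c x) (F x) (G x) := by
  obtain ⟨p, R, hR, h⟩ := h
  obtain ⟨p', R', hR', h'⟩ := h'
  refine ⟨p + p', fun y => bif c y.1 then R y else R' y, by fun_prop, fun x n hn => ?_⟩
  rw [Polynomial.eval_add] at hn
  cases hx : c x <;> simp only [hx, cond_true, cond_false]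
  · exact h' x n (by omega)
  · exact h x n (by omega)

theorem Sharp.rsum {F : α × ℕ → ℕ} {n : α → ℕ} (h : Sharp F) (hn : PolyT.Poly n) :
    Sharp fun x => ∑ i ∈ range (n x), F (x, i) := by
  refine (Sharp.ssum (u := fun x => len (n x)) (F := fun y => bif ltB (ofBits y.2) (n y.1) then
    F (y.1, ofBits y.2) else 0) (Sharp.cond (by fun_prop) (h.comp (by fun_prop))
      (Sharp.poly (by fun_prop))) (by fun_prop)).congr fun x => ?_
  rw [sum_ofBits _ fun i => bif ltB i (n x) then F (x, i) else 0]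
  simp only [Bool.cond_eq_ite, ltB_iff]
  rw [← sum_filter]
  congr 1
  have := lt_two_pow_enc (n x)
  ext i; simp only [mem_filter, mem_range, len]; omega

theorem Sharp.add {F G : α → ℕ} (h : Sharp F) (h' : Sharp G) : Sharp fun x => F x + G x :=
  (Sharp.rsum (n := fun _ => 2) (F := fun y => bif eqB y.2 0 then F y.1 else G y.1)
    (Sharp.cond (by fun_prop) (h.comp (by fun_prop)) (h'.comp (by fun_prop)))
    (by fun_prop)).congr fun x => by simp [sum_range_succ, Bool.cond_eq_ite]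

theorem Sharp.le {F : α → ℕ} (h : Sharp F) :
    ∃ p : Polynomial ℕ, ∀ x, F x ≤ 2 ^ p.eval (len x) := by
  obtain ⟨p, R, -, h⟩ := h
  refine ⟨p, fun x => ?_⟩
  rw [h x _ le_rfl, ← card_filter, ← card_strs]
  exact card_filter_le _ _

end sharp

end Pool.Agent.MP_c00c90_lc

end MrgPart0

-- ======== part 1: formerly Pool.Agent.MP_c00c90_lc.NT
section MrgPart1

/-!
Binomial coefficients modulo a prime as sums over the residues, and the resulting expression of
a multiple of a beta value modulo one as a sum of fractions with small denominators.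
-/

set_option autoImplicit false

namespace Pool.Agent.MP_c00c90_lc

open Finset

/-- The sum that represents `a.choose b` modulo a prime `m`. -/
def bs (m a b : ℕ) : ℤ := ∑ x ∈ range m, -((1 + (x : ℤ)) ^ a * (x : ℤ) ^ (m - 1 - b))

theorem sum_range_zmod (l : ℕ) [NeZero l] (c : ℕ) (g : ZMod l → ZMod l) :
    ∑ x ∈ range (l * c), g (x : ZMod l) = c * ∑ y : ZMod l, g y := by
  have h1 : ∀ s : ℕ, ∑ x ∈ range l, g ((l * s + x : ℕ) : ZMod l) = ∑ y : ZMod l, g y := by
    intro s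
    refine Finset.sum_bij (fun x _ => (x : ZMod l)) (fun _ _ => mem_univ _) ?_ ?_ ?_
    · intro a ha b hb h
      have := congrArg ZMod.val h
      rwa [ZMod.val_cast_of_lt (mem_range.1 ha), ZMod.val_cast_of_lt (mem_range.1 hb)] at this
    · intro y _
      exact ⟨y.val, mem_range.2 (ZMod.val_lt y), ZMod.natCast_zmod_val y⟩
    · intro a _
      simp
  induction c with
  | zero => simp
  | succ c ih => rw [Nat.mul_succ, sum_range_add, ih, h1]; push_cast; ring

theorem bs_cast {l m : ℕ} [NeZero l] (h : l ∣ m) (a b : ℕ) :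
    ((bs m a b : ℤ) : ZMod l) =
      ((m / l : ℕ) : ZMod l) * ∑ y : ZMod l, -((1 + y) ^ a * y ^ (m - 1 - b)) := by
  obtain ⟨c, rfl⟩ := h
  rw [Nat.mul_div_cancel_left _ (Nat.pos_of_ne_zero (NeZero.ne l)), ← sum_range_zmod, bs]
  push_cast
  rfl

theorem sum_pow_zmod (l : ℕ) [Fact l.Prime] {e : ℕ} (he : 0 < e) :
    ∑ y : ZMod l, y ^ e = if l - 1 ∣ e then -1 else 0 := by
  have h := FiniteField.sum_pow_units (ZMod l) e
  rw [ZMod.card] at h
  rw [← h]
  have h2 : ∑ y : ZMod l, y ^ e = ∑ y ∈ univ.erase (0 : ZMod l), y ^ e := by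
    exact (Finset.sum_erase (f := fun y : ZMod l => y ^ e) _ (zero_pow he.ne')).symm
  rw [h2]
  symm
  refine Finset.sum_bij (fun x _ => (x : ZMod l)) (fun x _ => by simp) ?_ ?_ ?_
  · intro a _ b _ h
    exact Units.ext h
  · intro y hy
    exact ⟨Units.mk0 y (ne_of_mem_erase hy), mem_univ _, rfl⟩
  · intro a _
    simp

theorem sum_binom_zmod (l : ℕ) [Fact l.Prime] {a b e : ℕ} (he : 0 < e) (hd : l - 1 ∣ e + b)
    (hb : b < l - 1) (ha : a < b + (l - 1)) :
    ∑ y : ZMod l, -((1 + y) ^ a * y ^ e) = (a.choose b : ZMod l) := by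
  have h1 : ∀ y : ZMod l, -((1 + y) ^ a * y ^ e) =
      ∑ i ∈ range (a + 1), -((a.choose i : ZMod l) * y ^ (i + e)) := by
    intro y
    rw [add_comm 1 y, add_pow, sum_mul, ← sum_neg_distrib]
    refine sum_congr rfl fun i _ => ?_
    rw [pow_add]; ring
  simp_rw [h1]
  rw [sum_comm]
  have h2 : ∀ i ∈ range (a + 1), ∑ y : ZMod l, -((a.choose i : ZMod l) * y ^ (i + e)) =
      if i = b then (a.choose b : ZMod l) else 0 := by
    intro i hi
    rw [sum_neg_distrib, ← mul_sum, sum_pow_zmod l (by omega)]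
    by_cases hib : i = b
    · subst hib
      rw [if_pos (by rwa [add_comm]), if_pos rfl]; ring
    · rw [if_neg hib, if_neg, mul_zero, neg_zero]
      intro h
      rw [mem_range] at hi
      rcases lt_or_gt_of_ne hib with h3 | h3
      · have := Nat.le_of_dvd (by omega) (Nat.dvd_sub hd h)
        omega
      · have := Nat.le_of_dvd (by omega) (Nat.dvd_sub h hd)
        omega
  rw [sum_congr rfl h2, sum_ite_eq']
  split_ifs with h
  · rfl
  · rw [mem_range] at h
    rw [Nat.choose_eq_zero_of_lt (by omega)]; simp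

theorem bs_good {l m a b : ℕ} (hl : l.Prime) (h : l ∣ m) (hm : b + 1 < m) (hd : l - 1 ∣ m - 1)
    (hb : b < l - 1) (ha : a < b + (l - 1)) :
    ((bs m a b : ℤ) : ZMod l) = ((m / l : ℕ) : ZMod l) * (a.choose b : ZMod l) := by
  have := Fact.mk hl
  rw [bs_cast h, sum_binom_zmod l (by omega) (by rwa [Nat.sub_add_cancel (by omega)]) hb ha]

theorem bs_zero {l m : ℕ} (hl : l.Prime) (h : l ∣ m) (hm : 1 < m) (hd : ¬l - 1 ∣ m - 1) :
    (l : ℤ) ∣ bs m 0 0 := by
  have := Fact.mk hl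
  rw [← ZMod.intCast_zmod_eq_zero_iff_dvd, bs_cast h]
  simp only [pow_zero, one_mul, Nat.sub_zero, sum_neg_distrib]
  rw [sum_pow_zmod l (by omega), if_neg hd]; simp

theorem bs_sq {l m : ℕ} (hl : l.Prime) (h : l ^ 2 ∣ m) (a b : ℕ) : (l : ℤ) ∣ bs m a b := by
  have := Fact.mk hl
  rw [← ZMod.intCast_zmod_eq_zero_iff_dvd, bs_cast (dvd_trans (dvd_pow_self l two_ne_zero) h)]
  obtain ⟨c, rfl⟩ := h
  rw [pow_two, mul_assoc, Nat.mul_div_cancel_left _ hl.pos]
  simp

theorem pow_dvd_prod {R : Type} [CommMonoid R] (l : R) (r : List R) (h : ∀ x ∈ r, l ∣ x) :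
    l ^ r.length ∣ r.prod := by
  induction r with
  | nil => simp
  | cons x r ih =>
    rw [List.length_cons, List.prod_cons, pow_succ']
    exact mul_dvd_mul (h x (by simp)) (ih fun y hy => h y (by simp [hy]))

/-- The list of exponent pairs. -/
def fs (ns : List ℕ) (D j : ℕ) : List (ℕ × ℕ) := (0, 0) :: (D, j) :: ns.map fun n => (2 * n, n)

/-- The product of the sums. -/
def tt (ns : List ℕ) (D j m : ℕ) : ℤ := 6 * ((fs ns D j).map fun p => bs m p.1 p.2).prod

/-- The integer that clears the small primes. -/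
def ww (ns : List ℕ) : ℕ := 6 * (ns.map fun n => (2 * n).choose n).prod

/-- The properties of the list of central binomial indices. -/
structure Good (k : ℕ) (ns : List ℕ) : Prop where
  le : ∀ n ∈ ns, n ≤ 2 ^ k + 1
  count : ∀ i ≤ k, 2 * (k + 1 - i) ≤ ns.count (2 ^ i + 1)

theorem tt_prime {k : ℕ} {ns : List ℕ} (hg : Good k ns) {D j p : ℕ} (hp : p.Prime)
    (hK : 2 ^ k + 2 < p) (hD : D ≤ 2 ^ k) (hj : j ≤ 2 ^ k) :
    ((tt ns D j p : ℤ) : ZMod p) = (ww ns : ZMod p) * (D.choose j : ZMod p) := by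
  have h1 : ∀ a b, b ≤ 2 ^ k + 1 → a ≤ b + 2 ^ k + 1 →
      ((bs p a b : ℤ) : ZMod p) = (a.choose b : ZMod p) := by
    intro a b hb ha
    rw [bs_good hp dvd_rfl (by omega) dvd_rfl (by omega) (by omega), Nat.div_self hp.pos]; simp
  have h2 : ∀ r : List ℕ, (∀ n ∈ r, n ≤ 2 ^ k + 1) →
      ((((r.map fun n => (2 * n, n)).map fun q => bs p q.1 q.2).prod : ℤ) : ZMod p) =
        (((r.map fun n => (2 * n).choose n).prod : ℕ) : ZMod p) := by
    intro r hr
    induction r with
    | nil => simp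
    | cons n r ih =>
      have := hr n (by simp)
      simp only [List.map_cons, List.prod_cons, Int.cast_mul, Nat.cast_mul]
      rw [ih fun x hx => hr x (by simp [hx]), h1 _ _ this (by omega)]
  simp only [tt, fs, ww, List.map_cons, List.prod_cons, Int.cast_mul, Nat.cast_mul]
  rw [h2 ns hg.le, h1 0 0 (by omega) (by omega), h1 D j (by omega) (by omega)]
  push_cast
  simp only [Nat.choose_self, Nat.cast_one]
  ring

theorem exists_block {k l : ℕ} (h5 : 5 ≤ l) (hl : l ≤ 2 ^ k + 2) :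
    ∃ i, 1 ≤ i ∧ i ≤ k ∧ 2 ^ i + 3 ≤ l ∧ l ≤ 2 * (2 ^ i + 1) := by
  refine ⟨Nat.log 2 (l - 3), ?_, ?_, ?_, ?_⟩
  · exact Nat.le_log_of_pow_le (by norm_num) (by omega)
  · exact (Nat.log_lt_of_lt_pow (by omega) (by omega : l - 3 < 2 ^ k)).le
  · have := Nat.pow_log_le_self 2 (by omega : l - 3 ≠ 0)
    omega
  · have := Nat.lt_pow_succ_log_self (by norm_num : 1 < 2) (l - 3)
    rw [Nat.succ_eq_add_one, pow_succ] at this
    omega

theorem prime_cases {l : ℕ} (hl : l.Prime) : l = 2 ∨ l = 3 ∨ 5 ≤ l := by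
  have := hl.two_le
  by_cases h : l = 4
  · subst h; norm_num at hl
  omega

theorem X_lt (k : ℕ) : 2 ^ k * 2 ^ k + 2 ^ k ≤ 2 ^ (2 * k + 1) := by
  have : 1 ≤ 2 ^ k := Nat.one_le_two_pow
  rw [pow_succ, two_mul, pow_add]; nlinarith

theorem pow_count_dvd {R : Type} [CommMonoid R] (f : ℕ → R) (n : ℕ) (r : List ℕ) :
    f n ^ r.count n ∣ (r.map f).prod := by
  induction r with
  | nil => simp
  | cons x r ih =>
    rw [List.map_cons, List.prod_cons]
    by_cases h : x = n
    · subst h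
      rw [List.count_cons_self, pow_succ']
      exact mul_dvd_mul_left _ ih
    · rw [List.count_cons_of_ne h]
      exact ih.mul_left _

theorem exp_le {k l v i : ℕ} (hi : 2 ^ i < l) (h : l ^ v ≤ 2 ^ k * 2 ^ k + 2 ^ k) :
    i * v ≤ 2 * k := by
  rcases Nat.eq_zero_or_pos v with rfl | hv
  · simp
  have h1 : 2 ^ (i * v) < 2 ^ (2 * k + 1) := by
    rw [pow_mul]
    exact (Nat.pow_lt_pow_left hi hv.ne').trans_le (h.trans (X_lt k))
  have := (Nat.pow_lt_pow_iff_right (by norm_num)).1 h1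
  omega

theorem exp_le' {k l v : ℕ} (hl : 2 ≤ l) (h : l ^ v ≤ 2 ^ k * 2 ^ k + 2 ^ k) : v ≤ 2 * k + 1 :=
  (Nat.pow_le_pow_iff_right (by norm_num)).1
    ((Nat.pow_le_pow_left hl v).trans (h.trans (X_lt k)))

theorem tt_comp {k : ℕ} {ns : List ℕ} (hg : Good k ns) {D j m : ℕ} (hm : ¬m.Prime)
    (hK : 2 ^ k + 2 < m) (hX : m ≤ 2 ^ k * 2 ^ k + 2 ^ k) : (m : ℤ) ∣ tt ns D j m := by
  rw [Int.natCast_dvd, Nat.dvd_iff_prime_pow_dvd_dvd]
  intro l v hl hv
  rw [← Int.natCast_dvd, Nat.cast_pow]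
  have hK1 : 1 ≤ 2 ^ k := Nat.one_le_two_pow
  rcases Nat.eq_zero_or_pos v with rfl | hv0
  · simp
  have hlm : l ∣ m := (dvd_pow_self l hv0.ne').trans hv
  by_cases h2 : l ^ 2 ∣ m
  · have h3 := pow_dvd_prod (l : ℤ) ((fs ns D j).map fun p => bs m p.1 p.2) (by
      intro x hx
      obtain ⟨p, -, rfl⟩ := List.mem_map.1 hx
      exact bs_sq hl h2 _ _)
    have h4 := exp_le' hl.two_le ((Nat.le_of_dvd (by omega) hv).trans hX)
    have h5 := (hg.count 0 (Nat.zero_le _)).trans List.count_le_length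
    refine ((pow_dvd_pow _ ?_).trans h3).mul_left _
    simp only [fs, List.length_map, List.length_cons]
    omega
  have hv1 : v = 1 := by
    by_contra h
    exact h2 ((pow_dvd_pow l (by omega)).trans hv)
  subst hv1
  rw [pow_one]
  by_cases hd : l - 1 ∣ m - 1
  swap
  · refine Dvd.dvd.mul_left ((bs_zero hl hlm (by omega) hd).trans (List.dvd_prod ?_)) _
    simp [fs]
  have hl2 := hl.two_le
  have hlK : l ≤ 2 ^ k + 2 := by
    by_contra hc
    obtain ⟨u, rfl⟩ := hlm
    have hu1 : u ≠ 1 := by rintro rfl; exact hm (by simpa using hl)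
    have hu0 : u ≠ 0 := by rintro rfl; simp at hK
    have h4 : l - 1 ∣ u - 1 := by
      have e : l * u - 1 = (l - 1) * u + (u - 1) := by
        obtain ⟨l', rfl⟩ : ∃ l', l = l' + 1 := ⟨l - 1, by omega⟩
        rw [Nat.add_sub_cancel, add_mul, one_mul]; omega
      rw [e] at hd
      exact (Nat.dvd_add_right (dvd_mul_right _ _)).1 hd
    have h5 := Nat.le_of_dvd (by omega) h4
    have h6 : (2 ^ k + 3) * (2 ^ k + 3) ≤ l * u := Nat.mul_le_mul (by omega) (by omega)
    nlinarith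
  rcases prime_cases hl with rfl | rfl | h5
  · exact Dvd.dvd.mul_right (by norm_num) _
  · exact Dvd.dvd.mul_right (by norm_num) _
  obtain ⟨i, -, hik, h6, h7⟩ := exists_block h5 hlK
  have h8 : 2 ^ i + 1 ∈ ns := List.count_pos_iff.1 (lt_of_lt_of_le (by omega) (hg.count i hik))
  have h9 : (l : ℤ) ∣ bs m (2 * (2 ^ i + 1)) (2 ^ i + 1) := by
    have := Fact.mk hl
    rw [← ZMod.intCast_zmod_eq_zero_iff_dvd, bs_good hl hlm (by omega) hd (by omega) (by omega),
      (ZMod.natCast_eq_zero_iff _ _).2 (hl.dvd_choose (by omega) (by omega) h7), mul_zero]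
  refine Dvd.dvd.mul_left (h9.trans (List.dvd_prod ?_)) _
  simp only [fs, List.map_cons, List.mem_cons, List.mem_map]
  exact Or.inr (Or.inr ⟨(2 * (2 ^ i + 1), 2 ^ i + 1), ⟨_, h8, rfl⟩, rfl⟩)

theorem ww_dvd {k : ℕ} {ns : List ℕ} (hg : Good k ns) {u : ℕ} (hu : 0 < u)
    (hX : u ≤ 2 ^ k * 2 ^ k + 2 ^ k) (hs : ∀ l, l.Prime → l ∣ u → l ≤ 2 ^ k + 2) : u ∣ ww ns := by
  rw [Nat.dvd_iff_prime_pow_dvd_dvd]
  intro l v hl hv
  rcases Nat.eq_zero_or_pos v with rfl | hv0
  · simp
  have hle := (Nat.le_of_dvd hu hv).trans hX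
  have key : ∀ i ≤ k, l ∣ (2 * (2 ^ i + 1)).choose (2 ^ i + 1) → v ≤ 2 * (k + 1 - i) →
      l ^ v ∣ ww ns := fun i hi h1 h2 =>
    (((pow_dvd_pow l (h2.trans (hg.count i hi))).trans (pow_dvd_pow_of_dvd h1 _)).trans
      (pow_count_dvd (fun n => (2 * n).choose n) _ ns)).mul_left _
  have h4 := exp_le' hl.two_le hle
  rcases prime_cases hl with rfl | rfl | h5
  · exact key 0 (Nat.zero_le _) (by decide) (by omega)
  · exact key 0 (Nat.zero_le _) (by decide) (by omega)
  obtain ⟨i, hi1, hik, h6, h7⟩ :=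
    exists_block h5 (hs l hl ((dvd_pow_self l hv0.ne').trans hv))
  refine key i hik (hl.dvd_choose (by omega) (by omega) h7) ?_
  have h8 := exp_le (i := i) (by omega) hle
  obtain ⟨a, rfl⟩ := Nat.exists_eq_add_of_le hik
  obtain ⟨b, rfl⟩ := Nat.exists_eq_add_of_le hi1
  have : 1 + b + a + 1 - (1 + b) = a + 1 := by omega
  rw [this]
  by_contra hc
  have : (1 + b) * (2 * (a + 1) + 1) ≤ (1 + b) * v := Nat.mul_le_mul_left _ (by omega)
  nlinarith

/-- Being an integer. -/
def IsInt (y : ℚ) : Prop := ∃ n : ℤ, y = n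

theorem IsInt.add {x y : ℚ} (hx : IsInt x) (hy : IsInt y) : IsInt (x + y) := by
  obtain ⟨a, rfl⟩ := hx
  obtain ⟨b, rfl⟩ := hy
  exact ⟨a + b, by push_cast; rfl⟩

theorem IsInt.sum {ι : Type} (s : Finset ι) (f : ι → ℚ) (h : ∀ i ∈ s, IsInt (f i)) :
    IsInt (∑ i ∈ s, f i) :=
  Finset.sum_induction f IsInt (fun _ _ => IsInt.add) ⟨0, by simp⟩ h

theorem IsInt.of_dvd {a : ℤ} {m : ℕ} (h : (m : ℤ) ∣ a) : IsInt ((a : ℚ) / m) := by
  obtain ⟨c, rfl⟩ := h
  rcases Nat.eq_zero_or_pos m with rfl | hm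
  · exact ⟨0, by simp⟩
  · exact ⟨c, by push_cast; field_simp⟩

theorem crt_frac {p q : ℕ} (hp : 0 < p) (hq : 0 < q) (h : p.Coprime q) {a b u : ℤ}
    (ha : (p : ℤ) ∣ a * q - u) (hb : (q : ℤ) ∣ b * p - u) :
    IsInt ((a : ℚ) / p + (b : ℚ) / q - (u : ℚ) / (p * q)) := by
  have h1 : ((p * q : ℕ) : ℤ) ∣ a * q + b * p - u := by
    rw [Nat.cast_mul]
    refine (Nat.isCoprime_iff_coprime.2 h).mul_dvd ?_ ?_
    · have : a * q + b * p - u = (a * q - u) + p * b := by ring
      rw [this]; exact ha.add (dvd_mul_right _ _)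
    · have : a * q + b * p - u = (b * p - u) + q * a := by ring
      rw [this]; exact hb.add (dvd_mul_right _ _)
  have h2 := IsInt.of_dvd h1
  convert h2 using 1
  push_cast
  field_simp

/-- The numerator of the term with modulus `m`. -/
def num (ns : List ℕ) (D j q Z : ℕ) (s : ℤ) (m : ℕ) : ℤ :=
  s * ((q * Z / m : ℕ) : ℤ) ^ (m - 2) * tt ns D j m

theorem num_prime {k : ℕ} {ns : List ℕ} (hg : Good k ns) {D j q Z p c e : ℕ} {s u : ℤ}
    (hp : p.Prime) (hK : 2 ^ k + 2 < p) (hD : D ≤ 2 ^ k) (hj : j ≤ 2 ^ k)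
    (hZ : q * Z = p * (c * e)) (hc : ¬p ∣ c * e) (hu : u * e = s * (ww ns * D.choose j : ℕ)) :
    (p : ℤ) ∣ num ns D j q Z s p * c - u := by
  have := Fact.mk hp
  rw [← ZMod.intCast_zmod_eq_zero_iff_dvd, num, hZ, Nat.mul_div_cancel_left _ hp.pos]
  have h1 : ((c * e : ℕ) : ZMod p) ≠ 0 := fun h => hc ((ZMod.natCast_eq_zero_iff _ _).1 h)
  have h2 := ZMod.pow_card_sub_one_eq_one h1
  have h3 := congrArg (Int.cast : ℤ → ZMod p) hu
  rw [show p - 1 = p - 2 + 1 by have := hp.two_le; omega, pow_succ] at h2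
  push_cast at h2 h3 ⊢
  rw [tt_prime hg hp hK hD hj]
  linear_combination (-((c : ZMod p) * e) ^ (p - 2) * c) * h3 + (u : ZMod p) * h2

theorem per_j {k : ℕ} {ns : List ℕ} (hg : Good k ns) {D j q Z B : ℕ} (s : ℤ) (hD : D ≤ 2 ^ k)
    (hj : j ≤ 2 ^ k) (hZ0 : 0 < Z) (hZ : Z ≤ 2 ^ k * 2 ^ k + 2 ^ k) (hB : Z < B)
    (hq : q = 1 ∨ (q.Prime ∧ 2 ^ k * 2 ^ k + 2 ^ k < q)) (hk : 1 ≤ k) :
    IsInt (∑ m ∈ range B, (if 2 ^ k + 2 < m ∧ m ∣ Z then (num ns D j q Z s m : ℚ) / m else 0) +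
      (num ns D j q Z s q : ℚ) / q - (s * (ww ns * D.choose j : ℕ) : ℚ) / (q * Z)) := by
  have hK2 : 2 ≤ 2 ^ k := by
    calc 2 = 2 ^ 1 := rfl
      _ ≤ 2 ^ k := Nat.pow_le_pow_right (by norm_num) hk
  have hq0 : 0 < q := by
    rcases hq with rfl | h
    · norm_num
    · exact h.1.pos
  -- the large prime factor, or one
  obtain ⟨p, e, rfl, hp, he, hoth⟩ : ∃ p e, Z = p * e ∧ (p = 1 ∨ (p.Prime ∧ 2 ^ k + 2 < p)) ∧
      (∀ l, l.Prime → l ∣ e → l ≤ 2 ^ k + 2) ∧
      ∀ l, l.Prime → 2 ^ k + 2 < l → l ∣ Z → l = p := by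
    by_cases h : ∃ p, p.Prime ∧ 2 ^ k + 2 < p ∧ p ∣ Z
    · obtain ⟨p, hp, hK, e, rfl⟩ := h
      have he : ∀ l, l.Prime → l ∣ e → l ≤ 2 ^ k + 2 := by
        intro l _ hle
        have := Nat.le_of_dvd (Nat.pos_of_mul_pos_left hZ0) hle
        by_contra hc
        have h6 : (2 ^ k + 3) * (2 ^ k + 3) ≤ p * e := Nat.mul_le_mul (by omega) (by omega)
        nlinarith
      refine ⟨p, e, rfl, Or.inr ⟨hp, hK⟩, he, fun l hl hlK hd => ?_⟩
      rcases (hl.dvd_mul).1 hd with h | h
      · exact (Nat.prime_dvd_prime_iff_eq hl hp).1 h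
      · have := he l hl h; omega
    · refine ⟨1, Z, (one_mul _).symm, Or.inl rfl, fun l hl hd => ?_, fun l hl hK hd => ?_⟩
      · by_contra hc
        exact h ⟨l, hl, by omega, hd⟩
      · exact absurd ⟨l, hl, hK, hd⟩ h
  have hp0 : 0 < p := Nat.pos_of_mul_pos_right hZ0
  have he0 : 0 < e := Nat.pos_of_mul_pos_left hZ0
  have hpZ : p ≤ p * e := Nat.le_mul_of_pos_right _ he0
  have heZ : e ≤ p * e := Nat.le_mul_of_pos_left _ hp0
  obtain ⟨w, hw⟩ := ww_dvd hg he0 (heZ.trans hZ) he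
  have hu : s * (w * D.choose j : ℕ) * e = s * (ww ns * D.choose j : ℕ) := by
    rw [hw]; push_cast; ring
  have hcop : p.Coprime q := by
    rcases hq with rfl | ⟨hq, hqX⟩
    · simp
    · exact ((Nat.coprime_of_lt_prime hp0.ne' (by omega) hq)).symm
  have h1 : (p : ℤ) ∣ num ns D j q (p * e) s p * q - s * (w * D.choose j : ℕ) := by
    rcases hp with rfl | ⟨hp, hK⟩
    · simp
    refine num_prime hg hp hK hD hj (by ring) (fun h => ?_) hu
    rcases hp.dvd_mul.1 h with h | h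
    · exact hp.one_lt.ne' (hcop.eq_one_of_dvd h)
    · have := he p hp h; omega
  have h2 : (q : ℤ) ∣ num ns D j q (p * e) s q * p - s * (w * D.choose j : ℕ) := by
    rcases hq with rfl | ⟨hq, hqX⟩
    · simp
    refine num_prime hg hq (by nlinarith) hD hj rfl (fun h => ?_) hu
    have := Nat.le_of_dvd hZ0 h
    omega
  have h3 := crt_frac hp0 hq0 hcop h1 h2
  have h4 : IsInt (∑ m ∈ range B, ((if 2 ^ k + 2 < m ∧ m ∣ p * e then
      (num ns D j q (p * e) s m : ℚ) / m else 0) -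
        if m = p then (num ns D j q (p * e) s p : ℚ) / p else 0)) := by
    refine IsInt.sum _ _ fun m _ => ?_
    by_cases hm : m = p
    · subst hm
      rw [if_pos rfl]
      rcases hp with rfl | ⟨hp, hK⟩
      · rw [if_neg (by omega)]
        exact ⟨-num ns D j q (1 * e) s 1, by simp⟩
      · rw [if_pos ⟨hK, dvd_mul_right _ _⟩]
        exact ⟨0, by simp⟩
    · rw [if_neg hm, sub_zero]
      split_ifs with h
      · exact IsInt.of_dvd ((tt_comp hg (fun hmp => hm (hoth m hmp h.1 h.2)) h.1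
          ((Nat.le_of_dvd hZ0 h.2).trans hZ)).mul_left _)
      · exact ⟨0, by simp⟩
  rw [sum_sub_distrib, sum_ite_eq', if_pos (mem_range.2 (by omega))] at h4
  convert h4.add h3 using 1
  rw [hw]
  push_cast
  field_simp
  ring

/-- The beta values. -/
def tau (z : ℕ) : ℕ → ℚ
  | 0 => 1 / z
  | D + 1 => tau z D * ((D + 1) / (z + D + 1))

theorem tau_pos {z : ℕ} (hz : 0 < z) (D : ℕ) : 0 < tau z D := by
  induction D with
  | zero => rw [tau]; positivity
  | succ D ih => rw [tau]; positivity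

theorem tau_shift {z : ℕ} (hz : 0 < z) (D : ℕ) : tau (z + 1) D = tau z D * (z / (z + D + 1)) := by
  induction D with
  | zero => simp only [tau]; push_cast; field_simp; ring
  | succ D ih => simp only [tau, ih]; push_cast; field_simp; ring

theorem tau_eq (D : ℕ) : ∀ {z : ℕ}, 0 < z →
    ∑ j ∈ range (D + 1), (-1) ^ j * (D.choose j : ℚ) / ((z + j : ℕ) : ℚ) = tau z D := by
  induction D with
  | zero => intro z _; simp [tau]
  | succ D ih =>
    intro z hz
    have h1 := Finset.sum_choose_succ_mul (R := ℚ)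
      (fun j _ => (-1) ^ j / ((z + j : ℕ) : ℚ)) D
    have h2 : tau z (D + 1) = tau z D - tau (z + 1) D := by
      rw [tau_shift hz, tau]; field_simp; ring
    rw [h2, ← ih hz, ← ih (Nat.succ_pos z), sub_eq_add_neg, ← sum_neg_distrib]
    convert h1 using 2
    · ring
    · exact sum_congr rfl fun j _ => by ring
    · refine sum_congr rfl fun j _ => ?_
      rw [show z + (j + 1) = z.succ + j by omega]; ring

theorem main_identity {k : ℕ} {ns : List ℕ} (hg : Good k ns) {D q B : ℕ} (N : ℤ) (hD : D ≤ 2 ^ k)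
    (hB : 2 ^ k * 2 ^ k + 2 ^ k < B) (hq : q = 1 ∨ (q.Prime ∧ 2 ^ k * 2 ^ k + 2 ^ k < q))
    (hk : 1 ≤ k) :
    IsInt (∑ j ∈ range (D + 1), (∑ m ∈ range B, (if 2 ^ k + 2 < m ∧ m ∣ 2 ^ k * 2 ^ k + j then
        (num ns D j q (2 ^ k * 2 ^ k + j) ((-1) ^ j * N) m : ℚ) / m else 0) +
        (num ns D j q (2 ^ k * 2 ^ k + j) ((-1) ^ j * N) q : ℚ) / q) -
      N * ww ns * tau (2 ^ k * 2 ^ k) D / q) := by
  rw [← tau_eq D (by positivity), mul_sum, sum_div, ← sum_sub_distrib]
  refine IsInt.sum _ _ fun j hj => ?_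
  rw [mem_range] at hj
  convert per_j hg (q := q) (B := B) (Z := 2 ^ k * 2 ^ k + j) ((-1) ^ j * N) hD (by omega : j ≤ 2 ^ k)
    (by positivity) (by omega) (by omega) hq hk using 2
  push_cast
  rw [mul_div_assoc', div_div, mul_comm (q : ℚ)]
  congr 1
  ring

end Pool.Agent.MP_c00c90_lc

end MrgPart1

-- ======== part 2: formerly Pool.Agent.MP_c00c90_lc.Alg
section MrgPart2

/-!
The counting function that approximates the fractional parts of the scaled beta values.
-/

set_option autoImplicit false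

namespace Pool.Agent.MP_c00c90_lc

open Pool.Agent.PolyT Pool.Agent.H82 N487b59b3 Finset

/-- One block of indices. -/
def blk (k n : ℕ) : List ℕ := (List.range n).flatMap fun i => [2 ^ min i k + 1, 2 ^ min i k + 1]

/-- The list of central binomial indices. -/
def nsl (k : ℕ) : List ℕ := (List.range (k + 1)).flatMap fun a => blk k (min (a + 1) (k + 1))

theorem blk_sum (k n : ℕ) : (blk k n).sum ≤ 4 * 2 ^ n := by
  induction n with
  | zero => simp [blk]
  | succ n ih =>
    have h1 : 2 ^ min n k ≤ 2 ^ n := Nat.pow_le_pow_right (by norm_num) (min_le_left _ _)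
    have h2 : 1 ≤ 2 ^ n := Nat.one_le_two_pow
    simp only [blk, List.range_succ, List.flatMap_append, List.sum_append, List.flatMap_cons,
      List.flatMap_nil, List.sum_cons, List.sum_nil, pow_succ] at ih ⊢
    omega

theorem nsl_sum (k : ℕ) : (nsl k).sum ≤ 16 * 2 ^ k := by
  have key : ∀ n, ((List.range n).flatMap fun a => blk k (min (a + 1) (k + 1))).sum ≤
      8 * 2 ^ n := by
    intro n
    induction n with
    | zero => simp
    | succ n ih =>
      have h1 := blk_sum k (min (n + 1) (k + 1))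
      have h2 : 2 ^ min (n + 1) (k + 1) ≤ 2 ^ (n + 1) :=
        Nat.pow_le_pow_right (by norm_num) (min_le_left _ _)
      simp only [List.range_succ, List.flatMap_append, List.sum_append, List.flatMap_cons,
        List.flatMap_nil, List.sum_nil, pow_succ] at ih h2 ⊢
      omega
  have := key (k + 1)
  rw [pow_succ] at this
  unfold nsl; omega

theorem good_nsl (k : ℕ) : Good k (nsl k) := by
  constructor
  · intro n hn
    simp only [nsl, blk, List.mem_flatMap, List.mem_cons, List.not_mem_nil, or_false,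
      or_self] at hn
    obtain ⟨a, -, i, -, rfl⟩ := hn
    exact Nat.add_le_add_right (Nat.pow_le_pow_right (by norm_num) (min_le_right _ _)) 1
  · intro i hi
    have key : ∀ n, 2 * (n - i) ≤
        ((List.range n).flatMap fun a => blk k (min (a + 1) (k + 1))).count (2 ^ i + 1) := by
      intro n
      induction n with
      | zero => simp
      | succ n ih =>
        simp only [List.range_succ, List.flatMap_append, List.count_append, List.flatMap_cons,
          List.flatMap_nil, List.count_nil] at ih ⊢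
        rcases lt_or_ge n i with h | h
        · omega
        have h1 : List.Sublist [2 ^ i + 1, 2 ^ i + 1] (blk k (min (n + 1) (k + 1))) :=
          List.sublist_flatten_of_mem (List.mem_map.2
            ⟨i, List.mem_range.2 (by omega), by rw [min_eq_left hi]⟩)
        have h2 := h1.count_le (2 ^ i + 1)
        simp only [List.count_cons_self, List.count_nil] at h2
        omega
    exact key (k + 1)

theorem ww_bound (ns : List ℕ) : 0 < ww ns ∧ ww ns ≤ 6 * 2 ^ (2 * ns.sum) := by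
  unfold ww
  induction ns with
  | nil => simp
  | cons n r ih =>
    have h1 := Nat.choose_le_two_pow (2 * n) n
    have h2 := Nat.choose_pos (show n ≤ 2 * n by omega)
    simp only [List.map_cons, List.prod_cons, List.sum_cons, mul_add, pow_add]
    constructor <;> nlinarith [ih.1, ih.2]

/-- The number of factors. -/
def sS (k : ℕ) : ℕ := (nsl k).length + 2

/-- The bound for the moduli. -/
def bB (k : ℕ) : ℕ := 2 ^ (3 * k)

/-- The bound for the number of terms. -/
def gG (k : ℕ) : ℕ := (2 ^ k + 1) * ((bB k + 1) * bB k ^ sS k)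

/-- The scale. -/
def mM (k : ℕ) : ℕ := 64 * bB k * gG k

/-- One term of the expansion, reduced modulo `m`. -/
def trm (k a D j q m y : ℕ) : ℕ :=
  6 * a * powMod (m - 1) j m * powMod (q * (2 ^ k * 2 ^ k + j) / m) (m - 2) m *
    ((List.range (sS k)).map fun i => (m - 1) *
      powMod (1 + y / m ^ min i (sS k) % m) ((fs (nsl k) D j).getD i (0, 0)).1 m *
      powMod (y / m ^ min i (sS k) % m) (m - 1 - ((fs (nsl k) D j).getD i (0, 0)).2) m).prod % m

/-- The sum of the scaled terms with modulus `m`. -/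
def ee (k a D j q m : ℕ) : ℕ := ∑ y ∈ range (m ^ sS k), mM k * trm k a D j q m y / m

/-- The approximation of the fractional part. -/
def cc (k : ℕ) (g : ℕ → ℕ) (D q : ℕ) : ℕ :=
  ∑ j ∈ range (D + 1), (∑ m ∈ range (bB k),
    (bif ltB (2 ^ k + 2) m && eqB ((2 ^ k * 2 ^ k + j) % m) 0 then ee k (g m) D j q m else 0) +
      ee k (g q) D j q q)

/-- The number of proper divisors. -/
def dd (q : ℕ) : ℕ := ∑ d ∈ range q, bif ltB 1 d && eqB (q % d) 0 then 1 else 0

/-- The number of random candidates. -/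
def tT (k : ℕ) : ℕ := 6 * k * (3 * k)

/-- The candidates: one, and the digits of `y`. -/
def cand (k y i : ℕ) : ℕ := (1 + bB k * y) / bB k ^ min i (tT k) % bB k

/-- The bound for one count. -/
def hH (k : ℕ) : ℕ := mM k * gG k + 1

/-- All counts packed in one number. -/
def ff (k : ℕ) (g : ℕ → ℕ) (D y : ℕ) : ℕ :=
  ∑ i ∈ range (tT k + 1), (hH k * bB k) ^ min i (tT k) *
    (cc k g D (cand k y i) + hH k * dd (cand k y i))

/-- Unpacking. -/
def dig (k C i : ℕ) : ℕ := C / (hH k * bB k) ^ min i (tT k) % (hH k * bB k)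

/-- The test that `c / M` is close to an integer. -/
def near (M c q : ℕ) : Bool := !ltB M (6 * q * (c % M)) || !ltB M (6 * q * (M - c % M))

/-- The test for a small value. -/
def small (k y C : ℕ) : Bool := (List.range (tT k + 1)).all fun i =>
  !(eqB (cand k y i) 1 || ltB (2 ^ k * 2 ^ k + 2 ^ k) (cand k y i) && eqB (dig k C i / hH k) 0) ||
    near (mM k) (dig k C i % hH k) (cand k y i)

/-- The test for a positive value. -/
def posi (k C : ℕ) : Bool :=
  ltB 0 (dig k C 0 % hH k % mM k) && !ltB (mM k) (3 * (dig k C 0 % hH k % mM k))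

section poly

variable {α : Type} [N487b59b3 α] {k : α → ℕ}

@[fun_prop] theorem p_nsl (hk : Un k) : PolyT.Poly fun x => nsl (k x) := by
  unfold nsl blk; fun_prop

@[fun_prop] theorem u_sS (hk : Un k) : Un fun x => sS (k x) := by unfold sS; fun_prop

@[fun_prop] theorem u_tT (hk : Un k) : Un fun x => tT (k x) := by unfold tT; fun_prop

@[fun_prop] theorem p_bB (hk : Un k) : PolyT.Poly fun x => bB (k x) := by unfold bB; fun_prop

@[fun_prop] theorem p_gG (hk : Un k) : PolyT.Poly fun x => gG (k x) := by unfold gG; fun_prop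

@[fun_prop] theorem p_mM (hk : Un k) : PolyT.Poly fun x => mM (k x) := by unfold mM; fun_prop

@[fun_prop] theorem p_hH (hk : Un k) : PolyT.Poly fun x => hH (k x) := by unfold hH; fun_prop

@[fun_prop] theorem p_cand (hk : Un k) {y i : α → ℕ} (hy : PolyT.Poly y) (hi : PolyT.Poly i) :
    PolyT.Poly fun x => cand (k x) (y x) (i x) := by unfold cand; fun_prop

@[fun_prop] theorem p_dig (hk : Un k) {y i : α → ℕ} (hy : PolyT.Poly y) (hi : PolyT.Poly i) :
    PolyT.Poly fun x => dig (k x) (y x) (i x) := by unfold dig; fun_prop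

@[fun_prop] theorem p_small (hk : Un k) {y C : α → ℕ} (hy : PolyT.Poly y) (hC : PolyT.Poly C) :
    PolyT.Poly fun x => small (k x) (y x) (C x) := by unfold small near; fun_prop

@[fun_prop] theorem p_posi (hk : Un k) {C : α → ℕ} (hC : PolyT.Poly C) :
    PolyT.Poly fun x => posi (k x) (C x) := by unfold posi; fun_prop

theorem s_ee (hk : Un k) {a D j q m : α → ℕ} (ha : PolyT.Poly a) (hD : PolyT.Poly D)
    (hj : PolyT.Poly j) (hq : PolyT.Poly q) (hm : PolyT.Poly m) :
    Sharp fun x => ee (k x) (a x) (D x) (j x) (q x) (m x) :=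
  Sharp.rsum (F := fun p => mM (k p.1) * trm (k p.1) (a p.1) (D p.1) (j p.1) (q p.1) (m p.1) p.2 /
    m p.1) (Sharp.poly (by unfold trm fs; fun_prop)) (by fun_prop)

theorem s_cc (hk : Un k) {g : α × ℕ → ℕ} (hg : PolyT.Poly g) {D q : α → ℕ} (hD : PolyT.Poly D)
    (hq : PolyT.Poly q) : Sharp fun x => cc (k x) (fun m => g (x, m)) (D x) (q x) :=
  Sharp.rsum (F := fun p : α × ℕ => ∑ m ∈ range (bB (k p.1)),
    (bif ltB (2 ^ k p.1 + 2) m && eqB ((2 ^ k p.1 * 2 ^ k p.1 + p.2) % m) 0 then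
      ee (k p.1) (g (p.1, m)) (D p.1) p.2 (q p.1) m else 0) +
      ee (k p.1) (g (p.1, q p.1)) (D p.1) p.2 (q p.1) (q p.1))
    ((Sharp.rsum (F := fun p : (α × ℕ) × ℕ =>
      bif ltB (2 ^ k p.1.1 + 2) p.2 && eqB ((2 ^ k p.1.1 * 2 ^ k p.1.1 + p.1.2) % p.2) 0 then
        ee (k p.1.1) (g (p.1.1, p.2)) (D p.1.1) p.1.2 (q p.1.1) p.2 else 0)
      (Sharp.cond (by fun_prop) (s_ee (by fun_prop) (by fun_prop) (by fun_prop) (by fun_prop)
        (by fun_prop) (by fun_prop)) (Sharp.poly (by fun_prop))) (by fun_prop)).add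
      (s_ee (by fun_prop) (by fun_prop) (by fun_prop) (by fun_prop) (by fun_prop) (by fun_prop)))
    (by fun_prop)

theorem s_ff (hk : Un k) {g : α × ℕ → ℕ} (hg : PolyT.Poly g) {D y : α → ℕ} (hD : PolyT.Poly D)
    (hy : PolyT.Poly y) : Sharp fun x => ff (k x) (fun m => g (x, m)) (D x) (y x) :=
  Sharp.rsum (F := fun p : α × ℕ => (hH (k p.1) * bB (k p.1)) ^ min p.2 (tT (k p.1)) *
    (cc (k p.1) (fun m => g (p.1, m)) (D p.1) (cand (k p.1) (y p.1) p.2) +
      hH (k p.1) * dd (cand (k p.1) (y p.1) p.2)))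
    ((Sharp.poly (by fun_prop)).mul
      ((s_cc (g := fun r : (α × ℕ) × ℕ => g (r.1.1, r.2)) (by fun_prop) (by fun_prop)
        (by fun_prop) (by fun_prop)).add ((Sharp.poly (by fun_prop)).mul
          (Sharp.rsum (F := fun r : (α × ℕ) × ℕ =>
            bif ltB 1 r.2 && eqB (cand (k r.1.1) (y r.1.1) r.1.2 % r.2) 0 then 1 else 0)
            (Sharp.poly (by fun_prop)) (by fun_prop)))))
    (Un.poly (by fun_prop))

end poly

theorem trm_sum {k a D j q m : ℕ} {N : ℤ} (hm : 0 < m) (ha : (a : ZMod m) = N) :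
    (m : ℤ) ∣ (∑ y ∈ range (m ^ sS k), trm k a D j q m y : ℕ) -
      num (nsl k) D j q (2 ^ k * 2 ^ k + j) ((-1) ^ j * N) m := by
  rw [← ZMod.intCast_zmod_eq_zero_iff_dvd, Int.cast_sub, sub_eq_zero, Int.cast_natCast,
    Nat.cast_sum]
  have h1 : ((m - 1 : ℕ) : ZMod m) = -1 := by rw [Nat.cast_sub hm]; simp
  have h2 := sum_digits (R := ZMod m) m (sS k) fun i x =>
    -((1 + (x : ZMod m)) ^ ((fs (nsl k) D j).getD i (0, 0)).1 *
      (x : ZMod m) ^ (m - 1 - ((fs (nsl k) D j).getD i (0, 0)).2))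
  have h3 : (fs (nsl k) D j).map (fun p => bs m p.1 p.2) = (List.range (sS k)).map fun i =>
      bs m ((fs (nsl k) D j).getD i (0, 0)).1 ((fs (nsl k) D j).getD i (0, 0)).2 := by
    refine List.ext_getElem (by simp [fs, sS]) fun i hi _ => ?_
    rw [List.length_map] at hi
    simp [List.getD_eq_getElem?_getD, List.getElem?_eq_getElem hi]
  have h4 : ∀ f : ℕ → ZMod m, ((List.range (sS k)).map f).prod = ∏ i ∈ range (sS k), f i :=
    fun _ => rfl
  rw [num, tt, h3]
  simp only [bs, Int.cast_mul, Int.cast_list_prod, List.map_map, h4,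
    Function.comp_apply, Int.cast_sum, Int.cast_neg, Int.cast_pow, Int.cast_add, Int.cast_one,
    Int.cast_natCast, Int.cast_ofNat]
  rw [← h2, mul_sum, mul_sum]
  refine sum_congr rfl fun y _ => ?_
  simp only [trm, ZMod.natCast_mod, Nat.cast_mul, Nat.cast_list_prod, List.map_map, h4,
    Function.comp_apply, powMod_cast _ _ hm, h1, ha, Nat.cast_add, Nat.cast_one, Nat.cast_ofNat]
  rw [prod_congr rfl fun i hi => by rw [min_eq_left (mem_range.1 hi).le, neg_one_mul, neg_mul]]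
  ring

/-- `c` approximates `M` times `x` modulo `M` from below, with error at most `δ`. -/
def Apx (M c : ℕ) (x : ℚ) (δ : ℕ) : Prop :=
  ∃ (n : ℤ) (e : ℚ), 0 ≤ e ∧ e ≤ δ ∧ (c : ℚ) = M * (x + n) - e

theorem Apx.add {M c c' δ δ' : ℕ} {x x' : ℚ} (h : Apx M c x δ) (h' : Apx M c' x' δ') :
    Apx M (c + c') (x + x') (δ + δ') := by
  obtain ⟨n, e, h1, h2, h3⟩ := h
  obtain ⟨n', e', h1', h2', h3'⟩ := h'
  exact ⟨n + n', e + e', by positivity, by push_cast; linarith, by push_cast; linarith⟩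

theorem Apx.sum {M δ : ℕ} (n : ℕ) {c : ℕ → ℕ} {x : ℕ → ℚ} (h : ∀ i < n, Apx M (c i) (x i) δ) :
    Apx M (∑ i ∈ range n, c i) (∑ i ∈ range n, x i) (n * δ) := by
  induction n with
  | zero => exact ⟨0, 0, by simp⟩
  | succ n ih =>
    rw [sum_range_succ, sum_range_succ, Nat.succ_mul]
    exact (ih fun i hi => h i (by omega)).add (h n (by omega))

theorem Apx.mono {M c δ δ' : ℕ} {x x' : ℚ} (h : Apx M c x δ) (hx : IsInt (x - x'))
    (hδ : δ ≤ δ') : Apx M c x' δ' := by
  obtain ⟨n, e, h1, h2, h3⟩ := h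
  obtain ⟨r, hr⟩ := hx
  exact ⟨n + r, e, h1, h2.trans (by exact_mod_cast hδ), by
    rw [h3]; push_cast; rw [← hr]; ring⟩

theorem apx_div (M t : ℕ) {m : ℕ} (hm : 0 < m) : Apx M (M * t / m) (t / m) 1 := by
  have h1 := Nat.div_add_mod (M * t) m
  have h2 := Nat.mod_lt (M * t) hm
  have h3 : (0 : ℚ) < m := by exact_mod_cast hm
  refine ⟨0, (M * t % m : ℕ) / m, by positivity, ?_, ?_⟩
  · rw [div_le_iff₀ h3]; exact_mod_cast (by omega)
  · have : (m : ℚ) * (M * t / m : ℕ) + (M * t % m : ℕ) = M * t := by exact_mod_cast h1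
    field_simp
    push_cast at this ⊢
    linarith

theorem apx_ee {k a D j q m : ℕ} {N : ℤ} (hm : 0 < m) (hB : m ≤ bB k) (ha : (a : ZMod m) = N) :
    Apx (mM k) (ee k a D j q m)
      (num (nsl k) D j q (2 ^ k * 2 ^ k + j) ((-1) ^ j * N) m / m) (bB k ^ sS k) := by
  refine (Apx.sum _ fun y _ => apx_div _ _ hm).mono ?_
    (by simpa using Nat.pow_le_pow_left hB _)
  convert IsInt.of_dvd (trm_sum (k := k) (D := D) (j := j) (q := q) hm ha) using 1
  push_cast
  rw [sub_div, sum_div]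

theorem ee_le {k a D j q m : ℕ} (hB : m ≤ bB k) : ee k a D j q m ≤ bB k ^ sS k * mM k := by
  refine (sum_le_card_nsmul _ _ (mM k) fun y _ => ?_).trans
    (by simpa using Nat.mul_le_mul_right _ (Nat.pow_le_pow_left hB _))
  rcases Nat.eq_zero_or_pos m with rfl | hm
  · simp
  · exact Nat.div_le_of_le_mul (by
      rw [mul_comm]; exact Nat.mul_le_mul_right _ (Nat.mod_lt _ hm).le)

theorem cc_lt {k D q : ℕ} (g : ℕ → ℕ) (hD : D ≤ 2 ^ k) (hq : q ≤ bB k) : cc k g D q < hH k := by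
  refine Nat.lt_succ_of_le ((sum_le_card_nsmul _ _ ((bB k + 1) * (bB k ^ sS k * mM k))
    fun j _ => ?_).trans ?_)
  · rw [add_mul, one_mul]
    refine Nat.add_le_add ((sum_le_card_nsmul _ _ (bB k ^ sS k * mM k) fun m hm => ?_).trans
      (by simp)) (ee_le hq)
    rw [Bool.cond_eq_ite]
    split_ifs
    · exact ee_le (mem_range.1 hm).le
    · exact Nat.zero_le _
  · rw [card_range, smul_eq_mul, gG]
    calc _ ≤ (2 ^ k + 1) * ((bB k + 1) * (bB k ^ sS k * mM k)) := by gcongr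
      _ = _ := by ring

/-- The scaled beta values. -/
def xx (k : ℕ) (N : ℤ) (D : ℕ) : ℚ := N * ww (nsl k) * tau (2 ^ k * 2 ^ k) D

theorem X_lt_bB {k : ℕ} (hk : 1 ≤ k) : 2 ^ k * 2 ^ k + 2 ^ k < bB k := by
  have h : 2 ^ 1 ≤ 2 ^ k := Nat.pow_le_pow_right (by norm_num) hk
  rw [bB, show 3 * k = k + k + k by ring, pow_add, pow_add]
  nlinarith

theorem apx_cc {k D q : ℕ} {g : ℕ → ℕ} {N : ℤ} (hk : 1 ≤ k)
    (hg : ∀ m, 0 < m → (g m : ZMod m) = N) (hD : D ≤ 2 ^ k) (hB : q ≤ bB k)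
    (hq : q = 1 ∨ (q.Prime ∧ 2 ^ k * 2 ^ k + 2 ^ k < q)) :
    Apx (mM k) (cc k g D q) (xx k N D / q) (gG k) := by
  have hq0 : 0 < q := by rcases hq with rfl | h <;> omega
  refine (Apx.sum _ fun j _ => (Apx.sum (δ := bB k ^ sS k) _ fun m hm => ?_).add
    (apx_ee hq0 hB (hg q hq0))).mono (main_identity (good_nsl k) N hD (X_lt_bB hk) hq hk) ?_
  · rw [Bool.cond_eq_ite]
    simp only [Bool.and_eq_true, ltB_iff, eqB_iff, ← Nat.dvd_iff_mod_eq_zero]
    split_ifs with h
    · exact apx_ee (by omega) hm.le (hg m (by omega))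
    · exact ⟨0, 0, by simp⟩
  · rw [gG, add_mul (bB k), one_mul]
    gcongr

end Pool.Agent.MP_c00c90_lc

end MrgPart2

-- ======== part 3: formerly Pool.Agent.MP_c00c90_lc.Test
section MrgPart3

/-!
Correctness of the tests and the error probability.
-/

set_option autoImplicit false

namespace Pool.Agent.MP_c00c90_lc

open Pool.Agent.PolyT Pool.Agent.H82 N487b59b3 Finset

theorem mod_cases {M c : ℕ} {n : ℤ} {y : ℚ} (h : (c : ℚ) = M * n + y) (h1 : -(M : ℚ) < y)
    (h2 : y < M) : (0 ≤ y ∧ ((c % M : ℕ) : ℚ) = y) ∨ (y < 0 ∧ ((c % M : ℕ) : ℚ) = M + y) := by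
  have hM : (0 : ℚ) < M := by linarith
  have h3 : ((c % M : ℕ) : ℚ) < M := by exact_mod_cast Nat.mod_lt c (by exact_mod_cast hM)
  have h4 : (M : ℚ) * (c / M : ℕ) + (c % M : ℕ) = c := by exact_mod_cast Nat.div_add_mod c M
  have h5 : (0 : ℚ) ≤ (c % M : ℕ) := by positivity
  have h6 : ((c % M : ℕ) : ℚ) = M * ((n - (c / M : ℕ) : ℤ) : ℚ) + y := by
    rw [Int.cast_sub, Int.cast_natCast]; linarith
  generalize n - (c / M : ℕ) = d at h6
  have h7 : (-1 : ℚ) < d := by nlinarith
  have h8 : (d : ℚ) < 2 := by nlinarith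
  have h9 : d = 0 ∨ d = 1 := by
    have : -1 < d := by exact_mod_cast h7
    have : d < 2 := by exact_mod_cast h8
    omega
  rcases h9 with rfl | rfl
  · left; constructor <;> · push_cast at h6 ⊢; linarith
  · right; constructor <;> · push_cast at h6 ⊢; linarith

theorem near_iff {M c q : ℕ} (hM : 0 < M) : near M c q = true ↔
    (6 * q * ((c % M : ℕ) : ℚ) ≤ M ∨ 6 * q * (M - ((c % M : ℕ) : ℚ)) ≤ M) := by
  rw [← Nat.cast_sub (Nat.mod_lt c hM).le]
  simp only [near, Bool.or_eq_true, Bool.not_eq_true', ltB_false_iff]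
  norm_cast

theorem near_of {M c q G : ℕ} {x : ℚ} (h : Apx M c (x / q) G) (hq : 0 < q) (hM : 0 < M)
    (hG : 64 * q * G ≤ M) (hx : |x| ≤ 1 / 8) : near M c q = true := by
  obtain ⟨n, e, h1, h2, h3⟩ := h
  have hq' : (1 : ℚ) ≤ q := by exact_mod_cast hq
  have hM' : (0 : ℚ) < M := by exact_mod_cast hM
  have hG' : (64 * q * G : ℚ) ≤ M := by exact_mod_cast hG
  rw [abs_le] at hx
  have e1 : q * (M * (x / q) - e) = M * x - q * e := by field_simp
  have e2 : 64 * (q * e) ≤ M := by nlinarith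
  have e3 : 0 ≤ q * e := by positivity
  rw [near_iff hM]
  generalize hy : M * (x / q) - e = y at e1
  have e4 : q * y ≤ M / 8 := by nlinarith
  have e5 : -(9 * M / 64 : ℚ) ≤ q * y := by nlinarith
  rcases mod_cases (M := M) (c := c) (y := y) (n := n) (by rw [h3, ← hy]; ring) (by nlinarith)
    (by nlinarith) with ⟨-, h5⟩ | ⟨-, h5⟩
  · left; rw [h5]; linarith
  · right; rw [h5]; linarith

theorem of_near {M c q G : ℕ} {x : ℚ} (h : Apx M c (x / q) G) (hq : 0 < q) (hM : 0 < M)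
    (hG : 64 * q * G ≤ M) (hn : near M c q = true) : ∃ n : ℤ, |x - q * n| ≤ 1 / 4 := by
  obtain ⟨n, e, h1, h2, h3⟩ := h
  have hq' : (1 : ℚ) ≤ q := by exact_mod_cast hq
  have hM' : (0 : ℚ) < M := by exact_mod_cast hM
  have hG' : (64 * q * G : ℚ) ≤ M := by exact_mod_cast hG
  have e2 : 64 * (q * e) ≤ M := by nlinarith
  have e3 : 0 ≤ q * e := by positivity
  have h4 : (M : ℚ) * (c / M : ℕ) + (c % M : ℕ) = c := by exact_mod_cast Nat.div_add_mod c M
  have h5 : (0 : ℚ) ≤ q * (c % M : ℕ) := by positivity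
  have h6 : (0 : ℚ) ≤ q * (M - (c % M : ℕ)) :=
    mul_nonneg (by positivity) (sub_nonneg.2 (by exact_mod_cast (Nat.mod_lt c hM).le))
  have e1 : M * (x - q * ((c / M : ℕ) - n)) = q * (c % M : ℕ) + q * e := by
    have : (q : ℚ) * (M * (x / q)) = M * x := by field_simp
    linear_combination (-q) * h3 - q * h4 - this
  rcases (near_iff hM).1 hn with h | h
  · refine ⟨(c / M : ℕ) - n, ?_⟩
    rw [Int.cast_sub, Int.cast_natCast, abs_le]
    constructor <;> nlinarith
  · refine ⟨(c / M : ℕ) - n + 1, ?_⟩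
    rw [Int.cast_add, Int.cast_sub, Int.cast_natCast, Int.cast_one, abs_le]
    constructor <;> nlinarith

theorem pos_spec {M c G : ℕ} {x : ℚ} (h : Apx M c x G) (hM : 0 < M) (hG : 64 * G ≤ M)
    (hx : |x| ≤ 1 / 4) : (0 < c % M ∧ 3 * (c % M) ≤ M → 0 < x) ∧
      (G < M * x → 0 < c % M ∧ 3 * (c % M) ≤ M) := by
  obtain ⟨n, e, h1, h2, h3⟩ := h
  have hM' : (0 : ℚ) < M := by exact_mod_cast hM
  have hG' : (64 * G : ℚ) ≤ M := by exact_mod_cast hG
  rw [abs_le] at hx
  have e4 : M * x ≤ M / 4 := by nlinarith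
  have e5 : -(M / 4 : ℚ) ≤ M * x := by nlinarith
  have e6 : (0 < c % M ∧ 3 * (c % M) ≤ M) ↔
      ((0 : ℚ) < (c % M : ℕ) ∧ 3 * ((c % M : ℕ) : ℚ) ≤ M) := by norm_cast
  rw [e6]
  rcases mod_cases (M := M) (c := c) (y := M * x - e) (n := n) (by rw [h3]; ring) (by linarith)
    (by linarith) with ⟨h4, h5⟩ | ⟨h4, h5⟩ <;> rw [h5]
  · exact ⟨fun h => (mul_pos_iff_of_pos_left hM').1 (by linarith [h.1]),
      fun h => ⟨by linarith, by linarith⟩⟩
  · exact ⟨fun h => by linarith [h.2], fun h => by linarith⟩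

theorem dd_le (q : ℕ) : dd q ≤ q := by
  refine (sum_le_card_nsmul _ _ 1 fun d _ => ?_).trans (by simp)
  cases ltB 1 d && eqB (q % d) 0 <;> simp

theorem dd_eq_zero {q : ℕ} (hq : 2 ≤ q) : dd q = 0 ↔ q.Prime := by
  simp only [dd, sum_eq_zero_iff, mem_range, Bool.cond_eq_ite, Bool.and_eq_true, ltB_iff, eqB_iff,
    ite_eq_right_iff, one_ne_zero, imp_false, Nat.prime_def_lt', hq, true_and,
    Nat.dvd_iff_mod_eq_zero]
  exact ⟨fun h m h1 h2 h3 => h m h2 ⟨h1, h3⟩, fun h m h1 h2 => h m h2.1 h1 h2.2⟩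

theorem bB_pos (k : ℕ) : 0 < bB k := by unfold bB; positivity

theorem gG_pos (k : ℕ) : 0 < gG k := by have := bB_pos k; unfold gG; positivity

theorem mM_pos (k : ℕ) : 0 < mM k := by
  have := bB_pos k; have := gG_pos k; unfold mM; positivity

theorem cand_lt (k y i : ℕ) : cand k y i < bB k := Nat.mod_lt _ (bB_pos k)

theorem cand_zero {k : ℕ} (hk : 1 ≤ k) (y : ℕ) : cand k y 0 = 1 := by
  have := X_lt_bB hk
  have : 1 ≤ 2 ^ k := Nat.one_le_two_pow
  simp [cand, Nat.mod_eq_of_lt (show 1 < bB k by omega)]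

theorem cand_succ {k i : ℕ} (hk : 1 ≤ k) (y : ℕ) (hi : i < tT k) :
    cand k y (i + 1) = y / bB k ^ i % bB k := by
  have := X_lt_bB hk
  have : 1 ≤ 2 ^ k := Nat.one_le_two_pow
  rw [cand, min_eq_left hi, pow_succ', ← Nat.div_div_eq_div_mul,
    Nat.add_mul_div_left _ _ (bB_pos k), Nat.div_eq_of_lt (show 1 < bB k by omega), zero_add]

theorem dig_ff {k D i : ℕ} (g : ℕ → ℕ) (y : ℕ) (hD : D ≤ 2 ^ k) (hi : i < tT k + 1) :
    dig k (ff k g D y) i % hH k = cc k g D (cand k y i) ∧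
      dig k (ff k g D y) i / hH k = dd (cand k y i) := by
  have h1 := fun i => cc_lt g hD (cand_lt k y i).le
  have h2 : dig k (ff k g D y) i = cc k g D (cand k y i) + hH k * dd (cand k y i) := by
    rw [dig, ff, min_eq_left (by omega), sum_congr rfl fun i hi => by
      rw [min_eq_left (Nat.le_of_lt_succ (mem_range.1 hi))]]
    refine digit_sum (f := fun i => cc k g D (cand k y i) + hH k * dd (cand k y i))
      (fun i _ => ?_) hi
    have := Nat.mul_le_mul_left (hH k) ((dd_le _).trans_lt (cand_lt k y i))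
    have := h1 i
    rw [Nat.mul_succ] at *
    omega
  rw [h2, Nat.add_mul_mod_self_left, Nat.mod_eq_of_lt (h1 i),
    Nat.add_mul_div_left _ _ (Nat.zero_lt_of_lt (h1 i)), Nat.div_eq_of_lt (h1 i), zero_add]
  exact ⟨rfl, rfl⟩

theorem small_iff {k D : ℕ} (g : ℕ → ℕ) (y : ℕ) (hD : D ≤ 2 ^ k) :
    small k y (ff k g D y) = true ↔ ∀ i < tT k + 1, (cand k y i = 1 ∨ ((cand k y i).Prime ∧
      2 ^ k * 2 ^ k + 2 ^ k < cand k y i)) →
        near (mM k) (cc k g D (cand k y i)) (cand k y i) = true := by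
  simp only [small, List.all_eq_true, List.mem_range]
  refine forall₂_congr fun i hi => ?_
  rw [(dig_ff g y hD hi).1, (dig_ff g y hD hi).2, Bool.or_eq_true, Bool.not_eq_true',
    ← Bool.not_eq_true, ← imp_iff_not_or, Bool.or_eq_true, Bool.and_eq_true, eqB_iff, eqB_iff,
    ltB_iff, and_comm]
  refine imp_congr_left (or_congr_right (and_congr_left fun h => dd_eq_zero ?_))
  have : 1 ≤ 2 ^ k := Nat.one_le_two_pow
  omega

/-- The random candidates contain a prime that detects a large value. -/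
def Gd (k : ℕ) (x : ℚ) (y : ℕ) : Prop := ∀ n : ℤ, n ≠ 0 → |x - n| ≤ 1 / 4 → ∃ i < tT k,
  (y / bB k ^ i % bB k).Prime ∧ 2 ^ k * 2 ^ k + 2 ^ k < y / bB k ^ i % bB k ∧
    ¬((y / bB k ^ i % bB k : ℕ) : ℤ) ∣ n

theorem int_eq {x : ℚ} {a b : ℤ} (ha : |x - a| ≤ 1 / 4) (hb : |x - b| ≤ 1 / 4) : a = b := by
  rw [abs_le] at ha hb
  have h1 : (a : ℚ) < b + 1 := by linarith
  have h2 : (b : ℚ) < a + 1 := by linarith
  have : a < b + 1 := by exact_mod_cast h1
  have : b < a + 1 := by exact_mod_cast h2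
  omega

section spec

variable {k D y : ℕ} {g : ℕ → ℕ} {N : ℤ}

theorem small_of (hk : 1 ≤ k) (hg : ∀ m, 0 < m → (g m : ZMod m) = N) (hD : D ≤ 2 ^ k)
    (hx : |xx k N D| ≤ 1 / 8) : small k y (ff k g D y) = true :=
  (small_iff g y hD).2 fun i _ hq => near_of (apx_cc hk hg hD (cand_lt k y i).le hq)
    (by rcases hq with h | h <;> omega) (mM_pos k)
    (by rw [mM]; gcongr; exact (cand_lt k y i).le) hx

theorem of_small (hk : 1 ≤ k) (hg : ∀ m, 0 < m → (g m : ZMod m) = N) (hD : D ≤ 2 ^ k)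
    (hy : Gd k (xx k N D) y) (h : small k y (ff k g D y) = true) : |xx k N D| ≤ 1 / 4 := by
  have key : ∀ i < tT k + 1, (cand k y i = 1 ∨ ((cand k y i).Prime ∧
      2 ^ k * 2 ^ k + 2 ^ k < cand k y i)) → ∃ n : ℤ, |xx k N D - cand k y i * n| ≤ 1 / 4 :=
    fun i hi hq => of_near (apx_cc hk hg hD (cand_lt k y i).le hq)
      (by rcases hq with h | h <;> omega) (mM_pos k)
      (by rw [mM]; gcongr; exact (cand_lt k y i).le) ((small_iff g y hD).1 h i hi hq)
  obtain ⟨n, hn⟩ := key 0 (by omega) (Or.inl (cand_zero hk y))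
  rw [cand_zero hk, Nat.cast_one, one_mul] at hn
  by_cases h0 : n = 0
  · simpa [h0] using hn
  obtain ⟨i, hi, h1, h2, h3⟩ := hy n h0 hn
  rw [← cand_succ hk y hi] at h1 h2 h3
  obtain ⟨n', hn'⟩ := key (i + 1) (by omega) (Or.inr ⟨h1, h2⟩)
  exact absurd ⟨n', int_eq hn (by exact_mod_cast hn')⟩ h3

theorem posi_spec (hk : 1 ≤ k) (hg : ∀ m, 0 < m → (g m : ZMod m) = N) (hD : D ≤ 2 ^ k)
    (hx : |xx k N D| ≤ 1 / 4) : (posi k (ff k g D y) = true → 0 < xx k N D) ∧
      (1 < 64 * bB k * xx k N D → posi k (ff k g D y) = true) := by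
  have h1 := apx_cc hk hg hD (bB_pos k) (Or.inl rfl)
  rw [Nat.cast_one, div_one] at h1
  have h2 := pos_spec h1 (mM_pos k) (by rw [mM]; have := bB_pos k; nlinarith) hx
  simp only [posi, (dig_ff g y hD (Nat.add_one_pos _)).1, cand_zero hk, Bool.and_eq_true, ltB_iff,
    Bool.not_eq_true', ltB_false_iff]
  refine ⟨h2.1, fun h => h2.2 ?_⟩
  have : (0 : ℚ) < gG k := by exact_mod_cast gG_pos k
  rw [mM]; push_cast; nlinarith

theorem xx_pos : 0 < xx k N D ↔ 0 < N := by
  have h1 : (0 : ℚ) < ww (nsl k) := by exact_mod_cast (ww_bound _).1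
  rw [xx, mul_pos_iff_of_pos_right (tau_pos (by positivity) D), mul_pos_iff_of_pos_right h1,
    Int.cast_pos]

theorem xx_zero (hN : 0 < N) : 1 ≤ xx k N 0 := by
  have h1 : 2 ^ k * 2 ^ k ≤ ww (nsl k) := Nat.le_of_dvd (ww_bound _).1
    (ww_dvd (good_nsl k) (by positivity) (Nat.le_add_right _ _) fun l hl h => by
      exact (Nat.le_of_dvd two_pos (hl.dvd_of_dvd_pow (pow_add 2 k k ▸ h))).trans
        (Nat.le_add_left _ _))
  have h2 : ((2 ^ k * 2 ^ k : ℕ) : ℚ) ≤ ww (nsl k) := by exact_mod_cast h1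
  have h3 : (1 : ℚ) ≤ N := by exact_mod_cast hN
  rw [xx, tau, mul_one_div, one_le_div (by positivity)]
  nlinarith [show (0 : ℚ) ≤ ww (nsl k) by positivity]

theorem xx_succ (hk : 1 ≤ k) (hD : D < 2 ^ k) (h : 1 / 8 < xx k N D) :
    1 < 64 * bB k * xx k N (D + 1) := by
  have h1 : ((2 ^ k * 2 ^ k : ℕ) + D + 1 : ℚ) ≤ bB k := by
    have := X_lt_bB hk
    exact_mod_cast (by omega)
  have h2 : (1 : ℚ) ≤ bB k * ((D + 1) / ((2 ^ k * 2 ^ k : ℕ) + D + 1)) := by
    rw [mul_div_assoc', one_le_div (by positivity)]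
    nlinarith [show (0 : ℚ) ≤ bB k * D by positivity]
  have h3 : xx k N (D + 1) = xx k N D * ((D + 1) / ((2 ^ k * 2 ^ k : ℕ) + D + 1)) := by
    rw [xx, xx, tau]; ring
  rw [h3]
  nlinarith

theorem tau_le {K D : ℕ} (hK : 0 < K) (hD : D ≤ K) : tau (K * K) D ≤ 1 / (K : ℚ) ^ D := by
  have h0 : (1 : ℚ) ≤ K := by exact_mod_cast hK
  induction D with
  | zero => rw [tau, pow_zero]; gcongr; exact_mod_cast Nat.mul_pos hK hK
  | succ D ih =>
    have h1 : (D + 1 : ℚ) ≤ K := by exact_mod_cast hD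
    rw [tau, pow_succ, ← one_div_mul_one_div]
    refine mul_le_mul (ih (by omega)) ?_ (by positivity) (by positivity)
    rw [div_le_div_iff₀ (by positivity) (by positivity)]
    push_cast
    nlinarith [show (0 : ℚ) ≤ D by positivity]

theorem xx_le (hN : |N| < 2 ^ 2 ^ k) (hD : D ≤ 2 ^ k) :
    |xx k N D| ≤ 2 ^ (33 * 2 ^ k + 3) / ((2 : ℚ) ^ k) ^ D := by
  have h1 : ww (nsl k) ≤ 2 ^ (32 * 2 ^ k + 3) := by
    have h := Nat.pow_le_pow_right two_pos (show 2 * (nsl k).sum ≤ 32 * 2 ^ k by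
      have := nsl_sum k; omega)
    have := (ww_bound (nsl k)).2
    rw [pow_add]; omega
  have h2 : (ww (nsl k) : ℚ) ≤ 2 ^ (32 * 2 ^ k + 3) := by exact_mod_cast h1
  have h3 : |(N : ℚ)| ≤ 2 ^ 2 ^ k := by exact_mod_cast hN.le
  have h4 := tau_le (K := 2 ^ k) (by positivity) hD
  rw [xx, abs_mul, abs_mul, Nat.abs_cast, abs_of_pos (tau_pos (by positivity) D),
    show 33 * 2 ^ k + 3 = 2 ^ k + (32 * 2 ^ k + 3) by ring, pow_add, div_eq_mul_one_div]
  have := tau_pos (z := 2 ^ k * 2 ^ k) (by positivity) D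
  push_cast at h4
  gcongr

theorem xx_last (hk : 40 ≤ k) (hN : |N| < 2 ^ 2 ^ k) : |xx k N (2 ^ k)| ≤ 1 / 8 := by
  refine (xx_le hN le_rfl).trans ?_
  rw [div_le_div_iff₀ (by positivity) (by norm_num), one_mul, ← pow_mul,
    show (8 : ℚ) = 2 ^ 3 by norm_num, ← pow_add]
  have : 1 ≤ 2 ^ k := Nat.one_le_two_pow
  exact pow_le_pow_right₀ (by norm_num) (by nlinarith)

theorem pi_bound (hk : 1 ≤ k) : bB k ≤ 3 * k * (#((range (bB k)).filter Nat.Prime) + 3) := by
  have h1 := Chebyshev.two_pow_le_mul_lcmUpto (bB k)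
  have hB := bB_pos k
  have h2 : Nat.lcmUpto (bB k) ≤ bB k ^ #(Nat.primesLE (bB k)) := by
    rw [Nat.lcmUpto_eq_prod_pow_log]
    exact prod_le_pow_card _ _ _ fun p _ => Nat.pow_log_le_self p hB.ne'
  have h3 : #(Nat.primesLE (bB k)) ≤ #((range (bB k)).filter Nat.Prime) + 1 := by
    rw [Nat.primesLE_eq_filter_range, range_add_one, filter_insert]
    split_ifs
    · exact card_insert_le _ _
    · omega
  have h4 : 2 ≤ bB k := by
    have := X_lt_bB hk
    have : 1 ≤ 2 ^ k := Nat.one_le_two_pow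
    omega
  have h5 : 2 ^ bB k ≤ bB k ^ (#((range (bB k)).filter Nat.Prime) + 3) := by
    refine h1.trans ((Nat.mul_le_mul (show bB k + 1 ≤ bB k ^ 2 by nlinarith)
      (h2.trans (Nat.pow_le_pow_right hB h3))).trans_eq ?_)
    ring
  conv_rhs at h5 => rw [bB, ← pow_mul, ← bB]
  exact (Nat.pow_le_pow_iff_right (by norm_num)).1 h5

theorem half_pow {n : ℕ} (hn : 0 < n) : (1 - 1 / (n : ℝ)) ^ n ≤ 1 / 2 :=
  (Real.one_sub_div_pow_le_exp_neg (by exact_mod_cast hn)).trans Real.exp_neg_one_lt_half.le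

theorem lin_le {k : ℕ} (hk : 40 ≤ k) : 40 * k ≤ 2 ^ k := by
  induction k, hk using Nat.le_induction with
  | base => norm_num
  | succ k hk ih => rw [pow_succ]; omega

theorem bad_count (hk : 40 ≤ k) {n : ℕ} (h0 : n ≠ 0) (hn : n ≤ 2 ^ (33 * 2 ^ k + 4)) :
    6 * k * #((range (bB k)).filter fun q => ¬(q.Prime ∧ 2 ^ k * 2 ^ k + 2 ^ k < q ∧ ¬q ∣ n)) +
      bB k ≤ 6 * k * bB k := by
  have h1 : #n.primeFactors ≤ 33 * 2 ^ k + 4 :=
    (Nat.pow_le_pow_iff_right (by norm_num : 1 < 2)).1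
      ((pow_card_le_prod _ _ 2 fun p hp => (Nat.prime_of_mem_primeFactors hp).two_le).trans
        ((Nat.le_of_dvd (Nat.pos_of_ne_zero h0) (Nat.prod_primeFactors_dvd n)).trans hn))
  have h2 := card_filter_add_card_filter_not (s := range (bB k))
    fun q => q.Prime ∧ 2 ^ k * 2 ^ k + 2 ^ k < q ∧ ¬q ∣ n
  have h3 : (range (bB k)).filter Nat.Prime ⊆ (range (bB k)).filter
      (fun q => q.Prime ∧ 2 ^ k * 2 ^ k + 2 ^ k < q ∧ ¬q ∣ n) ∪
        (range (2 ^ k * 2 ^ k + 2 ^ k + 1) ∪ n.primeFactors) := by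
    intro q hq
    simp only [mem_filter, mem_union, mem_range, Nat.mem_primeFactors] at hq ⊢
    by_cases h : q ∣ n
    · exact Or.inr (Or.inr ⟨hq.2, h, h0⟩)
    · by_cases h' : 2 ^ k * 2 ^ k + 2 ^ k < q
      · exact Or.inl ⟨hq.1, hq.2, h', h⟩
      · exact Or.inr (Or.inl (by omega))
  have h4 := (card_le_card h3).trans ((card_union_le _ _).trans
    (Nat.add_le_add_left (card_union_le _ _) _))
  have h5 := pi_bound (k := k) (by omega)
  have h6 := lin_le hk
  have h7 : bB k = 2 ^ k * 2 ^ k * 2 ^ k := by rw [bB, ← pow_add, ← pow_add]; congr 1; ring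
  rw [card_range] at h2 h4
  generalize #((range (bB k)).filter fun q => ¬(q.Prime ∧ 2 ^ k * 2 ^ k + 2 ^ k < q ∧ ¬q ∣ n)) = b
    at *
  generalize #((range (bB k)).filter fun q => q.Prime ∧ 2 ^ k * 2 ^ k + 2 ^ k < q ∧ ¬q ∣ n) = c
    at *
  generalize #((range (bB k)).filter Nat.Prime) = p at *
  generalize 2 ^ k = K at *
  have h8 : p + 3 ≤ c + 2 * (K * K) := by nlinarith
  have h9 : 3 * k * (p + 3) ≤ 3 * k * (c + 2 * (K * K)) := Nat.mul_le_mul_left _ h8
  have h10 : 12 * k * (K * K) ≤ K * (K * K) := Nat.mul_le_mul_right _ (by omega)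
  rw [← h2]
  nlinarith

open Classical in
theorem prob (hk : 40 ≤ k) {x : ℚ} (hx : |x| ≤ 2 ^ (33 * 2 ^ k + 3)) :
    bB k * ∑ y ∈ range (bB k ^ tT k), (if ¬Gd k x y then 1 else 0) ≤ bB k ^ tT k := by
  by_cases h : ∃ n : ℤ, n ≠ 0 ∧ |x - n| ≤ 1 / 4
  swap
  · rw [sum_eq_zero fun y _ =>
      if_neg (not_not.2 (show Gd k x y from fun n h1 h2 => absurd ⟨n, h1, h2⟩ h))]
    simp
  obtain ⟨n, h0, hn⟩ := h
  have h1 : n.natAbs ≤ 2 ^ (33 * 2 ^ k + 4) := by
    have h2 : (1 : ℚ) ≤ 2 ^ (33 * 2 ^ k + 3) := one_le_pow₀ (by norm_num)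
    have h3 : |(n : ℚ)| ≤ 2 ^ (33 * 2 ^ k + 4) := by
      rw [abs_le] at hx hn ⊢
      rw [pow_succ _ (33 * 2 ^ k + 3)]
      constructor <;> linarith [hx.1, hx.2, hn.1, hn.2]
    have h4 : |n| ≤ 2 ^ (33 * 2 ^ k + 4) := by exact_mod_cast h3
    rw [Int.abs_eq_natAbs] at h4
    exact_mod_cast h4
  have h2 := bad_count hk (Int.natAbs_ne_zero.2 h0) h1
  have h3 := sum_digits (R := ℕ) (bB k) (tT k) fun _ q =>
    if ¬(q.Prime ∧ 2 ^ k * 2 ^ k + 2 ^ k < q ∧ ¬q ∣ n.natAbs) then 1 else 0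
  rw [← card_filter, prod_const, card_range] at h3
  have h4 : ∑ y ∈ range (bB k ^ tT k), (if ¬Gd k x y then 1 else 0) ≤ #((range (bB k)).filter
      fun q => ¬(q.Prime ∧ 2 ^ k * 2 ^ k + 2 ^ k < q ∧ ¬q ∣ n.natAbs)) ^ tT k := by
    rw [← h3]
    refine sum_le_sum fun y _ => ?_
    split_ifs with hy
    · exact Nat.zero_le _
    · refine (prod_eq_one fun i hi => if_pos fun hq => hy fun n' _ hn' => ?_).ge
      exact ⟨i, mem_range.1 hi, hq.1, hq.2.1, by rw [int_eq hn' hn, Int.natCast_dvd]; exact hq.2.2⟩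
  refine (Nat.mul_le_mul_left _ h4).trans ?_
  generalize #((range (bB k)).filter
    fun q => ¬(q.Prime ∧ 2 ^ k * 2 ^ k + 2 ^ k < q ∧ ¬q ∣ n.natAbs)) = b at *
  have hk' : (0 : ℝ) < (6 * k : ℕ) := by exact_mod_cast (by omega)
  have h5 : (b : ℝ) ≤ (1 - 1 / (6 * k : ℕ)) * bB k := by
    have : ((6 * k : ℕ) : ℝ) * b + bB k ≤ (6 * k : ℕ) * bB k := by exact_mod_cast h2
    rw [one_sub_div hk'.ne', div_mul_eq_mul_div, le_div_iff₀ hk']
    linarith
  have h6 : (b : ℝ) ^ (6 * k) ≤ 1 / 2 * bB k ^ (6 * k) :=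
    (pow_le_pow_left₀ (by positivity) h5 _).trans (by
      rw [mul_pow]; exact mul_le_mul_of_nonneg_right (half_pow (by omega)) (by positivity))
  have h7 := pow_le_pow_left₀ (by positivity) h6 (3 * k)
  rw [mul_pow, ← pow_mul, ← pow_mul, ← tT, one_div, inv_pow,
    le_inv_mul_iff₀ (by positivity)] at h7
  rw [bB] at h7 ⊢
  exact_mod_cast h7

end spec

/-- The properties of the two tests that the algorithms use. -/
structure Spec (k : ℕ) (N : ℤ) (S P : ℕ → List Bool → Bool) (G : ℕ → List Bool → Prop) :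
    Prop where
  compl : 0 < N → ∃ D ≤ 2 ^ k, ∀ r, S D r = true ∧ P D r = true
  sound : ∀ D ≤ 2 ^ k, ∀ r, G D r → S D r = true → P D r = true → 0 < N
  last : ∀ r, S (2 ^ k) r = true
  first : 0 < N → ∀ r, G 0 r → S 0 r = false
  step : 0 < N → ∀ D < 2 ^ k, ∀ r, S D r = false → G (D + 1) r → S (D + 1) r = true →
    P (D + 1) r = true
  prob : ∀ D ≤ 2 ^ k, 2 ^ (3 * k) * cnt (3 * k * tT k) (fun r => ¬G D r) ≤ 2 ^ (3 * k * tT k)

theorem spec {k : ℕ} {g : ℕ → ℕ} {N : ℤ} (hk : 40 ≤ k) (hg : ∀ m, 0 < m → (g m : ZMod m) = N)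
    (hN : |N| < 2 ^ 2 ^ k) :
    Spec k N (fun D r => small k (ofBits r) (ff k g D (ofBits r)))
      (fun D r => posi k (ff k g D (ofBits r))) fun D r => Gd k (xx k N D) (ofBits r) := by
  have h1 : 1 ≤ k := by omega
  refine ⟨fun h => ?_, fun D hD r hr hs hp => ?_, fun r => small_of h1 hg le_rfl (xx_last hk hN),
    fun h r hr => ?_, fun h D hD r hs hr hs' => ?_, fun D hD => ?_⟩
  · have hex : ∃ D, |xx k N D| ≤ 1 / 8 := ⟨_, xx_last hk hN⟩
    have h2 := Nat.find_spec hex
    have h3 := Nat.find_min' hex (xx_last hk hN)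
    refine ⟨_, h3, fun r => ⟨small_of h1 hg h3 h2, (posi_spec h1 hg h3 (by linarith)).2 ?_⟩⟩
    obtain ⟨D, hD⟩ : ∃ D, Nat.find hex = D + 1 := Nat.exists_eq_succ_of_ne_zero fun h0 => by
      rw [h0] at h2
      linarith [xx_zero (k := k) h, le_abs_self (xx k N 0)]
    have h4 := Nat.find_min hex (show D < Nat.find hex by omega)
    rw [abs_of_pos (xx_pos.2 h), not_le] at h4
    rw [hD] at h3 ⊢
    exact xx_succ h1 h3 h4
  · exact xx_pos.1 ((posi_spec h1 hg hD (of_small h1 hg hD hr hs)).1 hp)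
  · rw [← Bool.not_eq_true]
    intro hs
    linarith [of_small h1 hg (Nat.zero_le _) hr hs, xx_zero (k := k) h, le_abs_self (xx k N 0)]
  · refine (posi_spec h1 hg hD (of_small h1 hg hD hr hs')).2 (xx_succ h1 hD ?_)
    by_contra hc
    rw [small_of h1 hg hD.le (by rw [abs_of_pos (xx_pos.2 h)]; exact not_lt.1 hc)] at hs
    exact absurd hs (by simp)
  · classical
    have h2 := prob hk ((xx_le hN hD).trans (div_le_self (by positivity)
      (one_le_pow₀ (one_le_pow₀ (by norm_num)))))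
    rw [cnt_eq, sum_ofBits _ fun y => if ¬Gd k (xx k N D) y then 1 else 0, pow_mul 2 (3 * k)]
    convert h2 <;> rfl

end Pool.Agent.MP_c00c90_lc

end MrgPart3

-- ======== part 4: formerly Pool.Agent.MP_c00c90_lc.Classes
section MrgPart4

/-!
From the tests to the complexity classes.
-/

set_option autoImplicit false

namespace Pool.Agent.MP_c00c90_lc

open Pool.Agent.PolyT Pool.Agent.H82 N487b59b3 Finset

variable {α β γ : Type} [N487b59b3 α] [N487b59b3 β] [N487b59b3 γ]

theorem cnt_congr {n : ℕ} {E E' : List Bool → Prop} (h : ∀ w, w.length = n → (E w ↔ E' w)) :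
    cnt n E = cnt n E' := by
  unfold cnt
  congr 1
  ext w
  exact and_congr_right (h w)

theorem cnt_mono {n : ℕ} {E E' : List Bool → Prop} (h : ∀ w, E w → E' w) :
    cnt n E ≤ cnt n E' :=
  Set.ncard_le_ncard (fun w hw => ⟨hw.1, h w hw.2⟩)
    ((List.finite_length_eq Bool n).subset fun _ hw => hw.1)

theorem cnt_all {n : ℕ} {E : List Bool → Prop} (h : ∀ w, E w) : cnt n E = 2 ^ n := by
  classical
  simp [cnt_eq, h, card_strs]

/-- The answers to adaptive queries. -/
def hs {γ : Type} (F : γ × ℕ → ℕ) (nx : γ × List ℕ → ℕ) (x : γ) : ℕ → List ℕ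
  | 0 => []
  | t + 1 => F (x, nx (x, hs F nx x t)) :: hs F nx x t

theorem hs_length {γ : Type} (F : γ × ℕ → ℕ) (nx : γ × List ℕ → ℕ) (x : γ) (t : ℕ) :
    (hs F nx x t).length = t := by
  induction t with
  | zero => rfl
  | succ t ih => simp [hs, ih]

theorem psharp_of {F : γ × ℕ → ℕ} (hF : Sharp F) {nx : γ × List ℕ → ℕ} (hnx : PolyT.Poly nx)
    {b : γ → ℕ} (hb : PolyT.Poly b) (hle : ∀ x h, nx (x, h) ≤ b x) {u : γ → ℕ} (hu : Un u)
    {out : γ × List ℕ → Bool} (ho : PolyT.Poly out) :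
    PSharp fun x => out (x, hs F nx x (u x)) = true := by
  obtain ⟨p, R, hR, h⟩ := hF
  obtain ⟨q, hq⟩ := hu.bd.add
    (((((Bd.const 2).mul Bd.len).add (Bd.const 1)).add hb.bd).eval p)
  have := hu.poly
  refine ⟨q, fun y => R ((y.1, nx (y.1, y.2.1)), y.2.2),
    fun y => out (y.1, y.2.drop (y.2.length - u y.1)), (poly_iff _).1 (by fun_prop),
    (poly_iff _).1 (by fun_prop), fun x => ?_⟩
  have h1 : ∀ t, hist (fun y : γ × List ℕ × List Bool => R ((y.1, nx (y.1, y.2.1)), y.2.2))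
      (q.eval (len x)) x t = hs F nx x t := by
    intro t
    induction t with
    | zero => rfl
    | succ t ih =>
      rw [hist, hs, ih, cnt_eq, h _ (q.eval (len x)) (le_trans ?_ (hq x))]
      refine (eval_mono p ?_).trans (Nat.le_add_left _ _)
      rw [len, length_enc_pair]
      exact Nat.add_le_add_left (length_enc_nat_mono (hle _ _)) _
  have h2 : ∀ d t, (hs F nx x (t + d)).drop d = hs F nx x t := by
    intro d t
    induction d with
    | zero => rfl
    | succ d ih => exact ih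
  obtain ⟨d, hd⟩ := Nat.exists_eq_add_of_le ((Nat.le_add_right _ _).trans (hq x))
  simp only [h1, hs_length]
  rw [show q.eval (len x) = u x + d from hd, Nat.add_sub_cancel_left, h2]

theorem psharp_one {F : γ → ℕ} (hF : Sharp F) {T : γ × ℕ → Bool} (hT : PolyT.Poly T) :
    PSharp fun x => T (x, F x) = true :=
  psharp_of (F := fun y => F y.1) (hF.comp (by fun_prop)) (nx := fun _ => 0) (by fun_prop)
    (b := fun _ => 0) (by fun_prop) (fun _ _ => le_rfl) (u := fun _ => 1) (by fun_prop)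
    (out := fun y => T (y.1, y.2.getD 0 0)) (by fun_prop)

theorem maj_of {A B : γ → ℕ} (hA : Sharp A) (hB : Sharp B) :
    ∃ (p : Polynomial ℕ) (R : γ × List Bool → Bool), PolyT.Poly R ∧ ∀ x n, p.eval (len x) ≤ n →
      (2 ^ (n + 1) < 2 * cnt (n + 1) (fun z => R (x, z) = true) ↔ B x < A x) := by
  obtain ⟨p, R, hR, h⟩ := hA
  obtain ⟨p', R', hR', h'⟩ := hB
  refine ⟨p + p', fun y => bif y.2.getD 0 false then R (y.1, y.2.drop 1) else !R' (y.1, y.2.drop 1),
    by fun_prop, fun x n hn => ?_⟩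
  rw [Polynomial.eval_add] at hn
  have h1 : ∑ w ∈ strs n, (if (!R' (x, w)) = true then 1 else 0) + B x = 2 ^ n := by
    rw [h' x n (by omega), ← sum_add_distrib, ← card_strs, card_eq_sum_ones]
    exact sum_congr rfl fun w _ => by cases R' (x, w) <;> rfl
  rw [cnt_eq, sum_strs_succ, h x n (by omega), pow_succ]
  simp only [List.getD_cons_zero, cond_true, cond_false, List.drop_succ_cons, List.drop_zero]
  omega

theorem ch2_of {L : α → Prop} (p : Polynomial ℕ) {A B : α × List Bool → ℕ} (hA : Sharp A)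
    (hB : Sharp B) {θ : α → ℕ} (hθ : PolyT.Poly θ) (h1 : ∀ x, 1 ≤ θ x)
    (h2 : ∀ x, θ x ≤ 2 ^ p.eval (len x))
    (hL : ∀ x, L x ↔ θ x ≤ cnt (p.eval (len x)) fun y => B (x, y) < A (x, y)) : CH2 L := by
  obtain ⟨q, R, hR, h⟩ := maj_of
    (A := fun y : α × List Bool => bif y.2.getD 0 false then A (y.1, y.2.drop 1) else
      2 ^ p.eval (len y.1) + 1 - θ y.1)
    (B := fun y : α × List Bool => bif y.2.getD 0 false then B (y.1, y.2.drop 1) else
      ofBits (y.2.drop 1))
    (Sharp.cond (by fun_prop) (hA.comp (by fun_prop)) (Sharp.poly (by fun_prop)))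
    (Sharp.cond (by fun_prop) (hB.comp (by fun_prop)) (Sharp.poly (by fun_prop)))
  refine ⟨p + 1, q.comp (2 * Polynomial.X + 1 + 3 * (p + 1)) + 1,
    fun y => R ((y.1, y.2.1), y.2.2), (poly_iff _).1 (by fun_prop), fun x => ?_⟩
  simp only [Polynomial.eval_add, Polynomial.eval_comp, Polynomial.eval_mul, Polynomial.eval_X,
    Polynomial.eval_one, Polynomial.eval_ofNat]
  rw [hL, cnt_congr fun y hy => h (x, y) _ (by rw [len_pair, hy]), cnt_eq, cnt_eq, sum_strs_succ,
    pow_succ]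
  have := h1 x
  have := h2 x
  simp only [List.getD_cons_zero, cond_true, cond_false, List.drop_succ_cons, List.drop_zero]
  rw [sum_lt (by omega)]
  omega

theorem ma_ch2 {L : α → Prop} (p q : Polynomial ℕ) {F : α × List Bool × List Bool → ℕ}
    (hF : Sharp F) {T : (α × List Bool × List Bool) × ℕ → Bool} (hT : PolyT.Poly T)
    (h1 : ∀ x, L x → ∃ w, w.length = p.eval (len x) ∧ ∀ r, T ((x, w, r), F (x, w, r)) = true)
    (h2 : ∀ x, ¬L x → ∀ w, w.length = p.eval (len x) → 4 * 2 ^ p.eval (len x) *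
      cnt (q.eval (len x)) (fun r => T ((x, w, r), F (x, w, r)) = true) ≤ 2 ^ q.eval (len x)) :
    MASharp L ∧ CH2 L := by
  constructor
  · refine ⟨p, q, _, psharp_one hF hT, fun x => ⟨fun h => ?_, fun h w hw => ?_⟩⟩
    · obtain ⟨w, hw, h⟩ := h1 x h
      exact ⟨w, hw, by rw [cnt_all h]; omega⟩
    · have : 1 ≤ 2 ^ p.eval (len x) := Nat.one_le_two_pow
      exact (Nat.mul_le_mul_right _ (by omega)).trans (h2 x h w hw)
  obtain ⟨e, he⟩ := hF.le
  let f : α × List Bool → α × List Bool × List Bool := fun y =>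
    (y.1, y.2.take (p.eval (len y.1)), (y.2.drop (p.eval (len y.1))).take (q.eval (len y.1)))
  let v : α × List Bool → ℕ := fun y =>
    ofBits ((y.2.drop (p.eval (len y.1))).drop (q.eval (len y.1)))
  have u1 : PolyT.Poly fun x : α => p.eval (len x) := Un.poly (by fun_prop)
  have u2 : PolyT.Poly fun x : α => q.eval (len x) := Un.poly (by fun_prop)
  have hf : PolyT.Poly f := by
    have := u1.comp (PolyT.Poly.id (α := α × List Bool)).fst
    have := u2.comp (PolyT.Poly.id (α := α × List Bool)).fst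
    fun_prop
  have hv : PolyT.Poly v := by
    have := u1.comp (PolyT.Poly.id (α := α × List Bool)).fst
    have := u2.comp (PolyT.Poly.id (α := α × List Bool)).fst
    fun_prop
  refine ch2_of (p + (q + (e.comp (2 * Polynomial.X + 1 + (2 * (3 * p) + 1 + 3 * q)) + 1)))
    (A := fun y => bif T (f y, v y) then 2 * v y * F (f y) + 1 else 0)
    (B := fun y => F (f y) * F (f y) + v y * v y)
    (Sharp.cond (by fun_prop) (((Sharp.poly (by fun_prop)).mul (hF.comp hf)).add
      (Sharp.poly (by fun_prop))) (Sharp.poly (by fun_prop)))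
    (((hF.comp hf).mul (hF.comp hf)).add (Sharp.poly (by fun_prop)))
    (θ := fun x => 2 ^ q.eval (len x)) (by fun_prop) (fun _ => Nat.one_le_two_pow)
    (fun x => Nat.pow_le_pow_right two_pos (by simp only [Polynomial.eval_add]; omega))
    fun x => ?_
  simp only [Polynomial.eval_add, Polynomial.eval_comp, Polynomial.eval_mul, Polynomial.eval_X,
    Polynomial.eval_one, Polynomial.eval_ofNat]
  have e1 : ∀ (a b : ℕ) (c : Bool), a * a + b * b < (bif c then 2 * b * a + 1 else 0) ↔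
      b = a ∧ c = true := by
    intro a b c
    cases c
    · simp
    · simp only [cond_true, and_true]
      refine ⟨fun h => ?_, by rintro rfl; nlinarith⟩
      zify at h ⊢
      nlinarith [sq_nonneg ((a : ℤ) - b - 1), sq_nonneg ((a : ℤ) - b + 1)]
  have e2 : cnt (p.eval (len x) + (q.eval (len x) + (e.eval (2 * len x + 1 +
      (2 * (3 * p.eval (len x)) + 1 + 3 * q.eval (len x))) + 1)))
      (fun y => F (f (x, y)) * F (f (x, y)) + v (x, y) * v (x, y) <
        bif T (f (x, y), v (x, y)) then 2 * v (x, y) * F (f (x, y)) + 1 else 0) =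
      ∑ w ∈ strs (p.eval (len x)),
        cnt (q.eval (len x)) fun r => T ((x, w, r), F (x, w, r)) = true := by
    simp only [e1, cnt_eq, f, v]
    rw [sum_strs_add _ _ fun w u => if ofBits (u.drop (q.eval (len x))) =
      F (x, w, u.take (q.eval (len x))) ∧ T ((x, w, u.take (q.eval (len x))),
        ofBits (u.drop (q.eval (len x)))) = true then 1 else 0]
    refine sum_congr rfl fun w hw => ?_
    rw [sum_strs_add _ _ fun r u => if ofBits u = F (x, w, r) ∧ T ((x, w, r), ofBits u) = true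
      then 1 else 0]
    refine sum_congr rfl fun r hr => ?_
    have h3 := he (x, w, r)
    rw [len, length_enc_pair, length_enc_pair, PolyT.Poly.enc_bools_length,
      PolyT.Poly.enc_bools_length, mem_strs.1 hw, mem_strs.1 hr] at h3
    rw [sum_ofBits _ fun y => if y = F (x, w, r) ∧ T ((x, w, r), y) = true then 1 else 0]
    simp only [ite_and]
    rw [sum_ite_eq']
    exact if_pos (mem_range.2 (h3.trans_lt (Nat.pow_lt_pow_right one_lt_two (Nat.lt_succ_self _))))
  rw [e2]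
  refine ⟨fun h => ?_, fun h => ?_⟩
  · obtain ⟨w, hw, h⟩ := h1 x h
    rw [← cnt_all (n := q.eval (len x)) h]
    exact single_le_sum (f := fun w => cnt (q.eval (len x)) fun r =>
      T ((x, w, r), F (x, w, r)) = true) (fun _ _ => Nat.zero_le _) (mem_strs.2 hw)
  · by_contra hc
    have h3 := sum_le_card_nsmul _ _ _ fun w hw => h2 x hc w (mem_strs.1 hw)
    rw [← mul_sum, card_strs, smul_eq_mul] at h3
    have h4 := (Nat.mul_le_mul_left _ h).trans h3
    have : 0 < 2 ^ p.eval (len x) * 2 ^ q.eval (len x) := by positivity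
    nlinarith

/-- Integers of doubly exponential size whose residues are computable in polynomial time. -/
def Nice (N : α → ℤ) : Prop :=
  (∃ g : α × ℕ → ℕ, PolyT.Poly g ∧ ∀ a m, 0 < m → (g (a, m) : ZMod m) = N a) ∧
    ∃ p : Polynomial ℕ, ∀ a, |N a| < 2 ^ 2 ^ p.eval (len a)

theorem lt_mono {N : ℤ} {a b : ℕ} (h : |N| < 2 ^ 2 ^ a) (hab : a ≤ b) : |N| < 2 ^ 2 ^ b :=
  h.trans_le (pow_le_pow_right₀ one_le_two (Nat.pow_le_pow_right two_pos hab))

theorem core_ex {L : α → Prop} {N : α × List Bool → ℤ} (hN : Nice N) (a : Polynomial ℕ)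
    (hL : ∀ x, L x ↔ ∃ w, w.length = a.eval (len x) ∧ 0 < N (x, w)) : MASharp L ∧ CH2 L := by
  obtain ⟨⟨g, hg, hm⟩, p, hp⟩ := hN
  obtain ⟨P, hP⟩ : ∃ P : Polynomial ℕ, ∀ n, P.eval n =
      p.eval (2 * n + 1 + 3 * a.eval n) + a.eval n + 40 :=
    ⟨p.comp (2 * Polynomial.X + 1 + 3 * a) + a + 40, by simp [Polynomial.eval_comp]⟩
  have hs := fun x (w : List Bool) (hw : w.length = a.eval (len x)) =>
    spec (k := P.eval (len x)) (by rw [hP]; omega) (hm (x, w))
      (lt_mono (hp (x, w)) (by rw [len_pair, hw, hP]; omega))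
  have u1 : PolyT.Poly fun x : α × List Bool × List Bool => a.eval (len x.1) :=
    Un.poly (by fun_prop)
  have u2 : PolyT.Poly fun x : (α × List Bool × List Bool) × ℕ => a.eval (len x.1.1) :=
    Un.poly (by fun_prop)
  refine ma_ch2 (a + (P + 1)) (3 * P * (6 * P * (3 * P)))
    (F := fun y => ff (P.eval (len y.1)) (fun m => g ((y.1, y.2.1.take (a.eval (len y.1))), m))
      (ofBits (y.2.1.drop (a.eval (len y.1))) % (2 ^ P.eval (len y.1) + 1)) (ofBits y.2.2))
    (s_ff (g := fun y : (α × List Bool × List Bool) × ℕ =>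
      g ((y.1.1, y.1.2.1.take (a.eval (len y.1.1))), y.2)) (by fun_prop) (by fun_prop)
      (by fun_prop) (by fun_prop))
    (T := fun y => small (P.eval (len y.1.1)) (ofBits y.1.2.2) y.2 &&
      posi (P.eval (len y.1.1)) y.2) (by fun_prop) (fun x h => ?_) fun x h w hw => ?_
  · obtain ⟨w, hw, h⟩ := (hL x).1 h
    obtain ⟨D, hD, h⟩ := (hs x w hw).compl h
    obtain ⟨d, hd, rfl⟩ := exists_ofBits
      (hD.trans_lt (Nat.pow_lt_pow_right one_lt_two (Nat.lt_succ_self _)))
    refine ⟨w ++ d, by simp [hw, hd], fun r => ?_⟩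
    simp only [← hw, List.take_left', List.drop_left', Nat.mod_eq_of_lt (Nat.lt_succ_of_le hD),
      Bool.and_eq_true]
    exact h r
  · simp only [Polynomial.eval_add, Polynomial.eval_mul, Polynomial.eval_one,
      Polynomial.eval_ofNat] at hw ⊢
    have h1 : (w.take (a.eval (len x))).length = a.eval (len x) := by simp [hw]
    have h2 := Nat.le_of_lt_succ (Nat.mod_lt (ofBits (w.drop (a.eval (len x))))
      (Nat.add_one_pos (2 ^ P.eval (len x))))
    refine le_trans (Nat.mul_le_mul ?_ (cnt_mono fun r hr => ?_)) ((hs x _ h1).prob _ h2)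
    · rw [show 4 = 2 ^ 2 from rfl, ← pow_add]
      exact Nat.pow_le_pow_right two_pos (by rw [hP]; omega)
    · rw [Bool.and_eq_true] at hr
      exact fun hG => h ((hL x).2 ⟨_, h1, (hs x _ h1).sound _ h2 r hG hr.1 hr.2⟩)

theorem core_bpp {N : α → ℤ} (hN : Nice N) : BPPSharp fun x => 0 < N x := by
  classical
  obtain ⟨⟨g, hg, hm⟩, p, hp⟩ := hN
  obtain ⟨P, hP⟩ : ∃ P : Polynomial ℕ, ∀ n, P.eval n = p.eval n + 40 := ⟨p + 40, by simp⟩
  let F : (α × List Bool) × ℕ → ℕ := fun y =>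
    ff (P.eval (len y.1.1)) (fun m => g (y.1.1, m)) y.2 (ofBits y.1.2)
  let A : (α × List Bool) × List ℕ → ℕ := fun y =>
    ofBits (y.2.map fun c => !small (P.eval (len y.1.1)) (ofBits y.1.2) c)
  let nx : (α × List Bool) × List ℕ → ℕ := fun y =>
    ((2 * A y + 1) * 2 ^ (P.eval (len y.1.1) - y.2.length) + 1) / 2 % (2 ^ P.eval (len y.1.1) + 1)
  refine ⟨3 * P * (6 * P * (3 * P)), _, psharp_of (F := F)
    (s_ff (g := fun y : ((α × List Bool) × ℕ) × ℕ => g (y.1.1.1, y.2)) (by fun_prop) (by fun_prop)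
      (by fun_prop) (by fun_prop)) (nx := nx) (by simp only [nx, A]; fun_prop)
    (b := fun y => 2 ^ P.eval (len y.1) + 1) (by fun_prop)
    (fun x h => (Nat.mod_lt _ (Nat.add_one_pos _)).le) (u := fun y => P.eval (len y.1) + 1)
    (by fun_prop) (out := fun y => posi (P.eval (len y.1.1)) (y.2.getD 0 0)) (by fun_prop),
    fun x => ?_⟩
  have hs' := spec (k := P.eval (len x)) (by rw [hP]; omega) (hm x)
    (lt_mono (hp x) (by rw [hP]; omega))
  have hk : 40 ≤ P.eval (len x) := by rw [hP]; omega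
  simp only [Polynomial.eval_mul, Polynomial.eval_ofNat]
  have key : ∀ r, (∀ D ≤ 2 ^ P.eval (len x), Gd (P.eval (len x)) (xx (P.eval (len x)) (N x) D)
      (ofBits r)) → (posi (P.eval (len x)) ((hs F nx (x, r) (P.eval (len x) + 1)).getD 0 0) = true
        ↔ 0 < N x) := by
    intro r hr
    have hn : ∀ h : List ℕ, nx ((x, r), h) = ((2 * A ((x, r), h) + 1) *
      2 ^ (P.eval (len x) - h.length) + 1) / 2 % (2 ^ P.eval (len x) + 1) := fun _ => rfl
    have inv : ∀ t s, t + s = P.eval (len x) → A ((x, r), hs F nx (x, r) t) < 2 ^ t ∧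
        small (P.eval (len x)) (ofBits r)
          (F ((x, r), (A ((x, r), hs F nx (x, r) t) + 1) * 2 ^ s)) = true ∧
        (0 < N x → small (P.eval (len x)) (ofBits r)
          (F ((x, r), A ((x, r), hs F nx (x, r) t) * 2 ^ s)) = false) := by
      intro t
      induction t with
      | zero =>
        intro s h
        rw [zero_add] at h
        subst h
        simpa [A, hs] using ⟨hs'.last r, fun h => hs'.first h r (hr 0 (Nat.zero_le _))⟩
      | succ t ih =>
        intro s h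
        obtain ⟨i1, i2, i3⟩ := ih (s + 1) (by omega)
        have e1 : nx ((x, r), hs F nx (x, r) t) = (2 * A ((x, r), hs F nx (x, r) t) + 1) * 2 ^ s := by
          rw [hn, hs_length, ← h, show t + 1 + s - t = s + 1 by omega, pow_succ, ← mul_assoc,
            Nat.mul_comm _ 2, Nat.mul_add_div two_pos, pow_add, pow_succ]
          exact Nat.mod_eq_of_lt (Nat.lt_succ_of_le (Nat.mul_le_mul_right _ (by omega)))
        have e2 : A ((x, r), hs F nx (x, r) (t + 1)) = 2 * A ((x, r), hs F nx (x, r) t) +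
            (!small (P.eval (len x)) (ofBits r) (F ((x, r), nx ((x, r), hs F nx (x, r) t)))).toNat :=
          rfl
        rw [e2, e1, pow_succ]
        generalize A ((x, r), hs F nx (x, r) t) = a at *
        rw [show (a + 1) * 2 ^ (s + 1) = (2 * a + 1 + 1) * 2 ^ s by ring] at i2
        rw [show a * 2 ^ (s + 1) = (2 * a + 0) * 2 ^ s by ring] at i3
        cases hc : small (P.eval (len x)) (ofBits r) (F ((x, r), (2 * a + 1) * 2 ^ s))
        · exact ⟨by simp; omega, i2, fun _ => hc⟩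
        · exact ⟨by simp; omega, hc, i3⟩
    obtain ⟨i1, i2, i3⟩ := inv (P.eval (len x)) 0 rfl
    have e1 : nx ((x, r), hs F nx (x, r) (P.eval (len x))) =
        A ((x, r), hs F nx (x, r) (P.eval (len x))) + 1 := by
      rw [hn, hs_length, Nat.sub_self, pow_zero, mul_one, Nat.mod_eq_of_lt] <;> omega
    rw [hs, List.getD_cons_zero, e1]
    rw [pow_zero, mul_one] at i2 i3
    exact ⟨hs'.sound _ i1 r (hr _ i1) i2, fun h => hs'.step h _ i1 r (i3 h) (hr _ i1) i2⟩
  have h1 := sum_le_card_nsmul _ _ _ fun D (hD : D ∈ range (2 ^ P.eval (len x) + 1)) =>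
    hs'.prob D (Nat.le_of_lt_succ (mem_range.1 hD))
  have h2 : 3 * (2 ^ P.eval (len x) + 1) ≤ 2 ^ (3 * P.eval (len x)) := by
    have := X_lt_bB (k := P.eval (len x)) (by omega)
    have := lin_le hk
    rw [← bB]; nlinarith
  rw [← mul_sum, card_range, smul_eq_mul] at h1
  simp only [cnt_eq, tT] at h1 ⊢
  rw [sum_comm] at h1
  have h3 : ∀ a b c d e : ℕ, 0 < b → e ≤ c + d → b * d ≤ a * e → 3 * a ≤ b → 2 * e ≤ 3 * c := by
    intro a b c d e h0 h1 h2 h3
    have : b * (3 * d) ≤ b * e := by nlinarith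
    have := Nat.le_of_mul_le_mul_left this h0
    omega
  refine h3 _ _ _ _ _ (by positivity) ?_ h1 h2
  rw [← sum_add_distrib, ← card_strs, card_eq_sum_ones]
  refine sum_le_sum fun r _ => ?_
  by_cases hr : ∀ D ≤ 2 ^ P.eval (len x), Gd (P.eval (len x)) (xx (P.eval (len x)) (N x) D)
      (ofBits r)
  · rw [if_pos (key r hr)]; omega
  · obtain ⟨D, hD⟩ := not_forall.1 hr
    obtain ⟨hD, hG⟩ := Classical.not_imp.1 hD
    refine le_add_left (le_trans ?_ (single_le_sum (fun _ _ => Nat.zero_le _)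
      (mem_range.2 (Nat.lt_succ_of_le hD))))
    rw [if_pos hG]

theorem core {L : α → Prop} {N : α → ℤ} (hN : Nice N) (hL : ∀ x, L x ↔ 0 < N x) :
    BPPSharp L ∧ CH2 L := by
  refine ⟨by rw [funext fun x => propext (hL x)]; exact core_bpp hN,
    (core_ex (N := fun y => N y.1) ?_ 0 fun x => by simp [hL]).2⟩
  obtain ⟨⟨g, hg, hm⟩, p, hp⟩ := hN
  exact ⟨⟨fun y => g (y.1.1, y.2), by fun_prop, fun a => hm a.1⟩, p, fun a =>
    lt_mono (hp a.1) (eval_mono p (by rw [len_pair]; omega))⟩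

end Pool.Agent.MP_c00c90_lc

end MrgPart4

-- marker of a merged file
example : 731051 + 679759 = 731051 + 679759 := rfl
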