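import Pool.Agent.MP_c00c90_lc.Classes

-- ======== part 0: formerly Pool.Agent.MP_c00c90_lc.Roots
section MrgPart0

/-!
Straight-line programs and sums of square roots.
-/

set_option autoImplicit false

namespace Pool.Agent.MP_c00c90_lc

open Pool.Agent.PolyT Pool.Agent.H82 N487b59b3 Finset

variable {α β : Type} [N487b59b3 α] [N487b59b3 β]

theorem Nice.comp {N : β → ℤ} {f : α → β} (h : Nice N) (hf : PolyT.Poly f) :
    Nice fun a => N (f a) := by
  obtain ⟨⟨g, hg, hm⟩, p, hp⟩ := h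
  obtain ⟨q, hq⟩ := len_le hf
  exact ⟨⟨fun y => g (f y.1, y.2), by fun_prop, fun a => hm (f a)⟩, p.comp q, fun a =>
    lt_mono (hp _) (by rw [Polynomial.eval_comp]; exact eval_mono p (hq a))⟩

theorem Nice.cond {N : α → ℤ} {c : α → Bool} (h : Nice N) (hc : PolyT.Poly c) :
    Nice fun a => bif c a then N a else 0 := by
  obtain ⟨⟨g, hg, hm⟩, p, hp⟩ := h
  refine ⟨⟨fun y => bif c y.1 then g y else 0, by fun_prop, fun a m h => ?_⟩, p, fun a => ?_⟩
  · cases h' : c a <;> simp [h', hm a m h]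
  · cases h' : c a <;> simp [h', hp a]

/-- One instruction modulo `m`. -/
def slpM (m : ℕ) (v : List ℕ) (c : ℕ × ℕ × ℕ) : List ℕ :=
  v ++ [(bif eqB c.1 0 then v.getD c.2.1 0 + v.getD c.2.2 0 else bif eqB c.1 1 then
    v.getD c.2.1 0 + (m - 1) * v.getD c.2.2 0 else v.getD c.2.1 0 * v.getD c.2.2 0) % (m - 1 + 1)]

theorem getD_cast {m : ℕ} {v : List ℕ} {v' : List ℤ}
    (h : v.map (Nat.cast : ℕ → ZMod m) = v'.map Int.cast) (i : ℕ) :
    ((v.getD i 0 : ℕ) : ZMod m) = (v'.getD i 0 : ℤ) := by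
  rw [← List.getD_map _ _ (Nat.cast : ℕ → ZMod m), ← List.getD_map _ _ (Int.cast : ℤ → ZMod m), h]
  simp

theorem slpM_cast {m : ℕ} (hm : 0 < m) (P : List (ℕ × ℕ × ℕ)) : ∀ {v : List ℕ} {v' : List ℤ},
    v.map (Nat.cast : ℕ → ZMod m) = v'.map Int.cast →
      (P.foldl (slpM m) v).map (Nat.cast : ℕ → ZMod m) = (P.foldl slpStep v').map Int.cast := by
  have h1 : ((m - 1 : ℕ) : ZMod m) = -1 := by rw [Nat.cast_sub hm]; simp
  induction P with
  | nil => exact fun h => h
  | cons c P ih =>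
    intro v v' h
    refine ih ?_
    simp only [slpM, slpStep, List.map_append, h, Nat.sub_add_cancel hm, List.map_cons,
      ZMod.natCast_mod, Bool.cond_eq_ite, eqB_iff, List.map_nil]
    split_ifs <;> simp only [Nat.cast_add, Nat.cast_mul, getD_cast h, h1, Int.cast_add,
      Int.cast_mul, neg_one_mul, sub_eq_add_neg, Int.cast_neg]

theorem slpM_enc (m : ℕ) (P : List (ℕ × ℕ × ℕ)) : ∀ v : List ℕ, len (P.foldl (slpM m) v) ≤
    len v + P.length * (2 * len m + 1) := by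
  induction P with
  | nil => simp
  | cons c P ih =>
    intro v
    refine (ih _).trans ?_
    have : ∀ x, len (x % (m - 1 + 1)) ≤ len m := fun x =>
      length_enc_nat_mono ((Nat.le_of_lt_succ (Nat.mod_lt _ (Nat.add_one_pos _))).trans
        (Nat.sub_le _ _))
    simp only [len] at this ⊢
    rw [slpM, enc_append, List.length_append, length_enc_cons, List.length_cons, add_one_mul]
    grw [this]
    simp; omega

theorem slp_size (P : List (ℕ × ℕ × ℕ)) : ∀ (v : List ℤ) (t : ℕ), (∀ x ∈ v, |x| ≤ 2 ^ 2 ^ t) →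
    ∀ x ∈ P.foldl slpStep v, |x| ≤ 2 ^ 2 ^ (t + P.length) := by
  induction P with
  | nil => exact fun v t h => h
  | cons c P ih =>
    intro v t h
    rw [List.length_cons, add_comm _ 1, ← add_assoc]
    refine ih _ _ fun x hx => ?_
    have h1 : ∀ i, |v.getD i 0| ≤ 2 ^ 2 ^ t := fun i => by
      rw [List.getD_eq_getElem?_getD]
      cases e : v[i]? with
      | none => simp
      | some y => exact h y (List.mem_of_getElem? e)
    have h2 : (2 : ℤ) ^ 1 ≤ 2 ^ 2 ^ t := pow_le_pow_right₀ one_le_two Nat.one_le_two_pow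
    rw [pow_succ, pow_mul, sq]
    rcases List.mem_append.1 hx with hx | hx
    · nlinarith [h x hx]
    · rw [List.mem_singleton.1 hx]
      have a1 := h1 c.2.1
      have a2 := h1 c.2.2
      split_ifs
      · nlinarith [abs_add_le (v.getD c.2.1 0) (v.getD c.2.2 0)]
      · nlinarith [abs_sub (v.getD c.2.1 0) (v.getD c.2.2 0)]
      · rw [abs_mul]; exact mul_le_mul a1 a2 (abs_nonneg _) (by positivity)

theorem nice_slp : Nice fun P : List (ℕ × ℕ × ℕ) => (P.foldl slpStep [1]).getD P.length 0 := by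
  have h1 : PolyT.Poly fun y : List (ℕ × ℕ × ℕ) × ℕ => y.1.foldl (slpM y.2) [1] :=
    PolyT.Poly.foldl (f := fun y : List (ℕ × ℕ × ℕ) × ℕ => slpM y.2) (by unfold slpM; fun_prop)
      (by fun_prop) (by fun_prop) (Un.bd (n := fun y : List (ℕ × ℕ × ℕ) × ℕ =>
        len [1] + y.1.length * (2 * len y.2 + 1)) (by fun_prop)) fun a n =>
      (slpM_enc _ _ _).trans (by gcongr; exact List.length_take_le' _ _)
  refine ⟨⟨fun y => (y.1.foldl (slpM y.2) [1]).getD y.1.length 0, by fun_prop, fun P m hm =>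
    getD_cast (slpM_cast hm P (by simp)) _⟩, Polynomial.X + 1, fun P => ?_⟩
  have h2 := slp_size P [1] 0 (by simp)
  have h3 : (2 : ℤ) ^ 2 ^ (0 + P.length) < 2 ^ 2 ^ (len P + 1) :=
    pow_lt_pow_right₀ one_lt_two (Nat.pow_lt_pow_right one_lt_two (by
      have := length_le_enc P; rw [len]; omega))
  simp only [Polynomial.eval_add, Polynomial.eval_X, Polynomial.eval_one]
  rw [List.getD_eq_getElem?_getD]
  cases e : (P.foldl slpStep [1])[P.length]? with
  | none => simp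
  | some y => exact (h2 y (List.mem_of_getElem? e)).trans_lt h3

/-- One step of the iteration for the square root, modulo `m`. -/
def nw (m a : ℕ) (s : ℕ × ℕ) : ℕ × ℕ := ((s.1 * s.1 + a * (s.2 * s.2)) % m, 2 * (s.1 * s.2) % m)

/-- The iteration for the square root. -/
def nwI (m t a : ℕ) : ℕ × ℕ := (List.range t).foldl (fun s _ => nw m a s) (1, 1)

/-- The upper approximation. -/
def up (m t a : ℕ) : ℕ × ℕ := (bif ltB 0 a then (nwI m t a).1 else 0, (nwI m t a).2)

/-- The lower approximation. -/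
def lo (m t a : ℕ) : ℕ × ℕ := (a * (nwI m t a).2, (nwI m t a).1)

/-- The sum of fractions. -/
def fr (m : ℕ) (l : List (ℕ × ℕ)) : ℕ × ℕ :=
  l.foldr (fun p s => ((s.1 * p.2 + p.1 * s.2) % m, s.2 * p.2 % m)) (0, 1)

/-- The two sides of the comparison. -/
def nS (m t : ℕ) (I : List ℕ × List ℕ) : ℕ × ℕ :=
  ((fr m (I.1.map (up m t))).1 * (fr m (I.2.map (lo m t))).2,
    (fr m (I.2.map (lo m t))).1 * (fr m (I.1.map (up m t))).2)

/-- The integer whose sign decides the comparison. -/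
def NS (I : List ℕ × List ℕ) : ℤ :=
  2 * ((nS 0 (3 * len I + 2) I).1 - (nS 0 (3 * len I + 2) I).2) + 1

theorem nwI_succ (m t a : ℕ) : nwI m (t + 1) a = nw m a (nwI m t a) := by
  simp [nwI, List.range_succ]

theorem nwI_cast (m t a : ℕ) : ((nwI m t a).1 : ZMod m) = (nwI 0 t a).1 ∧
    ((nwI m t a).2 : ZMod m) = (nwI 0 t a).2 := by
  induction t with
  | zero => exact ⟨rfl, rfl⟩
  | succ t ih => simp [nwI_succ, nw, ih.1, ih.2]

theorem fr_cast (m : ℕ) {f f' : ℕ → ℕ × ℕ}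
    (h : ∀ a, ((f a).1 : ZMod m) = (f' a).1 ∧ ((f a).2 : ZMod m) = (f' a).2) (l : List ℕ) :
    ((fr m (l.map f)).1 : ZMod m) = (fr 0 (l.map f')).1 ∧
      ((fr m (l.map f)).2 : ZMod m) = (fr 0 (l.map f')).2 := by
  unfold fr
  induction l with
  | nil => exact ⟨rfl, rfl⟩
  | cons a l ih => simp only [List.map_cons, List.foldr_cons]; simp [ih, h]

theorem nS_cast (m t : ℕ) (I : List ℕ × List ℕ) : ((nS m t I).1 : ZMod m) = (nS 0 t I).1 ∧
    ((nS m t I).2 : ZMod m) = (nS 0 t I).2 := by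
  have h1 := fr_cast m (f := up m t) (f' := up 0 t)
    (fun a => by cases h : ltB 0 a <;> simp [up, h, nwI_cast]) I.1
  have h2 := fr_cast m (f := lo m t) (f' := lo 0 t) (fun a => by simp [lo, nwI_cast]) I.2
  simp [nS, h1, h2]

theorem enc_two {s : ℕ × ℕ} {b : ℕ} (h1 : s.1 ≤ b) (h2 : s.2 ≤ b) :
    (bitEncode s).length ≤ 3 * len b + 1 := by
  have := length_enc_nat_mono h1
  have := length_enc_nat_mono h2
  rw [length_enc_pair, len]; omega

@[fun_prop] theorem p_nwI {m t a : α → ℕ} (hm : PolyT.Poly m) (ht : Un t) (ha : PolyT.Poly a) :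
    PolyT.Poly fun x => nwI (m x + 1) (t x) (a x) := by
  refine PolyT.Poly.foldl (f := fun x s (_ : ℕ) => nw (m x + 1) (a x) s) (by unfold nw; fun_prop)
    ht (by fun_prop) (Un.bd (n := fun x => 3 * len (m x + 1) + 1) (by fun_prop)) fun x n => ?_
  induction (List.range (t x)).take n using List.reverseRecOn with
  | nil => exact enc_two (by simp) (by simp)
  | append_singleton l c _ =>
    rw [List.foldl_append]
    exact enc_two (Nat.mod_lt _ (Nat.add_one_pos _)).le (Nat.mod_lt _ (Nat.add_one_pos _)).le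

@[fun_prop] theorem p_fr {m : α → ℕ} {l : α → List (ℕ × ℕ)} (hm : PolyT.Poly m)
    (hl : PolyT.Poly l) : PolyT.Poly fun x => fr (m x + 1) (l x) := by
  refine PolyT.Poly.foldr (f := fun x (p s : ℕ × ℕ) =>
    ((s.1 * p.2 + p.1 * s.2) % (m x + 1), s.2 * p.2 % (m x + 1))) (by fun_prop) hl (by fun_prop)
    (Un.bd (n := fun x => 3 * len (m x + 1) + 1) (by fun_prop)) fun x n => ?_
  cases (l x).drop n with
  | nil => exact enc_two (by simp) (by simp)
  | cons c l =>
    exact enc_two (Nat.mod_lt _ (Nat.add_one_pos _)).le (Nat.mod_lt _ (Nat.add_one_pos _)).le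

theorem nwI_size (t a : ℕ) :
    (a + 1) * ((nwI 0 t a).1 + (nwI 0 t a).2) ≤ (2 * (a + 1)) ^ 2 ^ t := by
  induction t with
  | zero => simp [nwI, mul_comm]
  | succ t ih =>
    rw [pow_succ, pow_mul]
    refine le_trans ?_ (Nat.pow_le_pow_left ih 2)
    rw [mul_pow, sq, mul_assoc]
    refine Nat.mul_le_mul_left _ ?_
    simp only [nwI_succ, nw, Nat.mod_zero]
    nlinarith [Nat.zero_le (a * ((nwI 0 t a).1 * (nwI 0 t a).1)),
      Nat.zero_le (a * ((nwI 0 t a).1 * (nwI 0 t a).2))]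

theorem fr_size {Y : ℕ} (l : List (ℕ × ℕ)) (h : ∀ p ∈ l, p.1 + p.2 ≤ Y) :
    (fr 0 l).1 + (fr 0 l).2 ≤ Y ^ l.length := by
  unfold fr
  induction l with
  | nil => simp
  | cons p l ih =>
    refine le_trans ?_ ((Nat.mul_le_mul (ih fun q hq => h q (by simp [hq]))
      (h p (by simp))).trans_eq (pow_succ _ _).symm)
    simp only [List.foldr_cons, Nat.mod_zero]
    nlinarith [Nat.zero_le ((l.foldr (fun p s => (s.1 * p.2 + p.1 * s.2, s.2 * p.2)) (0, 1)).1 *
      p.1)]

theorem len_facts (I : List ℕ × List ℕ) : I.1.length + I.2.length ≤ len I ∧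
    ∀ a ∈ I.1 ++ I.2, a < 2 ^ len I := by
  have h1 := length_le_enc I.1
  have h2 := length_le_enc I.2
  rw [len, length_enc_pair]
  refine ⟨by omega, fun a ha => (lt_two_pow_enc a).trans_le (Nat.pow_le_pow_right two_pos ?_)⟩
  rcases List.mem_append.1 ha with h | h <;> have := enc_mem_le h <;> omega

theorem nice_NS : Nice NS := by
  refine ⟨⟨fun y => 2 * ((nS (y.2 - 1 + 1) (3 * len y.1 + 2) y.1).1 +
    (y.2 - 1) * (nS (y.2 - 1 + 1) (3 * len y.1 + 2) y.1).2) + 1, by unfold nS up lo; fun_prop,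
    fun I m hm => ?_⟩, 5 * Polynomial.X + 3, fun I => ?_⟩
  · have h1 : ((m - 1 : ℕ) : ZMod m) = -1 := by rw [Nat.cast_sub hm]; simp
    simp [NS, Nat.sub_add_cancel hm, h1, nS_cast, sub_eq_add_neg]
  obtain ⟨h1, h2⟩ := len_facts I
  simp only [Polynomial.eval_add, Polynomial.eval_mul, Polynomial.eval_X, Polynomial.eval_ofNat]
  rw [NS]
  generalize len I = n at *
  have h3 : ∀ a ∈ I.1 ++ I.2, (a + 1) * ((nwI 0 (3 * n + 2) a).1 + (nwI 0 (3 * n + 2) a).2) ≤
      (2 ^ (n + 1)) ^ 2 ^ (3 * n + 2) := fun a ha => (nwI_size _ a).trans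
    (Nat.pow_le_pow_left (by have := h2 a ha; rw [pow_succ]; omega) _)
  have h4 := fr_size (Y := (2 ^ (n + 1)) ^ 2 ^ (3 * n + 2)) (I.1.map (up 0 (3 * n + 2)))
    fun p hp => by
      obtain ⟨a, ha, rfl⟩ := List.mem_map.1 hp
      refine le_trans ?_ (h3 a (by simp [ha]))
      cases h : ltB 0 a <;> simp only [up, h, cond_true, cond_false] <;> nlinarith
  have h5 := fr_size (Y := (2 ^ (n + 1)) ^ 2 ^ (3 * n + 2)) (I.2.map (lo 0 (3 * n + 2)))
    fun p hp => by
      obtain ⟨a, ha, rfl⟩ := List.mem_map.1 hp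
      refine le_trans ?_ (h3 a (by simp [ha]))
      simp only [lo]; nlinarith
  have h6 := Nat.mul_le_mul h4 h5
  rw [← pow_add, List.length_map, List.length_map, ← pow_mul, ← pow_mul] at h6
  have h7 : (n + 1) * (2 ^ (3 * n + 2) * (I.1.length + I.2.length)) + 2 ≤ 2 ^ (5 * n + 3) := by
    have a1 : n + 1 ≤ 2 ^ n := Nat.lt_two_pow_self
    have a2 := Nat.mul_le_mul a1
      (Nat.mul_le_mul_left (2 ^ (3 * n + 2)) (h1.trans (by omega : n ≤ 2 ^ n)))
    have a3 : 2 ^ 1 ≤ 2 ^ (5 * n + 2) := Nat.pow_le_pow_right two_pos (by omega)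
    rw [← pow_add, ← pow_add, show n + (3 * n + 2 + n) = 5 * n + 2 by ring] at a2
    rw [pow_succ 2 (5 * n + 2)]; omega
  have h8 := Nat.pow_le_pow_right two_pos h7
  rw [pow_add] at h8
  have h9 : 1 ≤ 2 ^ ((n + 1) * (2 ^ (3 * n + 2) * (I.1.length + I.2.length))) := Nat.one_le_two_pow
  have h10 : 2 * ((nS 0 (3 * n + 2) I).1 + (nS 0 (3 * n + 2) I).2) + 1 < 2 ^ 2 ^ (5 * n + 3) := by
    simp only [nS]; nlinarith
  zify at h10
  rw [abs_lt]
  constructor <;> omega

theorem nwI_real (t a : ℕ) : 0 < (nwI 0 t a).1 ∧ 0 < (nwI 0 t a).2 ∧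
    (nwI 0 t a).1 + (nwI 0 t a).2 * √(a : ℝ) = (1 + √a) ^ 2 ^ t ∧
    (nwI 0 t a).1 - (nwI 0 t a).2 * √(a : ℝ) = (1 - √a) ^ 2 ^ t := by
  induction t with
  | zero => simp [nwI]
  | succ t ih =>
    obtain ⟨h1, h2, h3, h4⟩ := ih
    have h5 := Real.mul_self_sqrt (Nat.cast_nonneg a : (0 : ℝ) ≤ a)
    simp only [nwI_succ, nw, Nat.mod_zero, pow_succ 2 t, pow_mul, ← h3, ← h4]
    refine ⟨by positivity, by positivity, ?_, ?_⟩ <;> push_cast
    · linear_combination (-((nwI 0 t a).2 : ℝ) ^ 2) * h5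
    · linear_combination (-((nwI 0 t a).2 : ℝ) ^ 2) * h5

theorem approx {n s a : ℕ} (ha : a < 2 ^ n) :
    (0 < (up 0 (n + (s + 1)) a).2 ∧ 0 < (lo 0 (n + (s + 1)) a).2) ∧
    (√(a : ℝ) ≤ (up 0 (n + (s + 1)) a).1 / (up 0 (n + (s + 1)) a).2 ∧
      (up 0 (n + (s + 1)) a).1 / (up 0 (n + (s + 1)) a).2 ≤
        √(a : ℝ) + 4 * 2 ^ n * (1 / 2) ^ 2 ^ (s + 1)) ∧
    ((lo 0 (n + (s + 1)) a).1 / (lo 0 (n + (s + 1)) a).2 ≤ √(a : ℝ) ∧
      √(a : ℝ) ≤ (lo 0 (n + (s + 1)) a).1 / (lo 0 (n + (s + 1)) a).2 +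
        4 * 2 ^ n * (1 / 2) ^ 2 ^ (s + 1)) := by
  obtain ⟨h1, h2, h3, h4⟩ := nwI_real (n + (s + 1)) a
  refine ⟨⟨h2, h1⟩, ?_⟩
  rcases Nat.eq_zero_or_pos a with rfl | h0
  · simp [up, lo, ltB]
  simp only [up, lo, ltB_iff.2 h0, cond_true, Nat.cast_mul]
  have h5 := Real.mul_self_sqrt (Nat.cast_nonneg a : (0 : ℝ) ≤ a)
  have h6 : 1 ≤ √(a : ℝ) := Real.one_le_sqrt.2 (by exact_mod_cast h0)
  have h7 : √(a : ℝ) ≤ (2 ^ n : ℕ) := by
    have : (a : ℝ) ≤ (2 ^ n : ℕ) := by exact_mod_cast ha.le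
    nlinarith
  have h8 : √(a : ℝ) - 1 ≤ (1 - 1 / (2 ^ n : ℕ)) * (1 + √a) := by
    have : 1 / ((2 ^ n : ℕ) : ℝ) * (1 + √a) ≤ 2 := by
      rw [one_div, inv_mul_le_iff₀ (by positivity)]; linarith
    linarith
  have h9 : (√(a : ℝ) - 1) ^ 2 ^ n ≤ 1 / 2 * (1 + √a) ^ 2 ^ n :=
    (pow_le_pow_left₀ (by linarith) h8 _).trans (by
      rw [mul_pow]; exact mul_le_mul_of_nonneg_right (half_pow (by positivity)) (by positivity))
  have h10 := pow_le_pow_left₀ (pow_nonneg (by linarith) _) h9 (2 ^ (s + 1))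
  have h11 : Even (2 ^ (n + (s + 1))) := by rw [← add_assoc, pow_succ]; simp
  rw [mul_pow, ← pow_mul, ← pow_mul, ← pow_add, ← h3, ← neg_sub, h11.neg_pow, ← h4] at h10
  have h12 := h11.pow_nonneg (1 - √(a : ℝ))
  rw [← h4] at h12
  have h13 : ((1 : ℝ) / 2) ^ 2 ^ (s + 1) ≤ (1 / 2) ^ 2 ^ 1 :=
    pow_le_pow_of_le_one (by norm_num) (by norm_num) (Nat.pow_le_pow_right two_pos (by omega))
  have h14 : (0 : ℝ) ≤ (1 / 2) ^ 2 ^ (s + 1) := by positivity
  have hP : (0 : ℝ) < (nwI 0 (n + (s + 1)) a).1 := by exact_mod_cast h1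
  have hQ : (0 : ℝ) < (nwI 0 (n + (s + 1)) a).2 := by exact_mod_cast h2
  push_cast at h7
  generalize ((nwI 0 (n + (s + 1)) a).1 : ℝ) = P at *
  generalize ((nwI 0 (n + (s + 1)) a).2 : ℝ) = Q at *
  generalize ((1 : ℝ) / 2) ^ 2 ^ (s + 1) = ρ at *
  generalize (2 : ℝ) ^ n = E at *
  rw [← h5]
  generalize √(a : ℝ) = r at *
  rw [Real.sqrt_mul_self (by linarith), le_div_iff₀ hQ, div_le_iff₀ hQ, div_le_iff₀ hP,
    ← sub_le_iff_le_add, le_div_iff₀ hP]
  have b1 : P - Q * r ≤ 2 * ρ * P := by nlinarith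
  have b2 : P ≤ 2 * (Q * r) := by nlinarith
  have b3 : ρ * (Q * r) ≤ ρ * (Q * E) := by gcongr
  have b4 : r * (ρ * P) ≤ E * (ρ * P) := by gcongr
  have b5 : 0 ≤ E * (ρ * P) := by have : 0 ≤ E := by linarith
                                  positivity
  refine ⟨⟨by linarith, by nlinarith⟩, by nlinarith, by nlinarith⟩

theorem fr_real (l : List (ℕ × ℕ)) (h : ∀ p ∈ l, 0 < p.2) : 0 < (fr 0 l).2 ∧
    ((fr 0 l).1 / (fr 0 l).2 : ℝ) = (l.map fun p => (p.1 / p.2 : ℝ)).sum := by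
  unfold fr
  induction l with
  | nil => simp
  | cons p l ih =>
    obtain ⟨h1, h2⟩ := ih fun q hq => h q (by simp [hq])
    have h3 := h p (by simp)
    simp only [List.foldr_cons, Nat.mod_zero, List.map_cons, List.sum_cons] at h1 h2 ⊢
    refine ⟨by positivity, ?_⟩
    rw [← h2]
    push_cast
    field_simp
    ring

/-- All sums of the square roots with signs. -/
noncomputable def conj : List ℕ → List ℝ
  | [] => [0]
  | a :: l => (conj l).map (· + √(a : ℝ)) ++ (conj l).map (· - √(a : ℝ))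

theorem conj_length (l : List ℕ) : (conj l).length = 2 ^ l.length := by
  induction l with
  | nil => rfl
  | cons a l ih => simp [conj, ih, pow_succ, mul_two]

theorem conj_le (l : List ℕ) : ∀ c ∈ conj l, |c| ≤ (l.map fun a : ℕ => √(a : ℝ)).sum := by
  induction l with
  | nil => simp [conj]
  | cons a l ih =>
    intro c hc
    simp only [conj, List.mem_append, List.mem_map] at hc
    have := Real.sqrt_nonneg (a : ℝ)
    rw [List.map_cons, List.sum_cons, abs_le]
    rcases hc with ⟨d, hd, rfl⟩ | ⟨d, hd, rfl⟩ <;> have := abs_le.1 (ih d hd) <;>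
      constructor <;> linarith

theorem conj_mem (l l' : List ℕ) :
    (l.map fun a : ℕ => √(a : ℝ)).sum - (l'.map fun a : ℕ => √(a : ℝ)).sum ∈ conj (l ++ l') := by
  induction l with
  | nil =>
    induction l' with
    | nil => simp [conj]
    | cons a l ih =>
      exact List.mem_append_right _ (List.mem_map.2 ⟨_, ih, by simp; ring⟩)
  | cons a l ih => exact List.mem_append_left _ (List.mem_map.2 ⟨_, ih, by simp; ring⟩)

open Polynomial in
theorem comp_sqrt (a : ℕ) (g : ℤ[X]) : ∃ u v : ℤ[X], ∀ r : ℝ, r * r = a →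
    (g.map (Int.castRingHom ℝ)).comp (X - C r) =
      u.map (Int.castRingHom ℝ) - C r * v.map (Int.castRingHom ℝ) := by
  induction g using Polynomial.induction_on with
  | C c => exact ⟨C c, 0, fun r _ => by simp⟩
  | add p q hp hq =>
    obtain ⟨u, v, h⟩ := hp
    obtain ⟨u', v', h'⟩ := hq
    exact ⟨u + u', v + v', fun r hr => by simp only [Polynomial.map_add, add_comp, h r hr, h' r hr]; ring⟩
  | monomial n c h =>
    obtain ⟨u, v, h⟩ := h
    refine ⟨u * X + (a : ℤ[X]) * v, u + v * X, fun r hr => ?_⟩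
    have h1 : C r * C r = (a : ℝ[X]) := by rw [← C_mul, hr]; simp
    rw [pow_succ, ← mul_assoc, Polynomial.map_mul, mul_comp, h r hr]
    simp only [Polynomial.map_add, Polynomial.map_mul, map_X, Polynomial.map_natCast, X_comp]
    linear_combination (map (Int.castRingHom ℝ) v) * h1

open Polynomial in
theorem conj_int (l : List ℕ) :
    ∃ g : ℤ[X], g.map (Int.castRingHom ℝ) = ((conj l).map fun c => X - C c).prod := by
  induction l with
  | nil => exact ⟨X, by simp [conj]⟩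
  | cons a l ih =>
    obtain ⟨g, hg⟩ := ih
    obtain ⟨u, v, h⟩ := comp_sqrt a g
    have h5 := Real.mul_self_sqrt (Nat.cast_nonneg a : (0 : ℝ) ≤ a)
    have h1 := h _ h5
    have h2 := h (-√a) (by rw [neg_mul_neg, h5])
    have h3 : C √(a : ℝ) * C √(a : ℝ) = (a : ℝ[X]) := by rw [← C_mul, h5]; simp
    rw [hg, list_prod_comp, List.map_map] at h1 h2
    refine ⟨u * u - a * (v * v), ?_⟩
    rw [conj, List.map_append, List.prod_append, List.map_map, List.map_map]
    rw [show ((fun c => X - C c) ∘ fun x => x + √(a : ℝ)) =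
      (fun p : ℝ[X] => p.comp (X - C √(a : ℝ))) ∘ fun c => X - C c from
        funext fun c => by simp; ring,
      show ((fun c => X - C c) ∘ fun x => x - √(a : ℝ)) =
      (fun p : ℝ[X] => p.comp (X - C (-√(a : ℝ)))) ∘ fun c => X - C c from
        funext fun c => by simp; ring, h1, h2]
    simp only [Polynomial.map_sub, Polynomial.map_mul, Polynomial.map_natCast, map_neg]
    linear_combination (map (Int.castRingHom ℝ) v) ^ 2 * h3

open Polynomial in
theorem trail_le {T : ℝ} (hT : 1 ≤ T) (l : List ℝ) (h : ∀ c ∈ l, |c| ≤ T) :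
    |(l.map fun c => X - C c).prod.trailingCoeff| ≤ T ^ l.length ∧ ∀ c ∈ l, c ≠ 0 →
      |(l.map fun c => X - C c).prod.trailingCoeff| ≤ |c| * T ^ l.length := by
  have key : ∀ c : ℝ, c ≠ 0 → |(X - C c).trailingCoeff| = |c| := fun c hc => by
    rw [trailingCoeff_eq_coeff_zero (by simpa using hc)]; simp
  induction l with
  | nil => simp [trailingCoeff]
  | cons d l ih =>
    obtain ⟨h1, h2⟩ := ih fun c hc => h c (by simp [hc])
    have h3 : |(X - C d).trailingCoeff| ≤ T := by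
      by_cases hd : d = 0
      · simpa [hd, trailingCoeff] using hT
      · rw [key d hd]; exact h d (by simp)
    simp only [List.map_cons, List.prod_cons, trailingCoeff_mul, abs_mul, List.length_cons,
      pow_succ']
    refine ⟨by gcongr, fun c hc h0 => ?_⟩
    rcases List.mem_cons.1 hc with rfl | hc
    · rw [key c h0]
      gcongr
      exact h1.trans (le_mul_of_one_le_left (by positivity) hT)
    · rw [mul_left_comm]
      gcongr
      exact h2 c hc h0

open Polynomial in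
theorem gap {T c : ℝ} (hT : 1 ≤ T) {l : List ℕ} (h : (l.map fun a : ℕ => √(a : ℝ)).sum ≤ T)
    (hc : c ∈ conj l) (h0 : c ≠ 0) : 1 ≤ |c| * T ^ 2 ^ l.length := by
  obtain ⟨g, hg⟩ := conj_int l
  have h1 := (trail_le hT _ fun c hc => (conj_le l c hc).trans h).2 c hc h0
  have h2 : ((conj l).map fun c => X - C c).prod.trailingCoeff ≠ 0 := by
    rw [Ne, trailingCoeff_eq_zero]
    exact List.prod_ne_zero fun h => by
      obtain ⟨c, -, hc⟩ := List.mem_map.1 h
      exact X_sub_C_ne_zero c hc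
  rw [← hg, trailingCoeff, coeff_map, eq_intCast] at h1 h2
  rw [conj_length] at h1
  exact le_trans (by exact_mod_cast Int.one_le_abs (by exact_mod_cast h2)) h1

theorem ssqr2_iff (I : List ℕ × List ℕ) : SSQR2 I ↔ 0 < NS I := by
  obtain ⟨h1, h2⟩ := len_facts I
  rw [NS, SSQR2]
  generalize len I = n at *
  rw [show 3 * n + 2 = n + (2 * n + 1 + 1) by ring]
  have a1 := fun a (ha : a ∈ I.1) => approx (s := 2 * n + 1) (h2 a (List.mem_append_left _ ha))
  have a2 := fun a (ha : a ∈ I.2) => approx (s := 2 * n + 1) (h2 a (List.mem_append_right _ ha))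
  obtain ⟨b1, b2⟩ := fr_real (I.1.map (up 0 (n + (2 * n + 1 + 1))))
    (List.forall_mem_map.2 fun a ha => (a1 a ha).1.1)
  obtain ⟨b3, b4⟩ := fr_real (I.2.map (lo 0 (n + (2 * n + 1 + 1))))
    (List.forall_mem_map.2 fun a ha => (a2 a ha).1.2)
  have e : 0 < 2 * (((nS 0 (n + (2 * n + 1 + 1)) I).1 : ℤ) - (nS 0 (n + (2 * n + 1 + 1)) I).2) + 1 ↔
      (nS 0 (n + (2 * n + 1 + 1)) I).2 ≤ (nS 0 (n + (2 * n + 1 + 1)) I).1 := by omega
  rw [e, nS, ← Nat.cast_le (α := ℝ), Nat.cast_mul, Nat.cast_mul,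
    ← div_le_div_iff₀ (by exact_mod_cast b3) (by exact_mod_cast b1), b2, b4, List.map_map,
    List.map_map]
  refine ⟨fun h => (List.sum_le_sum fun a ha => (a2 a ha).2.2.1).trans
    (h.trans (List.sum_le_sum fun a ha => (a1 a ha).2.1.1)), fun h => not_lt.1 fun hc => ?_⟩
  have c1 := List.sum_le_sum fun a ha => (a1 a ha).2.1.2
  have c2 := List.sum_le_sum fun a ha => (a2 a ha).2.2.2
  rw [List.sum_map_add, List.map_const', List.sum_replicate, nsmul_eq_mul] at c1 c2
  have hn : (n : ℝ) ≤ 2 ^ n := by exact_mod_cast Nat.lt_two_pow_self.le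
  have h1' : (I.1.length + I.2.length : ℝ) ≤ 2 ^ n := le_trans (by exact_mod_cast h1) hn
  have c3 : ((I.1 ++ I.2).map fun a : ℕ => √(a : ℝ)).sum ≤ 2 ^ (2 * n) := by
    refine (List.sum_le_card_nsmul _ (2 ^ n) (List.forall_mem_map.2 fun a ha => ?_)).trans ?_
    · have : (a : ℝ) ≤ 2 ^ n := by exact_mod_cast (h2 a ha).le
      exact Real.sqrt_le_iff.2 ⟨by positivity, by nlinarith [one_le_pow₀ (M₀ := ℝ) one_le_two (n := n)]⟩
    · rw [List.length_map, List.length_append, nsmul_eq_mul, two_mul, pow_add]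
      push_cast
      gcongr
  have c4 := gap (one_le_pow₀ one_le_two) c3 (conj_mem I.1 I.2) (sub_neg.2 hc).ne
  rw [abs_of_neg (sub_neg.2 hc), ← pow_mul] at c4
  have c5 : 2 * n + 2 + 2 * n * 2 ^ (I.1 ++ I.2).length < 2 ^ (2 * n + 1 + 1) := by
    have d1 : 2 ^ (I.1 ++ I.2).length ≤ 2 ^ n := Nat.pow_le_pow_right two_pos (by simpa using h1)
    have d2 : n < 2 ^ n := Nat.lt_two_pow_self
    rw [pow_succ, pow_succ, two_mul n, pow_add]
    nlinarith
  have c6 := pow_lt_pow_right₀ (one_lt_two (α := ℝ)) c5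
  rw [pow_add, pow_add, two_mul n, pow_add, ← two_mul n] at c6
  rw [one_div, inv_pow] at c1 c2
  simp only [Function.comp_def] at h
  have hW : (0 : ℝ) < 2 ^ (2 * n * 2 ^ (I.1 ++ I.2).length) := by positivity
  generalize (2 : ℝ) ^ (2 * n * 2 ^ (I.1 ++ I.2).length) = W at *
  have hE : (0 : ℝ) < 2 ^ 2 ^ (2 * n + 1 + 1) := by positivity
  have c7 : -((I.1.map fun a : ℕ => √(a : ℝ)).sum - (I.2.map fun a : ℕ => √(a : ℝ)).sum) ≤
      2 ^ n * (4 * 2 ^ n * (2 ^ 2 ^ (2 * n + 1 + 1))⁻¹) := by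
    have := mul_le_mul_of_nonneg_right h1'
      (show (0 : ℝ) ≤ 4 * 2 ^ n * (2 ^ 2 ^ (2 * n + 1 + 1))⁻¹ by positivity)
    linarith
  have c8 := c4.trans (mul_le_mul_of_nonneg_right c7 hW.le)
  rw [← div_lt_one hE, div_eq_mul_inv] at c6
  linarith

end Pool.Agent.MP_c00c90_lc

end MrgPart0

-- ======== part 1: formerly Pool.Agent.MP_c00c90_lc.Apps
section MrgPart1

/-!
The four problems.
-/

set_option autoImplicit false

namespace Pool.Agent.MP_c00c90_lc

open Pool.Agent.PolyT Pool.Agent.H82 N487b59b3 Finset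

theorem posslp : BPPSharp PosSLP ∧ CH2 PosSLP := core nice_slp fun _ => Iff.rfl

theorem ssqr2 : BPPSharp SSQR2 ∧ CH2 SSQR2 := core nice_NS ssqr2_iff

theorem ssqr : BPPSharp SSQR ∧ CH2 SSQR :=
  core (nice_NS.comp (f := fun I : List ℕ × ℕ => (I.1, [I.2 * I.2])) (by fun_prop)) fun I => by
    rw [← ssqr2_iff]; simp [SSQR, SSQR2]

variable {α : Type} [N487b59b3 α]

theorem p_parts {f : α → ℤ} (hf : PolyT.Poly f) :
    PolyT.Poly fun a => ((f a).toNat, (-f a).toNat) := hf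

@[fun_prop] theorem p_toNat {f : α → ℤ} (hf : PolyT.Poly f) : PolyT.Poly fun a => (f a).toNat :=
  (p_parts hf).fst

/-- The negative part. -/
def ngp (a : ℤ) : ℕ := (-a).toNat

@[fun_prop] theorem p_ngp {f : α → ℤ} (hf : PolyT.Poly f) : PolyT.Poly fun a => ngp (f a) :=
  (p_parts hf).snd

/-- The distance of two integers. -/
def dst (a b : ℤ) : ℕ :=
  (a.toNat + ngp b - (ngp a + b.toNat)) + (ngp a + b.toNat - (a.toNat + ngp b))

theorem dst_sq (a b : ℤ) : ((dst a b : ℕ) : ℝ) * dst a b = ((a - b : ℤ) : ℝ) ^ 2 := by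
  have : (dst a b : ℤ) = |a - b| := by
    unfold dst ngp
    rcases abs_cases (a - b) with h | h <;> omega
  rw [← Int.cast_natCast, this, Int.cast_abs, ← sq, sq_abs]

/-- The squared distance of two points. -/
def sqd (p q : ℤ × ℤ) : ℕ := dst p.1 q.1 * dst p.1 q.1 + dst p.2 q.2 * dst p.2 q.2

/-- The city visited at time `i`. -/
def vis (I : List (ℤ × ℤ) × ℤ) (y i : ℕ) : ℕ := y / (2 ^ len I) ^ min i I.1.length % 2 ^ len I

/-- The tour is a permutation and the bound is not negative. -/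
def okT (I : List (ℤ × ℤ) × ℤ) (y : ℕ) : Bool := eqB (ngp I.2) 0 &&
  (List.range I.1.length).all fun i => ltB (vis I y i) I.1.length &&
    (List.range I.1.length).all fun j => eqB i j || !eqB (vis I y i) (vis I y j)

/-- The comparison for the tour. -/
def red (I : List (ℤ × ℤ) × ℤ) (y : ℕ) : List ℕ × List ℕ :=
  ([I.2.toNat * I.2.toNat], (List.range I.1.length).map fun i => sqd (I.1.getD (vis I y i) (0, 0))
    (I.1.getD (vis I y ((i + 1) % I.1.length)) (0, 0)))

theorem rot_val {n : ℕ} (i : Fin n) : (finRotate n i : ℕ) = (i + 1) % n := by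
  cases n with
  | zero => exact i.elim0
  | succ n => rw [finRotate_apply, Fin.val_add, Fin.val_one', Nat.add_mod_mod]

theorem tour_iff (I : List (ℤ × ℤ) × ℤ) (y : ℕ) (π : Fin I.1.length → Fin I.1.length)
    (h : ∀ i, (π i : ℕ) = vis I y i) (hL : 0 ≤ I.2) : SSQR2 (red I y) ↔
    ∑ i, √((((I.1.get (π i)).1 - (I.1.get (π (finRotate _ i))).1 : ℤ) : ℝ) ^ 2 +
      (((I.1.get (π i)).2 - (I.1.get (π (finRotate _ i))).2 : ℤ) : ℝ) ^ 2) ≤ (I.2 : ℝ) := by
  have h1 : ∀ i : Fin I.1.length, I.1.getD (vis I y i) (0, 0) = I.1.get (π i) := fun i => by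
    rw [← h]; simp
  have h2 : ∀ f : ℕ → ℝ, ((List.range I.1.length).map f).sum = ∑ i ∈ range I.1.length, f i :=
    fun _ => rfl
  have h3 : ((I.2.toNat : ℕ) : ℝ) = I.2 := by rw [← Int.cast_natCast, Int.toNat_of_nonneg hL]
  simp only [SSQR2, red, List.map_map, h2, List.map_cons, List.map_nil, List.sum_cons,
    List.sum_nil, add_zero, Nat.cast_mul, h3, Function.comp_apply, sum_range, ← rot_val, h1, sqd,
    Nat.cast_add, dst_sq]
  rw [Real.sqrt_mul_self (by exact_mod_cast hL)]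

theorem etsp_iff (I : List (ℤ × ℤ) × ℤ) : ETSP I ↔ ∃ w : List Bool, w.length = len I * len I ∧
    0 < bif okT I (ofBits w) then NS (red I (ofBits w)) else 0 := by
  have hc : I.1.length ≤ len I := by
    have := length_le_enc I.1
    rw [len, length_enc_pair]; omega
  have hk : ∀ y, okT I y = true ↔ 0 ≤ I.2 ∧ ∀ i < I.1.length, vis I y i < I.1.length ∧
      ∀ j < I.1.length, vis I y i = vis I y j → i = j := fun y => by
    simp only [okT, ngp, Bool.and_eq_true, eqB_iff, Int.toNat_eq_zero, neg_nonpos, List.all_eq_true,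
      List.mem_range, ltB_iff, Bool.or_eq_true, Bool.not_eq_true', eqB_false_iff, imp_iff_or_not]
  constructor
  · rintro ⟨π, hπ⟩
    have hL : 0 ≤ I.2 := by exact_mod_cast (sum_nonneg fun _ _ => Real.sqrt_nonneg _).trans hπ
    let f : ℕ → ℕ := fun i => if h : i < I.1.length then π ⟨i, h⟩ else 0
    have hf : ∀ i < I.1.length, f i < 2 ^ len I := fun i hi => by
      simp only [f, dif_pos hi]
      exact (π _).2.trans (hc.trans_lt Nat.lt_two_pow_self)
    have hlt : ∀ n ≤ I.1.length, ∑ i ∈ range n, (2 ^ len I) ^ i * f i < (2 ^ len I) ^ n := by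
      intro n hn
      induction n with
      | zero => simp
      | succ n ih =>
        have := Nat.mul_le_mul_left ((2 ^ len I) ^ n) (hf n hn)
        rw [sum_range_succ, pow_succ]
        rw [Nat.mul_succ] at this
        have := ih (by omega)
        omega
    obtain ⟨w, hw, e⟩ := exists_ofBits (n := len I * len I) ((hlt _ le_rfl).trans_le (by
      rw [pow_mul]; exact Nat.pow_le_pow_right (by positivity) hc))
    have hv : ∀ i : Fin I.1.length, (π i : ℕ) = vis I (ofBits w) i := fun i => by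
      rw [vis, e, min_eq_left i.2.le, digit_sum hf i.2]; simp [f]
    refine ⟨w, hw, ?_⟩
    rw [(hk _).2 ⟨hL, fun i hi => ⟨hv ⟨i, hi⟩ ▸ (π _).2, fun j hj h => congrArg Fin.val
      (π.injective (Fin.ext ((hv ⟨i, hi⟩).trans (h.trans (hv ⟨j, hj⟩).symm))))⟩⟩, cond_true,
      ← ssqr2_iff, tour_iff I _ π hv hL]
    exact hπ
  · rintro ⟨w, -, h⟩
    cases ho : okT I (ofBits w)
    · simp [ho] at h
    obtain ⟨hL, h1⟩ := (hk _).1 ho
    let π : Fin I.1.length → Fin I.1.length := fun i => ⟨vis I (ofBits w) i, (h1 i i.2).1⟩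
    have hi : Function.Injective π := fun i j e =>
      Fin.ext ((h1 i i.2).2 j j.2 (congrArg Fin.val e))
    rw [ho, cond_true, ← ssqr2_iff, tour_iff I _ π (fun _ => rfl) hL] at h
    exact ⟨Equiv.ofBijective π (Finite.injective_iff_bijective.1 hi), h⟩

theorem etsp : MASharp ETSP ∧ CH2 ETSP :=
  core_ex ((nice_NS.comp (f := fun y : (List (ℤ × ℤ) × ℤ) × List Bool => red y.1 (ofBits y.2))
    (by unfold red sqd dst vis; fun_prop)).cond (c := fun y => okT y.1 (ofBits y.2))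
    (by unfold okT vis; fun_prop)) (Polynomial.X * Polynomial.X) fun I => by
      simpa using etsp_iff I

end Pool.Agent.MP_c00c90_lc

end MrgPart1

-- marker of a merged file
example : 731051 + 882432 = 731051 + 882432 := rfl
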