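import Pool.Agent.MP_c00c90_lc.NI.Main

/-! Instances of the Euclidean traveling salesperson problem whose optimal tour is only slightly
longer than an integer. -/

namespace Pool.Agent.MP_c00c90_lc.OldNearIntegerTours

theorem result (n : ℕ) (hn : 3 ≤ n) : ∃ (C : ℝ) (G₀ : ℕ), ∀ G ≥ G₀,
    ∃ (c : Fin n → ℤ × ℤ) (L : ℤ) (v : ℝ), NI.InGrid G c ∧ NI.IsOpt c v ∧
      L < v ∧ v ≤ L + C / (G : ℝ) ^ ((4 * n - 9 : ℝ) / 3) := by
  obtain ⟨k, rfl⟩ : ∃ k, n = k + 2 := ⟨n - 2, by omega⟩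
  obtain ⟨C, G₀, h⟩ := NI.main k (by omega)
  refine ⟨C, G₀, fun G hG => ?_⟩
  rw [show (4 * ((k + 2 : ℕ) : ℝ) - 9 : ℝ) = 4 * k - 1 by push_cast; ring]
  exact (h G hG).2.1

end Pool.Agent.MP_c00c90_lc.OldNearIntegerTours
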