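import Pool.Agent.MP_c00c90_lc.Classes
import Pool.Agent.MP_c00c90_lc.Apps

-- ======== part 0: formerly Pool.Agent.MP_c00c90_lc.Oracle
section MrgPart0

/-!
Functions computable in polynomial time with counting queries: closure under composition and
bounded loops.
-/

set_option autoImplicit false

namespace Pool.Agent.MP_c00c90_lc

open Pool.Agent.PolyT Pool.Agent.H82 N487b59b3 Finset

variable {α β γ σ : Type} [N487b59b3 α] [N487b59b3 β] [N487b59b3 γ] [N487b59b3 σ]

/-- The run of a machine that asks one query in each step. -/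
def run {α σ : Type} (i : α → σ) (F : α × σ → ℕ) (s : α × σ × ℕ → σ) (x : α) : ℕ → σ
  | 0 => i x
  | t + 1 => s (x, run i F s x t, F (x, run i F s x t))

/-- Polynomial time with counting queries. -/
@[fun_prop] def FS (f : α → β) : Prop :=
  ∃ (σ : Type) (_ : N487b59b3 σ) (i : α → σ) (F : α × σ → ℕ) (s : α × σ × ℕ → σ)
    (o : α × σ → β) (u : α → ℕ), PolyT.Poly i ∧ Sharp F ∧ PolyT.Poly s ∧ PolyT.Poly o ∧ Un u ∧
      Bd (fun y : α × ℕ => bitEncode y.1) (fun y => len (run i F s y.1 y.2)) ∧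
      ∀ x t, u x ≤ t → f x = o (x, run i F s x t)

theorem len_prod (a : α) (b : β) : len (a, b) = 2 * len a + 1 + len b := length_enc_pair _

theorem len_mono {a b : ℕ} (h : a ≤ b) : len a ≤ len b := length_enc_nat_mono h

section bd

variable {ι : Type} {e : ι → List Bool}

theorem bd_pair {a : ι → α} {b : ι → β} (ha : Bd e fun y => len (a y))
    (hb : Bd e fun y => len (b y)) : Bd e fun y => len (a y, b y) :=
  ((((Bd.const 2).mul ha).add (Bd.const 1)).add hb).of_le fun _ => (len_prod _ _).le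

theorem bd_of {t : α → ℕ} (h : Bd bitEncode t) {a : ι → α} (ha : Bd e fun y => len (a y)) :
    Bd e fun y => t (a y) := Bd.trans ha (h.reindex a)

theorem bd_run {r : α → ℕ → σ} (h : Bd (fun y : α × ℕ => bitEncode y.1) fun y => len (r y.1 y.2))
    {a : ι → α} (ha : Bd e fun y => len (a y)) (c : ι → ℕ) : Bd e fun y => len (r (a y) (c y)) :=
  Bd.trans ha (h.reindex fun y => (a y, c y))

end bd

theorem FS.bd {f : α → β} (h : FS f) : Bd bitEncode fun x => len (f x) := by
  obtain ⟨σ, _, i, F, s, o, u, -, -, -, ho, -, hb, h⟩ := h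
  exact (bd_of ho.bd (bd_pair Bd.len (bd_run hb Bd.len u))).of_le fun x => by
    rw [h x _ le_rfl]; rfl

theorem FS.congr {f g : α → β} (h : FS f) (e : ∀ x, f x = g x) : FS g := by
  rw [← funext e]; exact h

theorem FS.sharp {F : α → ℕ} (hF : Sharp F) : FS F := by
  obtain ⟨p, hp⟩ := hF.le
  refine ⟨ℕ, inferInstance, fun _ => 0, fun y => F y.1, fun y => y.2.2, fun y => y.2, fun _ => 1,
    by fun_prop, hF.comp (by fun_prop), by fun_prop, by fun_prop, by fun_prop,
    ((Bd.len.eval p).add (Bd.const 1)).of_le fun y => length_enc_nat_le ?_, fun x t ht => ?_⟩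
  · refine lt_of_le_of_lt ?_ ((hp y.1).trans_lt (Nat.pow_lt_pow_right one_lt_two (lt_add_one _)))
    cases y.2 <;> simp [run]
  · obtain ⟨t, rfl⟩ := Nat.exists_eq_add_of_le' ht
    rfl

@[fun_prop] theorem FS.poly {f : α → β} (hf : PolyT.Poly f) : FS f :=
  ⟨ℕ, inferInstance, fun _ => 0, fun _ => 0, fun _ => 0, fun y => f y.1, fun _ => 0, by fun_prop,
    Sharp.poly (by fun_prop), by fun_prop, by fun_prop, by fun_prop,
    (Bd.const (len 0)).of_le fun y => by cases y.2 <;> rfl, fun _ _ _ => rfl⟩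

theorem FS.seq {f : α → β} {g : α × β → γ} (hf : FS f) (hg : FS g) :
    FS fun x => g (x, f x) := by
  have hfb := hf.bd
  obtain ⟨σ, _, i, F, s, o, u, hi, hF, hs, ho, hu, hb, h⟩ := hf
  obtain ⟨σ', _, i', F', s', o', u', hi', hF', hs', ho', hu', hb', h'⟩ := hg
  obtain ⟨p, hp⟩ := bd_of hu'.bd (bd_pair Bd.len hfb)
  have := hu.poly
  let I : α → σ × σ' × ℕ := fun x => (i x, i' (x, o (x, i x)), 0)
  let G : α × σ × σ' × ℕ → ℕ := fun y => bif ltB y.2.2.2 (u y.1) then F (y.1, y.2.1) else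
    F' ((y.1, o (y.1, y.2.1)), y.2.2.1)
  let S : α × (σ × σ' × ℕ) × ℕ → σ × σ' × ℕ := fun y => bif ltB y.2.1.2.2 (u y.1) then
    (s (y.1, y.2.1.1, y.2.2), i' (y.1, o (y.1, s (y.1, y.2.1.1, y.2.2))), y.2.1.2.2 + 1) else
    (y.2.1.1, s' ((y.1, o (y.1, y.2.1.1)), y.2.1.2.1, y.2.2), y.2.1.2.2)
  have key : ∀ x t, run I G S x t = (run i F s x (min t (u x)),
      run i' F' s' (x, o (x, run i F s x (min t (u x)))) (t - u x), min t (u x)) := by
    intro x t
    induction t with
    | zero => simp [run, I]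
    | succ t ih =>
      rw [run, ih]
      rcases lt_or_ge t (u x) with h | h
      · simp [S, G, ltB_iff.2 h, min_eq_left h.le, min_eq_left (Nat.succ_le_of_lt h), run,
          Nat.sub_eq_zero_of_le (Nat.succ_le_of_lt h)]
      · simp [S, G, ltB, min_eq_right h, min_eq_right (h.trans (Nat.le_succ t)), run,
          Nat.succ_sub h]
  have b0 : Bd (fun y : α × ℕ => bitEncode y.1) fun y => len y.1 := Bd.len
  have b1 := bd_run hb b0 fun y => min y.2 (u y.1)
  refine ⟨_, inferInstance, I, G, S, fun y => o' ((y.1, o (y.1, y.2.1)), y.2.2.1),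
    fun x => u x + p.eval (len x), by fun_prop, Sharp.cond (by fun_prop) (hF.comp (by fun_prop))
      (hF'.comp (by fun_prop)), by fun_prop, by fun_prop, by fun_prop, ?_, fun x t ht => ?_⟩
  · simp only [key]
    exact bd_pair b1 (bd_pair (bd_run hb' (bd_pair b0 (bd_of ho.bd (bd_pair b0 b1))) _)
      ((bd_of (PolyT.Poly.bd this) b0).of_le fun y => len_mono (min_le_right _ _)))
  · have h1 : u' (x, f x) ≤ p.eval (len x) := hp x
    have ht : u x + p.eval (len x) ≤ t := ht
    simp only [key, min_eq_right (show u x ≤ t by omega), ← h x _ le_rfl]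
    exact h' _ _ (by omega)

theorem FS.pre {g : β → γ} {f : α → β} (hg : FS g) (hf : PolyT.Poly f) :
    FS fun x => g (f x) := by
  obtain ⟨σ, _, i, F, s, o, u, hi, hF, hs, ho, hu, hb, h⟩ := hg
  have key : ∀ x t, run (fun x => i (f x)) (fun y => F (f y.1, y.2)) (fun y => s (f y.1, y.2)) x t =
      run i F s (f x) t := by
    intro x t
    induction t with
    | zero => rfl
    | succ t ih => simp only [run, ih]
  refine ⟨σ, inferInstance, fun x => i (f x), fun y => F (f y.1, y.2), fun y => s (f y.1, y.2),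
    fun y => o (f y.1, y.2), fun x => u (f x), by fun_prop, hF.comp (by fun_prop), by fun_prop,
    by fun_prop, by fun_prop, ?_, fun x t ht => ?_⟩ <;> simp only [key]
  · exact bd_run hb (bd_of hf.bd Bd.len) _
  · exact h _ _ ht

@[fun_prop] theorem FS.comp {g : β → γ} {f : α → β} (hg : FS g) (hf : FS f) :
    FS fun x => g (f x) := hf.seq (g := fun y => g y.2) (hg.pre (by fun_prop))

@[fun_prop] theorem FS.id : FS fun x : α => x := FS.poly (by fun_prop)

@[fun_prop] theorem FS.const (b : β) : FS fun _ : α => b := FS.poly (by fun_prop)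

@[fun_prop] theorem FS.pair {f : α → β} {g : α → γ} (hf : FS f) (hg : FS g) :
    FS fun x => (f x, g x) :=
  hf.seq (g := fun y => (y.2, g y.1)) (FS.seq (f := fun y : α × β => g y.1)
    (g := fun z => (z.1.2, z.2)) (hg.pre (by fun_prop)) (FS.poly (by fun_prop)))

/-- A loop with a counter. -/
def loop {σ : Type} (g : σ → ℕ → σ) (s : σ) : ℕ → σ
  | 0 => s
  | i + 1 => g (loop g s i) i

theorem FS.loop {g : α × σ × ℕ → σ} (hg : FS g) {s₀ : α → σ} (h₀ : PolyT.Poly s₀) {n : α → ℕ}
    (hn : Un n) {b : α → ℕ} (hb₀ : Bd bitEncode b)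
    (hle : ∀ x, ∀ i ≤ n x, len (loop (fun c i => g (x, c, i)) (s₀ x) i) ≤ b x) :
    FS fun x => loop (fun c i => g (x, c, i)) (s₀ x) (n x) := by
  obtain ⟨τ, _, i, F, s, o, u, hi, hF, hs, ho, hu, hb, h⟩ := hg
  have := hn.poly
  have b0 : Bd (fun y : α × ℕ => bitEncode y.1) fun y => len y.1 := Bd.len
  have b1 : Bd (fun y : α × ℕ => bitEncode y.1) fun y => len (min y.2 (n y.1)) :=
    (bd_of (PolyT.Poly.bd this) b0).of_le fun y => len_mono (min_le_right _ _)
  have b2 : Bd (fun y : α × ℕ => bitEncode y.1) fun y =>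
      len (MP_c00c90_lc.loop (fun c i => g (y.1, c, i)) (s₀ y.1) (min y.2 (n y.1))) :=
    (bd_of hb₀ b0).of_le fun y => hle _ _ (min_le_right _ _)
  have b3 := bd_pair b0 (bd_pair b2 b1)
  obtain ⟨p, hp⟩ := bd_of hu.bd b3
  have hU : PolyT.Poly fun x : α => p.eval (len x) := Un.poly (by fun_prop)
  let I : α → σ × τ × ℕ × ℕ := fun x => (s₀ x, i (x, s₀ x, 0), 0, 0)
  let G : α × σ × τ × ℕ × ℕ → ℕ := fun y => F ((y.1, y.2.1, y.2.2.2.2), y.2.2.1)
  let S : α × (σ × τ × ℕ × ℕ) × ℕ → σ × τ × ℕ × ℕ := fun y =>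
    bif ltB y.2.1.2.2.2 (n y.1) then bif ltB y.2.1.2.2.1 (p.eval (len y.1)) then
      (y.2.1.1, s ((y.1, y.2.1.1, y.2.1.2.2.2), y.2.1.2.1, y.2.2), y.2.1.2.2.1 + 1, y.2.1.2.2.2)
    else (o ((y.1, y.2.1.1, y.2.1.2.2.2), y.2.1.2.1), i (y.1, o ((y.1, y.2.1.1, y.2.1.2.2.2),
      y.2.1.2.1), y.2.1.2.2.2 + 1), 0, y.2.1.2.2.2 + 1) else y.2.1
  have key : ∀ x t, ∃ j c, j ≤ n x ∧ c ≤ p.eval (len x) ∧ run I G S x t =
      (MP_c00c90_lc.loop (fun c i => g (x, c, i)) (s₀ x) j, run i F s
        (x, MP_c00c90_lc.loop (fun c i => g (x, c, i)) (s₀ x) j, j) c, c, j) ∧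
      (j = n x ∨ t = j * (p.eval (len x) + 1) + c) := by
    intro x t
    induction t with
    | zero => exact ⟨0, 0, Nat.zero_le _, Nat.zero_le _, rfl, Or.inr (by simp)⟩
    | succ t ih =>
      obtain ⟨j, c, h1, h2, h3, h4⟩ := ih
      rw [run, h3]
      rcases h1.eq_or_lt with h1' | h1'
      · exact ⟨j, c, h1, h2, by simp [S, ltB, h1'], Or.inl h1'⟩
      rcases h2.eq_or_lt with h2' | h2'
      · have h5 : u (x, _, min j (n x)) ≤ p.eval (len x) := hp (x, j)
        simp only [min_eq_left h1] at h5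
        refine ⟨j + 1, 0, h1', Nat.zero_le _, ?_, Or.inr (by rw [add_mul]; omega)⟩
        simp [S, ltB, h1', h2', MP_c00c90_lc.loop, run, ← h _ _ h5]
      · exact ⟨j, c + 1, h1, h2', by simp [S, G, ltB, h1', h2', run], Or.inr (by omega)⟩
  choose j c h1 h2 h3 h4 using key
  have hS : PolyT.Poly S := by
    have := hU.comp (PolyT.Poly.id (α := α × (σ × τ × ℕ × ℕ) × ℕ)).fst
    fun_prop
  refine ⟨_, inferInstance, I, G, S, fun y => y.2.1, fun x => n x * (p.eval (len x) + 1),
    by fun_prop, hF.comp (by fun_prop), hS, by fun_prop, by fun_prop, ?_, fun x t ht => ?_⟩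
  · let φ : α × ℕ → α × ℕ := fun y => (y.1, j y.1 y.2)
    refine (bd_pair (b2.reindex φ) (bd_pair (bd_run hb (b3.reindex φ) fun y => c y.1 y.2)
      (bd_pair ((bd_of hU.bd b0).of_le fun y => len_mono (h2 y.1 y.2)) (b1.reindex φ)))).of_le
      fun y => ?_
    simp only [h3, φ, min_eq_left (h1 y.1 y.2), le_refl]
  · have h5 : j x t = n x := by
      by_contra hc
      have h6 := Nat.mul_le_mul_right (p.eval (len x) + 1) ((h1 x t).lt_of_ne hc)
      have h7 := (h4 x t).resolve_left hc
      have h8 : n x * (p.eval (len x) + 1) ≤ t := ht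
      have := h2 x t
      rw [Nat.succ_mul] at h6
      omega
    simp only [h3, h5]

theorem FS.psharp {V : α → Bool} (h : FS V) : PSharp fun x => V x = true := by
  obtain ⟨σ, _, i, F, s, o, u, hi, ⟨p, R, hR, hF⟩, hs, ho, hu, ⟨e, he⟩, h⟩ := h
  obtain ⟨q, hq⟩ := hu.bd.add
    (((((Bd.const 2).mul Bd.len).add (Bd.const 1)).add (Bd.len.eval e)).eval p)
  let st : α × List ℕ → σ := fun y => y.2.foldr (fun a c =>
    bif ltB (e.eval (len y.1)) (len (s (y.1, c, a))) then i y.1 else s (y.1, c, a)) (i y.1)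
  have hst : PolyT.Poly st := by
    refine PolyT.Poly.foldr (f := fun (y : α × List ℕ) a c =>
      bif ltB (e.eval (len y.1)) (len (s (y.1, c, a))) then i y.1 else s (y.1, c, a))
      (p_cond (p_ltB (Un.poly (by fun_prop)) (Un.poly (by fun_prop))) (by fun_prop) (by fun_prop))
      (by fun_prop) (by fun_prop) (Un.bd (n := fun y : α × List ℕ => e.eval (len y.1))
        (by fun_prop)) fun y n => ?_
    cases y.2.drop n with
    | nil => exact he (y.1, 0)
    | cons a l =>
      rw [List.foldr_cons, Bool.cond_eq_ite]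
      split_ifs with hc
      · exact he (y.1, 0)
      · exact not_lt.1 (mt ltB_iff.2 hc)
  refine ⟨q, fun y => R ((y.1, st (y.1, y.2.1)), y.2.2), fun y => o (y.1, st y),
    (poly_iff _).1 (by fun_prop), (poly_iff _).1 (by fun_prop), fun x => ?_⟩
  have h1 : ∀ t, st (x, hist (fun y : α × List ℕ × List Bool => R ((y.1, st (y.1, y.2.1)), y.2.2))
      (q.eval (len x)) x t) = run i F s x t := by
    intro t
    induction t with
    | zero => rfl
    | succ t ih =>
      have h2 : len (run i F s x (t + 1)) ≤ e.eval (len x) := he (x, t + 1)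
      rw [hist]
      simp only [ih]
      rw [cnt_eq, ← hF (x, run i F s x t) (q.eval (len x)) (le_trans ?_ (hq x))]
      · simp only [st, List.foldr_cons] at ih ⊢
        rw [run] at h2
        rw [ih, ltB_false_iff.2 h2, cond_false, run]
      · refine (eval_mono p ?_).trans (Nat.le_add_left _ _)
        rw [len_prod]
        exact Nat.add_le_add_left (he (x, t)) _
  simp only [h1]
  rw [← h x (q.eval (len x)) ((Nat.le_add_right _ _).trans (hq x))]

theorem len_list {l : List β} {b : ℕ} (h : ∀ a ∈ l, len a ≤ b) :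
    len l ≤ l.length * (2 * b + 1) := by
  rw [len, enc_list, List.length_flatMap]
  exact PolyT.Poly.sum_map_le _ _ _ fun a ha => by
    have := h a ha
    rw [length_delimit]; rw [len] at this; omega

theorem FS.map {f : α × ℕ → β} (hf : FS f) {n : α → ℕ} (hn : Un n) :
    FS fun x => (List.range (n x)).map fun i => f (x, i) := by
  have key : ∀ x i, MP_c00c90_lc.loop (fun c i => c ++ [f (x, i)]) [] i =
      (List.range i).map fun i => f (x, i) := by
    intro x i
    induction i with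
    | zero => rfl
    | succ i ih => simp [MP_c00c90_lc.loop, ih, List.range_succ]
  obtain ⟨p, hp⟩ := hf.bd
  refine (FS.loop (g := fun y : α × List β × ℕ => y.2.1 ++ [f (y.1, y.2.2)]) (by fun_prop)
    (s₀ := fun _ => []) (by fun_prop) hn
    (Un.bd (n := fun x => n x * (2 * p.eval (2 * len x + 1 + n x) + 1)) (by fun_prop))
    fun x i hi => ?_).congr fun x => key x _
  rw [key]
  refine (len_list (List.forall_mem_map.2 fun j hj => (hp _).trans (eval_mono p ?_))).trans
    (Nat.mul_le_mul_right _ (by simpa using hi))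
  have := length_enc_nat_le_self j
  have := List.mem_range.1 hj
  rw [length_enc_pair, len]
  simp only
  omega

/-- Binary search. -/
def bsr (P : ℕ → Bool) (n : ℕ) : ℕ :=
  loop (fun A i => 2 * A + bif P ((2 * A + 1) * 2 ^ (n - 1 - i)) then 1 else 0) 0 n

theorem bsr_aux (P : ℕ → Bool) (n : ℕ) : ∀ i ≤ n, ∀ A, A = loop (fun A i => 2 * A +
    bif P ((2 * A + 1) * 2 ^ (n - 1 - i)) then 1 else 0) 0 i → A < 2 ^ i ∧
      (A = 0 ∨ P (A * 2 ^ (n - i)) = true) ∧ (A + 1 = 2 ^ i ∨ P ((A + 1) * 2 ^ (n - i)) = false) := by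
  intro i
  induction i with
  | zero => rintro - A rfl; simp [loop]
  | succ i ih =>
    rintro hi A rfl
    obtain ⟨h1, h2, h3⟩ := ih (by omega) _ rfl
    rw [loop, show n - 1 - i = n - (i + 1) by omega, pow_succ]
    rw [show n - i = n - (i + 1) + 1 by omega, pow_succ, mul_comm _ 2, ← mul_assoc] at h2 h3
    generalize loop (fun A i => 2 * A + bif P ((2 * A + 1) * 2 ^ (n - 1 - i)) then 1 else 0) 0 i =
      A at *
    cases hc : P ((2 * A + 1) * 2 ^ (n - (i + 1)))
    · exact ⟨by simp; omega, h2.imp (by simp) (by simp [mul_comm]), Or.inr hc⟩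
    · exact ⟨by simp; omega, Or.inr hc, h3.imp (by simp; omega) fun h => by
        rw [← h]; congr 2; simp; ring⟩

theorem bsr_spec (P : ℕ → Bool) (n : ℕ) : bsr P n < 2 ^ n ∧
    (bsr P n = 0 ∨ P (bsr P n) = true) ∧ (bsr P n + 1 = 2 ^ n ∨ P (bsr P n + 1) = false) := by
  simpa using bsr_aux P n n le_rfl (bsr P n) rfl

theorem FS.bsr {P : α × ℕ → Bool} (hP : FS P) {n : α → ℕ} (hn : Un n) :
    FS fun x => bsr (fun t => P (x, t)) (n x) :=
  FS.loop (g := fun y : α × ℕ × ℕ => 2 * y.2.1 +
    bif P (y.1, (2 * y.2.1 + 1) * 2 ^ (n y.1 - 1 - y.2.2)) then 1 else 0)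
    (FS.comp (g := fun z : ℕ × Bool => 2 * z.1 + bif z.2 then 1 else 0) (FS.poly (by fun_prop))
      ((FS.poly (by fun_prop)).pair (hP.pre (by fun_prop)))) (s₀ := fun _ => 0) (by fun_prop) hn
    hn.bd fun x i hi => length_enc_nat_le ((bsr_aux (fun t => P (x, t)) _ i hi _ rfl).1.trans_le
      (Nat.pow_le_pow_right two_pos hi))

/-- The randomised sign test. -/
def cmp (k : ℕ) (g : ℕ → ℕ) (y : ℕ) : Bool :=
  posi k (ff k g (bsr (fun D => !small k y (ff k g D y)) k + 1) y)

theorem cmp_spec {k : ℕ} {g : ℕ → ℕ} {N : ℤ} (hk : 40 ≤ k) (hg : ∀ m, 0 < m → (g m : ZMod m) = N)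
    (hN : |N| < 2 ^ 2 ^ k) {r : List Bool} (hr : ∀ D ≤ 2 ^ k, Gd k (xx k N D) (ofBits r)) :
    cmp k g (ofBits r) = decide (0 < N) := by
  have hs := spec hk hg hN
  obtain ⟨h1, h2, h3⟩ := bsr_spec (fun D => !small k (ofBits r) (ff k g D (ofBits r))) k
  rw [cmp, Bool.eq_iff_iff, decide_eq_true_iff]
  generalize bsr (fun D => !small k (ofBits r) (ff k g D (ofBits r))) k = A at *
  have h4 : small k (ofBits r) (ff k g (A + 1) (ofBits r)) = true :=
    h3.elim (fun h => h ▸ hs.last r) (by simp)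
  exact ⟨hs.sound _ h1 r (hr _ h1) h4, fun h => hs.step h _ h1 r
    (h2.elim (fun e => e ▸ hs.first h r (hr 0 (Nat.zero_le _))) (by simp)) (hr _ h1) h4⟩

theorem fs_cmp {k y : α → ℕ} {g : α × ℕ → ℕ} (hk : Un k) (hg : PolyT.Poly g)
    (hy : PolyT.Poly y) : FS fun x => cmp (k x) (fun m => g (x, m)) (y x) := by
  have h0 : FS fun z : α × ℕ => ff (k z.1) (fun m => g (z.1, m)) z.2 (y z.1) :=
    FS.sharp (s_ff (g := fun w : (α × ℕ) × ℕ => g (w.1.1, w.2))
      (by fun_prop) (by fun_prop) (by fun_prop) (by fun_prop))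
  have h1 : FS fun z : α × ℕ => !small (k z.1) (y z.1)
      (ff (k z.1) (fun m => g (z.1, m)) z.2 (y z.1)) :=
    h0.seq (g := fun w => !small (k w.1.1) (y w.1.1) w.2) (FS.poly (by fun_prop))
  have h2 := (FS.bsr h1 hk).seq (h0.pre (f := fun w : α × ℕ => (w.1, w.2 + 1)) (by fun_prop))
  exact h2.seq (g := fun w => posi (k w.1) w.2) (FS.poly (by fun_prop))

theorem card_short (β : Type) [N487b59b3 β] (l : ℕ) :
    ∃ S : Finset β, #S ≤ 2 ^ (l + 1) ∧ ∀ s, len s ≤ l → s ∈ S := by
  classical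
  refine ⟨((range (l + 1)).biUnion strs).preimage bitEncode bitEncode_injective.injOn, ?_,
    fun s hs => by simpa [Nat.lt_succ_iff, len] using hs⟩
  rw [card_preimage]
  refine (card_filter_le _ _).trans (card_biUnion_le.trans ?_)
  simp only [card_strs]
  exact (Nat.geomSum_lt le_rfl (by simp)).le

theorem bpp_of_oracle {L : α → Prop} {N : β → ℤ} (hN : Nice N) {A : (β → Bool) → α → Bool}
    (hA : ∀ O : (α × List Bool) × β → Bool, FS O → FS fun y => A (fun s => O (y, s)) y.1)
    (e : Polynomial ℕ) (hL : ∀ x O, (∀ s, len s ≤ e.eval (len x) → O s = decide (0 < N s)) →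
      (A O x = true ↔ L x)) : BPPSharp L := by
  classical
  obtain ⟨⟨g, hg, hm⟩, p, hp⟩ := hN
  obtain ⟨P, hP⟩ : ∃ P : Polynomial ℕ, ∀ n, P.eval n = p.eval (e.eval n) + e.eval n + 40 :=
    ⟨p.comp e + e + 40, by simp [Polynomial.eval_comp]⟩
  have h0 := hA (fun z => cmp (P.eval (len z.1.1)) (fun m => g (z.2, m)) (ofBits z.1.2))
    (fs_cmp (k := fun z : (α × List Bool) × β => P.eval (len z.1.1))
      (g := fun w => g (w.1.2, w.2)) (y := fun z => ofBits z.1.2) (by fun_prop) (by fun_prop)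
      (by fun_prop))
  refine ⟨3 * P * (6 * P * (3 * P)), _, h0.psharp, fun x => ?_⟩
  obtain ⟨S, hS, hS'⟩ := card_short β (e.eval (len x))
  have hk : 40 ≤ P.eval (len x) := by rw [hP]; omega
  have hb : ∀ s, len s ≤ e.eval (len x) → |N s| < 2 ^ 2 ^ P.eval (len x) := fun s hs =>
    lt_mono (hp s) ((eval_mono p hs).trans (by rw [hP]; omega))
  have h2 := sum_le_card_nsmul ((S.filter fun s => len s ≤ e.eval (len x)) ×ˢ
    range (2 ^ P.eval (len x) + 1)) _ _ fun z hz => (spec hk (hm z.1)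
      (hb z.1 (mem_filter.1 (mem_product.1 hz).1).2)).prob z.2
        (Nat.le_of_lt_succ (mem_range.1 (mem_product.1 hz).2))
  have h3 : 3 * #((S.filter fun s => len s ≤ e.eval (len x)) ×ˢ range (2 ^ P.eval (len x) + 1)) ≤
      2 ^ (3 * P.eval (len x)) := by
    have a1 := (card_filter_le S fun s => len s ≤ e.eval (len x)).trans (hS.trans
      (Nat.pow_le_pow_right two_pos (show _ ≤ P.eval (len x) by rw [hP]; omega)))
    have a2 := lin_le hk
    rw [card_product, card_range, show 3 * P.eval (len x) = P.eval (len x) +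
      (P.eval (len x) + P.eval (len x)) by ring, pow_add, pow_add, mul_left_comm]
    exact Nat.mul_le_mul a1 (by nlinarith)
  rw [← mul_sum, smul_eq_mul] at h2
  simp only [cnt_eq, tT, Polynomial.eval_mul, Polynomial.eval_ofNat] at h2 ⊢
  rw [sum_comm] at h2
  have h4 : ∀ a b c d e : ℕ, 0 < b → e ≤ c + d → b * d ≤ a * e → 3 * a ≤ b → 2 * e ≤ 3 * c := by
    intro a b c d e h0 h1 h2 h3
    have : b * (3 * d) ≤ b * e := by nlinarith
    have := Nat.le_of_mul_le_mul_left this h0
    omega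
  refine h4 _ _ _ _ _ (by positivity) ?_ h2 h3
  rw [← sum_add_distrib, ← card_strs, card_eq_sum_ones]
  refine sum_le_sum fun r _ => ?_
  by_cases hr : ∀ s, len s ≤ e.eval (len x) → ∀ D ≤ 2 ^ P.eval (len x),
      Gd (P.eval (len x)) (xx (P.eval (len x)) (N s) D) (ofBits r)
  · rw [if_pos (hL x _ fun s hs => cmp_spec hk (hm s) (hb s hs) (hr s hs))]; omega
  · push Not at hr
    obtain ⟨s, hs, D, hD, hG⟩ := hr
    refine le_add_left (le_trans ?_ (single_le_sum (a := (s, D)) (fun _ _ => Nat.zero_le _)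
      (mem_product.2 ⟨mem_filter.2 ⟨hS' s hs, hs⟩, mem_range.2 (Nat.lt_succ_of_le hD)⟩)))
    rw [if_pos hG]

end Pool.Agent.MP_c00c90_lc

end MrgPart0

-- ======== part 1: formerly Pool.Agent.MP_c00c90_lc.Weights
section MrgPart1

/-!
Integer weights that order all short sums of square roots correctly, computed with sign queries
and counting queries.
-/

set_option autoImplicit false

namespace Pool.Agent.MP_c00c90_lc

open Pool.Agent.PolyT Pool.Agent.H82 N487b59b3 Finset

/-- Linear forms: positive and negative part of each coefficient. -/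
abbrev Fm := List (ℕ × ℕ)

/-- The value of a form at the square roots. -/
noncomputable def ev (a : List ℕ) (u : Fm) : ℝ :=
  ∑ e ∈ range a.length, (((u.getD e (0, 0)).1 : ℝ) - (u.getD e (0, 0)).2) * √(a.getD e 0 : ℕ)

/-- The form `x u - y v`. -/
def cb (d x : ℕ) (u : Fm) (y : ℕ) (v : Fm) : Fm := (List.range d).map fun e =>
  (x * (u.getD e (0, 0)).1 + y * (v.getD e (0, 0)).2,
    x * (u.getD e (0, 0)).2 + y * (v.getD e (0, 0)).1)

/-- The comparison that decides the sign of a form. -/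
def qy (a : List ℕ) (u : Fm) : List ℕ × List ℕ :=
  ((List.range a.length).map fun e => (u.getD e (0, 0)).1 * (u.getD e (0, 0)).1 * a.getD e 0,
    (List.range a.length).map fun e => (u.getD e (0, 0)).2 * (u.getD e (0, 0)).2 * a.getD e 0)

theorem getD_mr {β : Type} {d e : ℕ} (f : ℕ → β) (x : β) (h : e < d) :
    ((List.range d).map f).getD e x = f e := by simp [List.getD_eq_getElem?_getD, h]

theorem getD_mr' {β : Type} {P : β → Prop} {d : ℕ} {f : ℕ → β} {x : β} (h : ∀ e < d, P (f e))
    (hx : P x) (e : ℕ) : P (((List.range d).map f).getD e x) := by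
  rcases lt_or_ge e d with h' | h'
  · rw [getD_mr _ _ h']; exact h e h'
  · rw [List.getD_eq_default _ _ (by simpa using h')]; exact hx

theorem mem_of_getD {β : Type} {P : β → Prop} {l : List β} {x : β} (h : ∀ e, P (l.getD e x)) :
    ∀ y ∈ l, P y := fun y hy => by
  obtain ⟨e, he, rfl⟩ := List.mem_iff_getElem.1 hy
  rw [← List.getD_eq_getElem _ x he]; exact h e

theorem ev_cb (a : List ℕ) (x y : ℕ) (u v : Fm) :
    ev a (cb a.length x u y v) = x * ev a u - y * ev a v := by
  simp only [ev, mul_sum, ← sum_sub_distrib]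
  refine sum_congr rfl fun e he => ?_
  rw [cb, getD_mr _ _ (mem_range.1 he)]
  push_cast; ring

theorem qy_iff (a : List ℕ) (u : Fm) : SSQR2 (qy a u) ↔ 0 ≤ ev a u := by
  have h2 : ∀ f : ℕ → ℝ, ((List.range a.length).map f).sum = ∑ i ∈ range a.length, f i :=
    fun _ => rfl
  have h3 : ∀ x y : ℕ, √((x * x * y : ℕ) : ℝ) = x * √y := fun x y => by
    push_cast; rw [Real.sqrt_mul (by positivity), Real.sqrt_mul_self (by positivity)]
  simp only [SSQR2, qy, List.map_map, h2, Function.comp_apply, h3, ev, sub_mul, sum_sub_distrib,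
    sub_nonneg]

/-- Small forms. -/
def Sm (d Z : ℕ) (u : Fm) : Prop :=
  u.length ≤ d ∧ ∀ e, (u.getD e (0, 0)).1 ≤ Z ∧ (u.getD e (0, 0)).2 ≤ Z

theorem sm_nil (d Z : ℕ) : Sm d Z [] := by simp [Sm]

theorem Sm.cb {d Z Z' Y x y : ℕ} {u v : Fm} (hu : Sm d Z u) (hv : Sm d Z' v)
    (h : x * Z + y * Z' ≤ Y) : Sm d Y (cb d x u y v) :=
  ⟨by simp [MP_c00c90_lc.cb], getD_mr' (P := fun p : ℕ × ℕ => p.1 ≤ Y ∧ p.2 ≤ Y) (fun e _ =>
    ⟨(Nat.add_le_add (Nat.mul_le_mul_left _ (hu.2 e).1) (Nat.mul_le_mul_left _ (hv.2 e).2)).trans h,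
      (Nat.add_le_add (Nat.mul_le_mul_left _ (hu.2 e).2)
        (Nat.mul_le_mul_left _ (hv.2 e).1)).trans h⟩) (by simp)⟩

theorem Sm.len {d Z : ℕ} {u : Fm} (h : Sm d Z u) : len u ≤ d * (2 * (3 * len Z + 1) + 1) :=
  (len_list (mem_of_getD (P := fun p => MP_c00c90_lc.len p ≤ 3 * MP_c00c90_lc.len Z + 1)
    fun e => enc_two (h.2 e).1 (h.2 e).2)).trans (Nat.mul_le_mul_right _ h.1)

/-- The rows and their negatives. -/
def sg (d : ℕ) (R : List Fm) (i : ℕ) : Fm :=
  cb d (i % 2) (R.getD (i / 2) []) (1 - i % 2) (R.getD (i / 2) [])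

/-- The form of largest value. -/
def mx (O : Fm → Bool) (d : ℕ) (R : List Fm) (n : ℕ) : Fm :=
  loop (fun m i => bif O (cb d 1 (sg d R i) 1 m) then sg d R i else m) [] n

/-- The sum of two forms. -/
def pl (d : ℕ) (r m : Fm) : Fm := cb d 1 r 1 (cb d 0 m 1 m)

/-- The approximation of a ratio. -/
def tv (O : Fm → Bool) (d b : ℕ) (m r : Fm) : ℕ :=
  bsr (fun t => O (cb d (2 ^ b) (pl d r m) t m)) (b + 2)

/-- The common denominator. -/
def qv (n M c : ℕ) (T : List ℕ) : ℕ := bsr (fun s => eqB (∑ q ∈ range s,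
  bif T.all fun t => near M ((q + 1) * t) n then 1 else 0) 0) c + 1

/-- Rounding. -/
def rd (M n c : ℕ) : ℕ := c / M + bif ltB M (6 * n * (c % M)) then 1 else 0

/-- The base for the weights. -/
def hW (d n : ℕ) : ℕ := n * (4 * 2 ^ ((n + 3) * d) + 1) + 1

/-- The update of the rows and weights. -/
def upd (d n : ℕ) (s : List Fm × List ℕ) (m : Fm) (T : List ℕ) (q : ℕ) : List Fm × List ℕ :=
  ((List.range d).map fun e => cb d q (pl d (s.1.getD e []) m)
      (rd (2 ^ ((n + 3) * d + (n + 3))) n (q * T.getD e 0)) m,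
    (List.range d).map fun e =>
      hW d n * s.2.getD e 0 + rd (2 ^ ((n + 3) * d + (n + 3))) n (q * T.getD e 0))

/-- The approximations of all ratios. -/
def tvs (O : Fm → Bool) (d n : ℕ) (R : List Fm) (m : Fm) : List ℕ :=
  (List.range d).map fun e => tv O d ((n + 3) * d + (n + 3)) m (R.getD e [])

/-- One round. -/
def rnd (O : Fm → Bool) (d n : ℕ) (s : List Fm × List ℕ) : List Fm × List ℕ :=
  upd d n s (mx O d s.1 (2 * d)) (tvs O d n s.1 (mx O d s.1 (2 * d)))
    (qv n (2 ^ ((n + 3) * d + (n + 3))) ((n + 3) * d) (tvs O d n s.1 (mx O d s.1 (2 * d))))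

/-- All rounds. -/
def wts (O : Fm → Bool) (d n i : ℕ) : List Fm × List ℕ := loop (fun s _ => rnd O d n s)
  ((List.range d).map fun e => (List.range d).map fun f => (bif eqB e f then 1 else 0, 0), []) i

/-- The growth factor. -/
def yY (d n : ℕ) : ℕ := hW d n + 8 * 2 ^ ((n + 3) * d + (n + 3))

theorem sg_sm {d Z : ℕ} {R : List Fm} (h : ∀ e, Sm d Z (R.getD e [])) (i : ℕ) :
    Sm d Z (sg d R i) :=
  (h _).cb (h _) (by rcases Nat.mod_two_eq_zero_or_one i with h | h <;> simp [h])

theorem mx_sm (O : Fm → Bool) {d Z : ℕ} {R : List Fm} (h : ∀ e, Sm d Z (R.getD e [])) (n : ℕ) :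
    Sm d Z (mx O d R n) := by
  induction n with
  | zero => exact sm_nil _ _
  | succ n ih =>
    rw [mx, loop, ← mx]
    cases O (cb d 1 (sg d R n) 1 (mx O d R n))
    exacts [ih, sg_sm h n]

theorem pl_sm {d Z : ℕ} {r m : Fm} (hr : Sm d Z r) (hm : Sm d Z m) : Sm d (2 * Z) (pl d r m) :=
  hr.cb (hm.cb hm (Y := Z) (by simp)) (by omega)

theorem rd_le (O : Fm → Bool) (d n q e : ℕ) (R : List Fm) (m : Fm) :
    rd (2 ^ ((n + 3) * d + (n + 3))) n (q * (tvs O d n R m).getD e 0) ≤ 4 * q + 1 := by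
  have h1 : (tvs O d n R m).getD e 0 ≤ 2 ^ ((n + 3) * d + (n + 3) + 2) :=
    getD_mr' (P := fun t => t ≤ 2 ^ ((n + 3) * d + (n + 3) + 2))
      (fun _ _ => (bsr_spec _ _).1.le) (Nat.zero_le _) e
  refine Nat.add_le_add (Nat.div_le_of_le_mul ?_) (by cases ltB _ _ <;> simp)
  rw [pow_add] at h1
  nlinarith

theorem wts_sm (O : Fm → Bool) (d n i : ℕ) : ((wts O d n i).1.length ≤ d ∧
    ∀ e, Sm d (yY d n ^ i) ((wts O d n i).1.getD e [])) ∧ (wts O d n i).2.length ≤ d ∧
    ∀ e, (wts O d n i).2.getD e 0 ≤ yY d n ^ i := by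
  induction i with
  | zero =>
    refine ⟨⟨by simp [wts, loop], getD_mr' (fun e _ => ⟨by simp, getD_mr'
      (P := fun p : ℕ × ℕ => p.1 ≤ _ ∧ p.2 ≤ _) (fun f _ => ?_) (by simp)⟩) (sm_nil _ _)⟩,
      by simp [wts, loop]⟩
    cases eqB e f <;> simp
  | succ i ih =>
    obtain ⟨⟨-, h1⟩, -, h2⟩ := ih
    rw [wts, loop, ← wts, rnd]
    have h3 := mx_sm O h1 (2 * d)
    generalize mx O d (wts O d n i).1 (2 * d) = m at *
    have h4 : qv n (2 ^ ((n + 3) * d + (n + 3))) ((n + 3) * d) (tvs O d n (wts O d n i).1 m) ≤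
        2 ^ ((n + 3) * d + (n + 3)) :=
      (bsr_spec _ _).1.trans_le' le_rfl |>.trans_le (Nat.pow_le_pow_right two_pos (by omega))
    have h5 := fun e => rd_le O d n (qv n (2 ^ ((n + 3) * d + (n + 3))) ((n + 3) * d)
      (tvs O d n (wts O d n i).1 m)) e (wts O d n i).1 m
    have h6 : 1 ≤ 2 ^ ((n + 3) * d + (n + 3)) := Nat.one_le_two_pow
    have h7 : 1 ≤ yY d n ^ i := Nat.one_le_pow _ _ (by unfold yY; omega)
    rw [show yY d n ^ (i + 1) = yY d n ^ i * (hW d n + 8 * 2 ^ ((n + 3) * d + (n + 3))) from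
      pow_succ _ _]
    refine ⟨⟨by simp [upd], getD_mr' (fun e _ => (pl_sm (h1 e) h3).cb h3 ?_) (sm_nil _ _)⟩,
      by simp [upd], getD_mr' (P := fun x => x ≤ _) (fun e _ => ?_) (Nat.zero_le _)⟩
    · nlinarith [Nat.mul_le_mul_right (yY d n ^ i) (h5 e), Nat.mul_le_mul_right (yY d n ^ i) h4,
        Nat.mul_le_mul_right (yY d n ^ i) h6, Nat.zero_le (yY d n ^ i * hW d n)]
    · nlinarith [h5 e, Nat.mul_le_mul_left (hW d n) (h2 e),
        Nat.mul_le_mul_right (2 ^ ((n + 3) * d + (n + 3))) h7]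

section poly

variable {α : Type} [N487b59b3 α] {d n : α → ℕ}

@[fun_prop] theorem p_cb (hd : Un d) {x y : α → ℕ} {u v : α → Fm} (hx : PolyT.Poly x)
    (hu : PolyT.Poly u) (hy : PolyT.Poly y) (hv : PolyT.Poly v) :
    PolyT.Poly fun a => cb (d a) (x a) (u a) (y a) (v a) := by unfold cb; fun_prop

theorem fs_mx {O : α × Fm → Bool} (hO : FS O) (hd : Un d) {R : α → List Fm} (hR : PolyT.Poly R) :
    FS fun a => mx (fun u => O (a, u)) (d a) (R a) (2 * d a) := by
  have h1 : PolyT.Poly fun y : α × ℕ => sg (d y.1) (R y.1) y.2 := by unfold sg; fun_prop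
  obtain ⟨p, hp⟩ := len_le h1
  refine FS.loop (g := fun y : α × Fm × ℕ => bif O (y.1, cb (d y.1) 1 (sg (d y.1) (R y.1) y.2.2) 1
    y.2.1) then sg (d y.1) (R y.1) y.2.2 else y.2.1) ((hO.pre (f := fun y : α × Fm × ℕ =>
      (y.1, cb (d y.1) 1 (sg (d y.1) (R y.1) y.2.2) 1 y.2.1)) (by unfold sg; fun_prop)).seq
      (g := fun z => bif z.2 then sg (d z.1.1) (R z.1.1) z.1.2.2 else z.1.2.1)
      (FS.poly (by unfold sg; fun_prop))) (s₀ := fun _ => []) (by fun_prop) (by fun_prop)
    (Un.bd (n := fun a => p.eval (2 * len a + 1 + 2 * d a)) (by fun_prop)) fun a i hi => ?_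
  induction i with
  | zero => exact Nat.zero_le _
  | succ i ih =>
    simp only [loop, Bool.cond_eq_ite] at ih ⊢
    split_ifs
    · refine (hp (a, i)).trans (eval_mono p ?_)
      rw [len_prod]
      exact Nat.add_le_add_left ((length_enc_nat_le_self i).trans (by omega)) _
    · exact ih (by omega)

theorem fs_tvs {O : α × Fm → Bool} (hO : FS O) (hd : Un d) (hn : Un n) {R : α → List Fm}
    (hR : PolyT.Poly R) {m : α → Fm} (hm : PolyT.Poly m) :
    FS fun a => tvs (fun u => O (a, u)) (d a) (n a) (R a) (m a) :=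
  FS.map (f := fun y : α × ℕ => tv (fun u => O (y.1, u)) (d y.1)
    ((n y.1 + 3) * d y.1 + (n y.1 + 3)) (m y.1) ((R y.1).getD y.2 []))
    (FS.bsr (P := fun z : (α × ℕ) × ℕ => O (z.1.1, cb (d z.1.1)
      (2 ^ ((n z.1.1 + 3) * d z.1.1 + (n z.1.1 + 3)))
      (pl (d z.1.1) ((R z.1.1).getD z.1.2 []) (m z.1.1)) z.2 (m z.1.1)))
      (hO.pre (by unfold pl; fun_prop)) (by fun_prop)) hd

theorem fs_qv {M c : α → ℕ} (hn : PolyT.Poly n) (hM : PolyT.Poly M) (hc : Un c) {T : α → List ℕ}
    (hT : PolyT.Poly T) : FS fun a => qv (n a) (M a) (c a) (T a) := by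
  have h1 : Sharp fun y : α × ℕ => ∑ q ∈ range y.2,
      bif (T y.1).all fun t => near (M y.1) ((q + 1) * t) (n y.1) then 1 else 0 :=
    Sharp.rsum (F := fun z : (α × ℕ) × ℕ => bif (T z.1.1).all fun t =>
      near (M z.1.1) ((z.2 + 1) * t) (n z.1.1) then 1 else 0)
      (Sharp.poly (by unfold near; fun_prop)) (by fun_prop)
  exact (FS.bsr ((FS.sharp h1).seq (g := fun z => eqB z.2 0) (FS.poly (by fun_prop))) hc).seq
    (g := fun z => z.2 + 1) (FS.poly (by fun_prop))

theorem fs_rnd {O : α × Fm → Bool} (hO : FS O) (hd : Un d) (hn : Un n)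
    {s : α → List Fm × List ℕ} (hs : PolyT.Poly s) :
    FS fun a => rnd (fun u => O (a, u)) (d a) (n a) (s a) := by
  have := hn.poly
  have h1 := fs_mx hO hd (R := fun a => (s a).1) (by fun_prop)
  have h2 := fs_tvs (α := α × Fm) (O := fun y => O (y.1.1, y.2)) (hO.pre (by fun_prop))
    (d := fun y => d y.1) (n := fun y => n y.1) (by fun_prop) (by fun_prop)
    (R := fun y => (s y.1).1) (by fun_prop) (m := fun y => y.2) (by fun_prop)
  have h3 := fs_qv (α := (α × Fm) × List ℕ) (n := fun y => n y.1.1)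
    (M := fun y => 2 ^ ((n y.1.1 + 3) * d y.1.1 + (n y.1.1 + 3)))
    (c := fun y => (n y.1.1 + 3) * d y.1.1) (by fun_prop) (by fun_prop) (by fun_prop)
    (T := fun y => y.2) (by fun_prop)
  have h4 := h3.seq (g := fun z => upd (d z.1.1.1) (n z.1.1.1) (s z.1.1.1) z.1.1.2
    z.1.2 z.2) (FS.poly (by unfold upd pl rd hW; fun_prop))
  have h5 := h1.seq (h2.seq h4)
  exact h5.congr fun _ => rfl

@[fun_prop] theorem p_yY (hd : Un d) (hn : Un n) : PolyT.Poly fun a => yY (d a) (n a) := by
  have := hn.poly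
  unfold yY hW; fun_prop

theorem fs_wts {O : α × Fm → Bool} (hO : FS O) (hd : Un d) (hn : Un n) :
    FS fun a => wts (fun u => O (a, u)) (d a) (n a) (d a) := by
  have h0 := fs_rnd (α := α × (List Fm × List ℕ) × ℕ) (O := fun z => O (z.1.1, z.2))
    (hO.pre (by fun_prop)) (d := fun y => d y.1) (n := fun y => n y.1) (by fun_prop) (by fun_prop)
    (s := fun y => y.2.1) (by fun_prop)
  refine FS.loop h0 (s₀ := fun a => ((List.range (d a)).map fun e => (List.range (d a)).map
    fun f => (bif eqB e f then 1 else 0, 0), [])) (by fun_prop) hd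
    (Un.bd (n := fun a => 2 * (d a * (2 * (d a * (2 * (3 * len (yY (d a) (n a) ^ d a) + 1) + 1)) +
      1)) + 1 + d a * (2 * len (yY (d a) (n a) ^ d a) + 1)) (by fun_prop)) fun a i hi => ?_
  obtain ⟨⟨h1, h2⟩, h3, h4⟩ := wts_sm (fun u => O (a, u)) (d a) (n a) i
  have h5 : len (yY (d a) (n a) ^ i) ≤ len (yY (d a) (n a) ^ d a) :=
    len_mono (Nat.pow_le_pow_right (by unfold yY hW; omega) hi)
  refine (len_prod (wts (fun u => O (a, u)) (d a) (n a) i).1 _).trans_le ?_
  gcongr
  · exact (len_list (mem_of_getD (P := fun u => len u ≤ _) fun e => (h2 e).len)).trans (by gcongr)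
  · exact (len_list (mem_of_getD (P := fun u => len u ≤ _) fun e => len_mono (h4 e))).trans
      (by gcongr)

end poly

end Pool.Agent.MP_c00c90_lc

end MrgPart1

-- ======== part 2: formerly Pool.Agent.MP_c00c90_lc.Tour
section MrgPart2

/-!
Correctness of the weights, and the travelling salesperson problem.
-/

set_option autoImplicit false

namespace Pool.Agent.MP_c00c90_lc

open Pool.Agent.PolyT Pool.Agent.H82 N487b59b3 Finset

/-- The oracle answers correctly on small forms. -/
def Ok (a : List ℕ) (O : Fm → Bool) (Z : ℕ) : Prop :=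
  ∀ u, Sm a.length Z u → (O u = true ↔ 0 ≤ ev a u)

theorem mx_spec {a : List ℕ} {O : Fm → Bool} {Z Y : ℕ} (hO : Ok a O Y) (hY : 2 * Z ≤ Y)
    {R : List Fm} (h : ∀ e, Sm a.length Z (R.getD e [])) (n : ℕ) :
    0 ≤ ev a (mx O a.length R n) ∧ (∀ j < n, ev a (sg a.length R j) ≤ ev a (mx O a.length R n)) ∧
      (ev a (mx O a.length R n) = 0 ∨ ∃ j < n, ev a (mx O a.length R n) =
        ev a (sg a.length R j)) := by
  induction n with
  | zero => simp [mx, loop, ev]
  | succ n ih =>
    obtain ⟨h1, h2, h3⟩ := ih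
    have h4 := hO _ ((sg_sm h n).cb (mx_sm O h n) (x := 1) (y := 1) (by omega))
    rw [ev_cb, Nat.cast_one, one_mul, one_mul, sub_nonneg] at h4
    rw [mx, loop, ← mx]
    cases hc : O (cb a.length 1 (sg a.length R n) 1 (mx O a.length R n))
    · have h5 := not_le.1 (mt h4.2 (by simp [hc]))
      exact ⟨h1, fun j hj => (Nat.lt_succ_iff_lt_or_eq.1 hj).elim (h2 j) fun e => e ▸ h5.le,
        h3.imp_right fun ⟨j, hj, e⟩ => ⟨j, by omega, e⟩⟩
    · exact ⟨h1.trans (h4.1 hc), fun j hj => (Nat.lt_succ_iff_lt_or_eq.1 hj).elim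
        (fun h => (h2 j h).trans (h4.1 hc)) fun e => e ▸ le_rfl, Or.inr ⟨n, by omega, rfl⟩⟩

theorem ev_pl (a : List ℕ) (r m : Fm) : ev a (pl a.length r m) = ev a r + ev a m := by
  simp [pl, ev_cb]

theorem tv_spec {a : List ℕ} {O : Fm → Bool} {Z Y b : ℕ} (hO : Ok a O Y) (hY : 6 * 2 ^ b * Z ≤ Y)
    {r m : Fm} (hr : Sm a.length Z r) (hm : Sm a.length Z m) (h : |ev a r| ≤ ev a m) :
    |2 ^ b * (ev a r + ev a m) - tv O a.length b m r * ev a m| ≤ ev a m ∧
      (ev a m = 0 → tv O a.length b m r + 1 = 2 ^ (b + 2)) := by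
  obtain ⟨h1, h2, h3⟩ := bsr_spec (fun t => O (cb a.length (2 ^ b) (pl a.length r m) t m)) (b + 2)
  rw [← tv] at h1 h2 h3
  generalize tv O a.length b m r = t at *
  have key : ∀ s ≤ 2 ^ (b + 2), (O (cb a.length (2 ^ b) (pl a.length r m) s m) = true ↔
      s * ev a m ≤ 2 ^ b * (ev a r + ev a m)) := fun s hs => by
    rw [hO _ ((pl_sm hr hm).cb hm (le_trans ?_ hY)), ev_cb, ev_pl, sub_nonneg]
    · norm_cast
    · rw [pow_add] at hs; nlinarith [Nat.mul_le_mul_right Z hs]
  rw [abs_le] at h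
  have hb : (0 : ℝ) < 2 ^ b := by positivity
  have h4 : t * ev a m ≤ 2 ^ b * (ev a r + ev a m) :=
    h2.elim (fun e => by rw [e]; simpa using mul_nonneg hb.le (by linarith)) (key t h1.le).1
  have h5 := h3.imp_right fun e => not_le.1 (mt (key _ h1).2 (by simp [e]))
  refine ⟨abs_le.2 ⟨by linarith, h5.elim (fun e => ?_) fun e => by push_cast at e; linarith⟩,
    fun e => h5.resolve_right (by rw [e] at h ⊢; nlinarith)⟩
  have : (t : ℝ) + 1 = 2 ^ b * 4 := by rw [pow_add] at e; exact_mod_cast e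
  nlinarith

theorem dirichlet {n M : ℕ} (hn : 0 < n) (hM : 0 < M) (T : List ℕ) :
    ∃ q < (6 * n) ^ T.length, ∀ t ∈ T, near M ((q + 1) * t) n = true := by
  let f : ℕ → Fin T.length → Fin (6 * n) := fun q e => ⟨q * T[e] % M * (6 * n) / M,
    Nat.div_lt_of_lt_mul (Nat.mul_lt_mul_of_pos_right (Nat.mod_lt _ hM) (by omega))⟩
  obtain ⟨x, hx, y, hy, hxy, h⟩ := exists_ne_map_eq_of_card_lt_of_maps_to (f := f)
    (s := range ((6 * n) ^ T.length + 1)) (t := univ) (by simp) fun _ _ => mem_univ _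
  wlog hlt : x < y generalizing x y
  · exact this y hy x hx hxy.symm h.symm (by omega)
  obtain ⟨q, rfl⟩ := Nat.exists_eq_add_of_lt hlt
  refine ⟨q, by rw [mem_range] at hy; omega, fun t ht => ?_⟩
  obtain ⟨e, he, rfl⟩ := List.mem_iff_getElem.1 ht
  have h1 : x * T[e] % M * (6 * n) / M = (x + q + 1) * T[e] % M * (6 * n) / M :=
    congrArg Fin.val (congrFun h ⟨e, he⟩)
  have h2 := Nat.div_add_mod (x * T[e] % M * (6 * n)) M
  have h3 := Nat.div_add_mod ((x + q + 1) * T[e] % M * (6 * n)) M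
  have h4 := Nat.mod_lt (x * T[e] % M * (6 * n)) hM
  have h5 := Nat.mod_lt ((x + q + 1) * T[e] % M * (6 * n)) hM
  have h6 := Nat.mod_lt ((q + 1) * T[e]) hM
  have h7 := Nat.add_mod_add_ite (x * T[e]) ((q + 1) * T[e]) M
  rw [← add_mul, ← add_assoc] at h7
  simp only [near, Bool.or_eq_true, Bool.not_eq_true', ltB_false_iff]
  rw [h1] at h2
  generalize (q + 1) * T[e] % M = c at *
  obtain ⟨g, rfl⟩ := Nat.exists_eq_add_of_le h6.le
  rw [Nat.add_sub_cancel_left]
  generalize (x + q + 1) * T[e] % (c + g) = r at *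
  generalize x * T[e] % (c + g) = r' at *
  split_ifs at h7
  · right
    obtain rfl : r' = r + g := by omega
    have : (r + g) * (6 * n) = r * (6 * n) + 6 * n * g := by ring
    omega
  · left
    obtain rfl : r = r' + c := by omega
    have : (r' + c) * (6 * n) = r' * (6 * n) + 6 * n * c := by ring
    omega

theorem qv_spec {n M c : ℕ} {T : List ℕ} (hn : 0 < n) (hM : 0 < M)
    (hc : (6 * n) ^ T.length ≤ 2 ^ c) : ∀ t ∈ T, near M (qv n M c T * t) n = true := by
  obtain ⟨-, h2, h3⟩ := bsr_spec (fun s => eqB (∑ q ∈ range s,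
    bif T.all fun t => near M ((q + 1) * t) n then 1 else 0) 0) c
  rw [qv]
  generalize bsr (fun s => eqB (∑ q ∈ range s,
    bif T.all fun t => near M ((q + 1) * t) n then 1 else 0) 0) c = A at *
  simp only [eqB_iff, eqB_false_iff, Ne, sum_eq_zero_iff, mem_range, Bool.cond_eq_ite,
    List.all_eq_true, ite_eq_right_iff, one_ne_zero, imp_false] at h2 h3
  have h4 := h2.elim (fun e q hq => absurd hq (by omega)) id
  by_contra h5
  have h6 : ∀ q < A + 1, ¬∀ t ∈ T, near M ((q + 1) * t) n = true := fun q hq =>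
    (Nat.lt_succ_iff_lt_or_eq.1 hq).elim (h4 q) fun e => e ▸ h5
  obtain ⟨q, hq, h7⟩ := dirichlet hn hM T
  exact h6 q (by rw [h3.resolve_right (not_not.2 h6)]; omega) h7

theorem rd_spec {M n c : ℕ} (hM : 0 < M) (h : near M c n = true) :
    6 * n * |(c : ℝ) - rd M n c * M| ≤ M := by
  have h1 : (M : ℝ) * (c / M : ℕ) + (c % M : ℕ) = c := by exact_mod_cast Nat.div_add_mod c M
  have h2 := (Nat.mod_lt c hM).le
  simp only [near, Bool.or_eq_true, Bool.not_eq_true', ltB_false_iff] at h
  rw [rd]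
  cases hc : ltB M (6 * n * (c % M))
  · rw [cond_false, add_zero, show (c : ℝ) - (c / M : ℕ) * M = (c % M : ℕ) by linarith,
      Nat.abs_cast]
    exact_mod_cast ltB_false_iff.1 hc
  · rw [cond_true, Nat.cast_add, Nat.cast_one, show (c : ℝ) - ((c / M : ℕ) + 1) * M =
      -((M - c % M : ℕ) : ℝ) by rw [Nat.cast_sub h2]; linarith, abs_neg, Nat.abs_cast]
    exact_mod_cast h.resolve_left (not_le.2 (ltB_iff.1 hc))

theorem lex_step {H W W' P P' : ℕ} (h : P < H) (h' : P' < H) (X : Prop) :
    (W < W' ∨ W = W' ∧ (P < P' ∨ P = P' ∧ X)) ↔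
      (H * W + P < H * W' + P' ∨ H * W + P = H * W' + P' ∧ X) := by
  rcases lt_trichotomy W W' with e | rfl | e
  · have := Nat.mul_le_mul_left H e
    rw [Nat.mul_succ] at this
    exact iff_of_true (Or.inl e) (Or.inl (by omega))
  · simp
  · have := Nat.mul_le_mul_left H e
    rw [Nat.mul_succ] at this
    exact iff_of_false (by omega) (by omega)

theorem int_small {x : ℤ} {μ n : ℝ} (hμ : 0 < μ) (hn : 1 ≤ n) (h : 3 * n * |x * μ| ≤ μ) :
    x = 0 := by
  by_contra hc
  have : (1 : ℝ) ≤ |(x : ℝ)| := by exact_mod_cast Int.one_le_abs hc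
  rw [abs_mul, abs_of_pos hμ] at h
  nlinarith [mul_le_mul hn this one_pos.le (by linarith)]

open Classical in
theorem wts_inv {a : List ℕ} {O : Fm → Bool} {n : ℕ} (hn : 0 < n)
    (hO : Ok a O (yY a.length n ^ (a.length + 1))) {I J : List ℕ} (hI : ∀ e ∈ I, e < a.length)
    (hJ : ∀ e ∈ J, e < a.length) (hl : I.length = J.length) (hle : I.length ≤ n) :
    ∀ i ≤ a.length, ∀ s, s = wts O a.length n i →
      i ≤ #{e ∈ range a.length | ev a (s.1.getD e []) = 0} ∧
      ((I.map fun e => √(a.getD e 0 : ℕ)).sum ≤ (J.map fun e => √(a.getD e 0 : ℕ)).sum ↔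
        (I.map fun e => s.2.getD e 0).sum < (J.map fun e => s.2.getD e 0).sum ∨
        (I.map fun e => s.2.getD e 0).sum = (J.map fun e => s.2.getD e 0).sum ∧
          (I.map fun e => ev a (s.1.getD e [])).sum ≤ (J.map fun e => ev a (s.1.getD e [])).sum) := by
  intro i
  induction i with
  | zero =>
    rintro - s rfl
    have h1 : ∀ e < a.length, ev a ((wts O a.length n 0).1.getD e []) = √(a.getD e 0 : ℕ) := by
      intro e he
      rw [wts, loop, getD_mr _ _ he, ev, sum_eq_single_of_mem e (mem_range.2 he) fun f hf h => by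
        rw [getD_mr _ _ (mem_range.1 hf), eqB_false_iff.2 h.symm]; simp, getD_mr _ _ he,
        eqB_iff.2 rfl]
      simp
    rw [List.map_congr_left fun e he => h1 e (hI e he),
      List.map_congr_left fun e he => h1 e (hJ e he)]
    simp [wts, loop]
  | succ i ih =>
    rintro hi s rfl
    obtain ⟨i1, i2⟩ := ih (by omega) _ rfl
    obtain ⟨⟨-, h1⟩, -⟩ := wts_sm O a.length n i
    have hb : 0 < 2 ^ ((n + 3) * a.length + (n + 3)) := by positivity
    have hY : 6 * 2 ^ ((n + 3) * a.length + (n + 3)) * yY a.length n ^ i ≤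
        yY a.length n ^ (a.length + 1) := by
      rw [pow_succ']
      exact Nat.mul_le_mul (by unfold yY; omega) (Nat.pow_le_pow_right (by unfold yY; omega)
        (by omega))
    obtain ⟨m1, m2, m3⟩ := mx_spec hO (le_trans (Nat.mul_le_mul_right _ (by omega)) hY) h1
      (2 * a.length)
    have m0 := mx_sm O h1 (2 * a.length)
    rw [i2, wts, loop, ← wts, rnd]
    generalize wts O a.length n i = s at *
    generalize mx O a.length s.1 (2 * a.length) = m at *
    have m4 : ∀ e < a.length, |ev a (s.1.getD e [])| ≤ ev a m := fun e he => by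
      have a1 := m2 (2 * e) (by omega)
      have a2 := m2 (2 * e + 1) (by omega)
      simp only [sg, ev_cb, Nat.mul_mod_right, Nat.mul_div_cancel_left e two_pos,
        Nat.mul_add_mod, show (2 * e + 1) / 2 = e by omega] at a1 a2
      exact abs_le.2 ⟨by push_cast at a1; linarith, by norm_num at a2 ⊢; linarith⟩
    have t1 := fun e he => tv_spec hO hY (h1 e) m0 (m4 e he)
    have hq : qv n (2 ^ ((n + 3) * a.length + (n + 3))) ((n + 3) * a.length)
      (tvs O a.length n s.1 m) ≤ 2 ^ ((n + 3) * a.length) := (bsr_spec _ _).1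
    have h6n : 6 * n ≤ 2 ^ (n + 3) := by
      have : n < 2 ^ n := Nat.lt_two_pow_self
      rw [pow_add]; omega
    have q1 := qv_spec (c := (n + 3) * a.length) (T := tvs O a.length n s.1 m) hn hb
      (by rw [pow_mul]; simpa [tvs] using Nat.pow_le_pow_left h6n _)
    have q0 : 0 < qv n (2 ^ ((n + 3) * a.length + (n + 3))) ((n + 3) * a.length)
      (tvs O a.length n s.1 m) := Nat.add_one_pos _
    have p1 := fun e => rd_le O a.length n (qv n (2 ^ ((n + 3) * a.length + (n + 3)))
      ((n + 3) * a.length) (tvs O a.length n s.1 m)) e s.1 m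
    generalize qv n (2 ^ ((n + 3) * a.length + (n + 3))) ((n + 3) * a.length)
      (tvs O a.length n s.1 m) = q at *
    set p : ℕ → ℕ := fun e => rd (2 ^ ((n + 3) * a.length + (n + 3))) n
      (q * (tvs O a.length n s.1 m).getD e 0) with hp
    have u1 : ∀ e < a.length, ev a ((upd a.length n s m (tvs O a.length n s.1 m) q).1.getD e []) =
        q * (ev a (s.1.getD e []) + ev a m) - p e * ev a m := fun e he => by
      rw [upd, getD_mr _ _ he, ev_cb, ev_pl]
    have u2 : ∀ e < a.length, (upd a.length n s m (tvs O a.length n s.1 m) q).2.getD e 0 =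
        hW a.length n * s.2.getD e 0 + p e := fun e he => by rw [upd, getD_mr _ _ he]
    have u3 : ∀ e < a.length,
        3 * n * |q * (ev a (s.1.getD e []) + ev a m) - p e * ev a m| ≤ ev a m := fun e he => by
      have a1 := rd_spec hb (q1 _ (List.mem_map.2 ⟨e, List.mem_range.2 he, rfl⟩))
      have a2 := (t1 e he).1
      have a3 : (6 * n * q : ℝ) ≤ 2 ^ ((n + 3) * a.length + (n + 3)) := by
        rw [pow_add, mul_comm]; exact_mod_cast Nat.mul_le_mul hq h6n
      simp only [hp, tvs, getD_mr _ _ he]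
      push_cast at a1
      generalize rd _ n _ = r at *
      generalize tv O a.length _ m _ = t at *
      have hM : (0 : ℝ) < 2 ^ ((n + 3) * a.length + (n + 3)) := by positivity
      generalize (2 : ℝ) ^ ((n + 3) * a.length + (n + 3)) = M at *
      have a4 : M * |q * (ev a (s.1.getD e []) + ev a m) - r * ev a m| ≤
          q * ev a m + |(q * t : ℝ) - r * M| * ev a m := by
        rw [← abs_of_pos hM, ← abs_mul, abs_of_pos hM, show M * (q * (ev a (s.1.getD e []) +
          ev a m) - r * ev a m) = q * (M * (ev a (s.1.getD e []) + ev a m) - t * ev a m) +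
            (q * t - r * M) * ev a m by ring]
        refine (abs_add_le _ _).trans ?_
        rw [abs_mul, abs_mul, Nat.abs_cast, abs_of_nonneg m1]
        gcongr
      refine le_of_mul_le_mul_left ?_ hM
      nlinarith [mul_le_mul_of_nonneg_left a4 (show (0 : ℝ) ≤ 3 * n by positivity),
        mul_le_mul_of_nonneg_right a1 m1, mul_le_mul_of_nonneg_right a3 m1]
    have hn' : (1 : ℝ) ≤ n := by exact_mod_cast hn
    have hq' : (0 : ℝ) < q := by exact_mod_cast q0
    rw [List.map_congr_left fun e he => u1 e (hI e he),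
      List.map_congr_left fun e he => u1 e (hJ e he),
      List.map_congr_left fun e he => u2 e (hI e he),
      List.map_congr_left fun e he => u2 e (hJ e he)]
    have s1 : ∀ K : List ℕ, K.length ≤ n → (K.map p).sum < hW a.length n := fun K hK =>
      Nat.lt_succ_of_le ((PolyT.Poly.sum_map_le K p _ fun e _ => (p1 e).trans
        (by omega : _ ≤ 4 * 2 ^ ((n + 3) * a.length) + 1)).trans (Nat.mul_le_mul_right _ hK))
    have s2 : ∀ K : List ℕ, (K.map fun e => q * (ev a (s.1.getD e []) + ev a m) -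
        p e * ev a m).sum = q * (K.map fun e => ev a (s.1.getD e [])).sum +
          q * K.length * ev a m - ((K.map p).sum : ℕ) * ev a m := fun K => by
      induction K with
      | nil => simp
      | cons e K ih => simp only [List.map_cons, List.sum_cons, ih, List.length_cons]; push_cast; ring
    have s3 : ∀ K : List ℕ, (∀ e ∈ K, e < a.length) → 3 * n * |(K.map fun e =>
        q * (ev a (s.1.getD e []) + ev a m) - p e * ev a m).sum| ≤ K.length * ev a m := fun K => by
      induction K with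
      | nil => simp
      | cons e K ih =>
        intro hK
        rw [List.map_cons, List.sum_cons, List.length_cons]
        refine (mul_le_mul_of_nonneg_left (abs_add_le _ _) (by positivity)).trans ?_
        push_cast
        linarith [u3 e (hK e (by simp)), ih fun f hf => hK f (by simp [hf])]
    have s4 : ∀ K : List ℕ, (∀ e ∈ K, e < a.length) → K.length ≤ n → |(K.map fun e =>
        q * (ev a (s.1.getD e []) + ev a m) - p e * ev a m).sum| ≤ ev a m / 3 := fun K h h' => by
      have : (K.length : ℝ) ≤ n := by exact_mod_cast h'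
      refine le_of_mul_le_mul_left ?_ (show (0 : ℝ) < 3 * n by positivity)
      nlinarith [s3 K h, mul_le_mul_of_nonneg_right this m1]
    simp only [List.sum_map_add, List.sum_map_mul_left]
    rw [← lex_step (s1 I hle) (s1 J (hl ▸ hle))]
    rcases m1.eq_or_lt with h0 | h0
    · refine ⟨hi.trans ((card_range _).ge.trans (congrArg card (filter_true_of_mem fun e he => ?_)).ge),
        or_congr_right (and_congr_right fun _ => ?_)⟩
      · rw [u1 e (mem_range.1 he), abs_nonpos_iff.1 ((m4 e (mem_range.1 he)).trans h0.ge), ← h0]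
        simp
      · have c1 : ∀ K : List ℕ, (∀ e ∈ K, e < a.length) → (K.map p).sum = K.length * rd
            (2 ^ ((n + 3) * a.length + (n + 3))) n (q * (2 ^ ((n + 3) * a.length + (n + 3) + 2) - 1)) :=
          fun K hK => by
            rw [List.map_congr_left (g := fun _ => _) fun e he => by
              simp only [hp, tvs, getD_mr _ _ (hK e he)]
              rw [Nat.eq_sub_of_add_eq ((t1 e (hK e he)).2 h0.symm)]]
            simp
        rw [s2, s2, c1 I hI, c1 J hJ, hl, ← h0]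
        simp [hq']
    · obtain ⟨j, hj, e1⟩ := m3.resolve_left h0.ne'
      refine ⟨Nat.succ_le_of_lt (i1.trans_lt (card_lt_card ((ssubset_iff_of_subset
        fun e he => ?_).2 ⟨j / 2, ?_, ?_⟩))), or_congr_right (and_congr_right fun _ => ?_)⟩
      · obtain ⟨he, h⟩ := mem_filter.1 he
        have := u3 e (mem_range.1 he)
        refine mem_filter.2 ⟨he, ?_⟩
        rw [u1 e (mem_range.1 he)]
        rw [h, zero_add, ← sub_mul] at this ⊢
        have h2 := int_small (x := q - p e) h0 hn' (by exact_mod_cast this)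
        rw [mul_eq_zero]; left; exact_mod_cast h2
      · have hj' : j / 2 < a.length := by omega
        have := u3 _ hj'
        refine mem_filter.2 ⟨mem_range.2 hj', ?_⟩
        rw [u1 _ hj']
        have h3 : ev a (s.1.getD (j / 2) []) + ev a m = (2 * (j % 2) : ℕ) * ev a m := by
          rw [sg, ev_cb] at e1
          rcases Nat.mod_two_eq_zero_or_one j with h | h <;> rw [h] at e1 ⊢ <;> push_cast at e1 ⊢ <;>
            linarith
        rw [h3, ← mul_assoc, ← sub_mul] at this ⊢
        have h2 := int_small (x := q * (2 * (j % 2) : ℕ) - p (j / 2)) h0 hn'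
          (by exact_mod_cast this)
        rw [mul_eq_zero]; left; exact_mod_cast h2
      · intro h
        rw [sg, ev_cb, (mem_filter.1 h).2] at e1
        simp [h0.ne'] at e1
      · have c1 := abs_le.1 (s4 I hI hle)
        have c2 := abs_le.1 (s4 J hJ (hl ▸ hle))
        rw [s2] at c1 c2
        rw [s2, s2]
        rw [hl] at c1 ⊢
        rcases lt_trichotomy (I.map p).sum (J.map p).sum with h | h | h
        · have : (((I.map p).sum : ℕ) : ℝ) + 1 ≤ ((J.map p).sum : ℕ) := by exact_mod_cast h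
          exact iff_of_true (le_of_mul_le_mul_left (by nlinarith) hq') (Or.inl h)
        · simp [h, hq']
        · have : (((J.map p).sum : ℕ) : ℝ) + 1 ≤ ((I.map p).sum : ℕ) := by exact_mod_cast h
          exact iff_of_false (not_le.2 (lt_of_mul_lt_mul_left (by nlinarith) hq'.le)) (by omega)

theorem wts_spec {a : List ℕ} {O : Fm → Bool} {n : ℕ} (hn : 0 < n)
    (hO : Ok a O (yY a.length n ^ (a.length + 1))) {I J : List ℕ} (hI : ∀ e ∈ I, e < a.length)
    (hJ : ∀ e ∈ J, e < a.length) (hl : I.length = J.length) (hle : I.length ≤ n) :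
    (I.map fun e => √(a.getD e 0 : ℕ)).sum ≤ (J.map fun e => √(a.getD e 0 : ℕ)).sum ↔
      (I.map fun e => (wts O a.length n a.length).2.getD e 0).sum ≤
        (J.map fun e => (wts O a.length n a.length).2.getD e 0).sum := by
  obtain ⟨h1, h2⟩ := wts_inv hn hO hI hJ hl hle _ le_rfl _ rfl
  have h3 := filter_card_eq ((card_filter_le _ _).antisymm ((card_range _).trans_le h1))
  rw [h2, List.map_congr_left fun e he => h3 e (mem_range.2 (hI e he)),
    List.map_congr_left fun e he => h3 e (mem_range.2 (hJ e he))]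
  simp [le_iff_lt_or_eq]

/-- The radicands: squared distances, the squared bound, and zero. -/
def rad (I : List (ℤ × ℤ) × ℤ) : List ℕ := (List.range (I.1.length * I.1.length)).map
  (fun e => sqd (I.1.getD (e / I.1.length) (0, 0)) (I.1.getD (e % I.1.length) (0, 0))) ++
    [I.2.toNat * I.2.toNat, 0]

/-- The indices of the edges of the tour. -/
def edg (I : List (ℤ × ℤ) × ℤ) (y : ℕ) : List ℕ := (I.1.length * I.1.length + 1) ::
  (List.range I.1.length).map fun i => I.1.length * vis I y i + vis I y ((i + 1) % I.1.length)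

/-- The indices of the bound. -/
def bnd (I : List (ℤ × ℤ) × ℤ) : List ℕ :=
  I.1.length * I.1.length :: I.1.map fun _ => I.1.length * I.1.length + 1

/-- The number of tours that are short for the weights. -/
def tours (I : List (ℤ × ℤ) × ℤ) (w : List ℕ) : ℕ := ∑ y ∈ range (2 ^ (len I * len I)),
  bif okT I y && !ltB ((bnd I).map fun e => w.getD e 0).sum ((edg I y).map fun e => w.getD e 0).sum
    then 1 else 0

@[fun_prop] theorem p_sum {α : Type} [N487b59b3 α] {l : α → List ℕ} (hl : PolyT.Poly l) :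
    PolyT.Poly fun a => (l a).sum := hl.sum

theorem etsp_bpp : BPPSharp ETSP := by
  have hr : PolyT.Poly rad := by unfold rad sqd dst; fun_prop
  obtain ⟨E, hE⟩ := Un.bd (n := fun I : List (ℤ × ℤ) × ℤ => 3 * ((rad I).length * (2 * len
    (yY (rad I).length (I.1.length + 1) ^ ((rad I).length + 1) * yY (rad I).length
      (I.1.length + 1) ^ ((rad I).length + 1) * 2 ^ len (rad I)) + 1)) + 1) (by fun_prop)
  refine bpp_of_oracle nice_NS (A := fun O I => ltB 0 (tours I (wts (fun u => O (qy (rad I) u))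
    (rad I).length (I.1.length + 1) (rad I).length).2)) (fun O hO => ?_) E fun I O hO => ?_
  · have h1 := fs_wts (α := (List (ℤ × ℤ) × ℤ) × List Bool)
      (O := fun z => O (z.1, qy (rad z.1.1) z.2)) (hO.pre (by unfold qy; fun_prop))
      (d := fun y => (rad y.1).length) (n := fun y => y.1.1.length + 1) (by fun_prop) (by fun_prop)
    have h2 : Sharp fun z : ((List (ℤ × ℤ) × ℤ) × List Bool) × List Fm × List ℕ =>
        tours z.1.1 z.2.2 :=
      Sharp.rsum (F := fun v : (((List (ℤ × ℤ) × ℤ) × List Bool) × List Fm × List ℕ) × ℕ =>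
        bif okT v.1.1.1 v.2 && !ltB ((bnd v.1.1.1).map fun e => v.1.2.2.getD e 0).sum
          ((edg v.1.1.1 v.2).map fun e => v.1.2.2.getD e 0).sum then 1 else 0)
        (Sharp.poly (by unfold okT bnd edg vis; fun_prop)) (by fun_prop)
    have h3 := (h1.seq (FS.sharp h2)).seq (g := fun z => ltB 0 z.2) (FS.poly (by fun_prop))
    exact h3.congr fun _ => rfl
  have hl : (rad I).length = I.1.length * I.1.length + 2 := by simp [rad]
  have hO' : Ok (rad I) (fun u => O (qy (rad I) u))
      (yY (rad I).length (I.1.length + 1) ^ ((rad I).length + 1)) := fun u hu => by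
    have h1 : ∀ e < (rad I).length, (rad I).getD e 0 ≤ 2 ^ len (rad I) := fun e he => by
      rw [List.getD_eq_getElem _ _ he]
      exact (lt_two_pow_enc _).le.trans
        (Nat.pow_le_pow_right two_pos (enc_mem_le (List.getElem_mem he)))
    have h2 := len_list (List.forall_mem_map.2 fun e (he : e ∈ List.range (rad I).length) =>
      len_mono (Nat.mul_le_mul (Nat.mul_le_mul (hu.2 e).1 (hu.2 e).1) (h1 e (List.mem_range.1 he))))
    have h3 := len_list (List.forall_mem_map.2 fun e (he : e ∈ List.range (rad I).length) =>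
      len_mono (Nat.mul_le_mul (Nat.mul_le_mul (hu.2 e).2 (hu.2 e).2) (h1 e (List.mem_range.1 he))))
    rw [List.length_map, List.length_range] at h2 h3
    simp only
    rw [hO _ (le_trans (by rw [qy, len_prod]; simp only; omega) (hE I)), decide_eq_true_iff, ← ssqr2_iff,
      qy_iff]
  have key : ∀ y, okT I y = true → (SSQR2 (red I y) ↔ ((edg I y).map fun e => (wts (fun u =>
      O (qy (rad I) u)) (rad I).length (I.1.length + 1) (rad I).length).2.getD e 0).sum ≤
      ((bnd I).map fun e => (wts (fun u => O (qy (rad I) u)) (rad I).length (I.1.length + 1)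
        (rad I).length).2.getD e 0).sum) := fun y hy => by
    simp only [okT, Bool.and_eq_true, List.all_eq_true, List.mem_range, ltB_iff] at hy
    have h1 : ∀ i < I.1.length, I.1.length * vis I y i + vis I y ((i + 1) % I.1.length) <
        I.1.length * I.1.length := fun i hi => by
      have := Nat.mul_le_mul_left I.1.length (hy.2 i hi).1
      have := (hy.2 _ (Nat.mod_lt (i + 1) (by omega))).1
      rw [Nat.mul_succ] at *
      omega
    rw [← wts_spec (Nat.add_one_pos _) hO' (by
      simp only [edg, hl, List.forall_mem_cons, List.forall_mem_map, List.mem_range]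
      exact ⟨by omega, fun i hi => by have := h1 i hi; omega⟩) (by simp [bnd, hl])
      (by simp [edg, bnd]) (by simp [edg])]
    have h2 : (rad I).getD (I.1.length * I.1.length + 1) 0 = 0 := by simp [rad]
    have h3 : (rad I).getD (I.1.length * I.1.length) 0 = I.2.toNat * I.2.toNat := by simp [rad]
    simp only [SSQR2, red, edg, bnd, List.map_cons, List.map_map, List.sum_cons, h2, h3,
      Function.comp_def, Nat.cast_zero, Real.sqrt_zero, zero_add, List.map_const',
      List.sum_replicate, smul_zero, List.map_nil, List.sum_nil, List.map_replicate]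
    refine iff_of_eq (congrArg (· ≤ _) (congrArg List.sum (List.map_congr_left fun i hi => ?_)))
    have hi := List.mem_range.1 hi
    have h4 := (hy.2 _ (Nat.mod_lt (i + 1) (by omega : 0 < I.1.length))).1
    rw [rad, List.getD_append _ _ _ _ (by simpa using h1 i hi), getD_mr _ _ (h1 i hi),
      Nat.mul_add_div (by omega), Nat.div_eq_of_lt h4, add_zero, Nat.mul_add_mod,
      Nat.mod_eq_of_lt h4]
  simp only [etsp_iff, ltB_iff, tours, Nat.pos_iff_ne_zero, Ne, sum_eq_zero_iff, mem_range,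
    Bool.cond_eq_ite, ite_eq_right_iff, one_ne_zero, imp_false, not_forall, not_not,
    Bool.and_eq_true, Bool.not_eq_true', ltB_false_iff]
  constructor
  · rintro ⟨y, hy, h1, h2⟩
    obtain ⟨w, hw, rfl⟩ := exists_ofBits hy
    exact ⟨w, hw, by rw [if_pos h1, ← ssqr2_iff, key _ h1]; exact h2⟩
  · rintro ⟨w, hw, h⟩
    split_ifs at h with h1
    · exact ⟨ofBits w, hw ▸ ofBits_lt w, h1, (key _ h1).1 ((ssqr2_iff _).2 h)⟩
    · exact absurd h (lt_irrefl _)

end Pool.Agent.MP_c00c90_lc

end MrgPart2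

-- marker of a merged file
example : 731051 + 571446 = 731051 + 571446 := rfl
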